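import Pool.Agent.Y463.MP.Cnt
import Pool.Agent.W639.RB.Knots

/-!
# The final bounds
-/

set_option autoImplicit false

namespace Pool.Agent.Y463.MP

open Finset LaurentPolynomial Pool.Agent.H891R2.Jones Pool.Agent.W639.RB
open Pool.Agent.W705.JR (card_letter)

variable {m : ℕ}

theorem Pr_mono (p : Letter m → ℝ) (hp : ∀ x, 0 ≤ p x) {n : ℕ} {E F : (Fin n → Letter m) → Prop} 
    (h : ∀ w, E w → F w) : Pr p n E ≤ Pr p n F := by
  classical
  unfold Pr
  refine Finset.sum_le_sum fun w _ => ?_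
  by_cases hE : E w
  · rw [if_pos hE, if_pos (h w hE)]
  · rw [if_neg hE]
    split_ifs
    · exact Finset.prod_nonneg fun _ _ => hp _
    · exact le_rfl

theorem Pr_le_one (p : Letter m → ℝ) (hp : ∀ x, 0 ≤ p x) (hs : ∑ x, p x = 1) {n : ℕ} 
    (E : (Fin n → Letter m) → Prop) : Pr p n E ≤ 1 := by
  classical
  have h1 : Pr p n E ≤ Pr p n (fun _ => True) := Pr_mono p hp (fun _ _ => trivial)
  refine h1.trans (le_of_eq ?_)
  unfold Pr
  simp only [if_true]
  have h2 := Finset.prod_univ_sum (fun _ : Fin n => (Finset.univ : Finset (Letter m))) 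
    (fun (_ : Fin n) (b : Letter m) => p b)
  rw [Fintype.piFinset_univ] at h2
  rw [← h2, hs, Finset.prod_const_one]

/-- a coefficient which is not divisible by a divisor of `N` is not divisible by `N` -/
theorem nonmult_mono {l N : ℕ} (h : l ∣ N) (f : ℤ[T;T⁻¹]) : nonmult l f ≤ nonmult N f := by
  unfold nonmult
  apply Finset.card_le_card
  intro j hj
  rw [Finset.mem_filter] at hj ⊢
  exact ⟨hj.1, fun h1 => hj.2 (dvd_trans (Int.natCast_dvd_natCast.2 h) h1)⟩

/-- the choice of the parameters -/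
theorem pick (l : ℕ) (hl : 2 ≤ l) (c b : ℝ) (hc : 0 < c) (hb : 0 < b) : 
    ∃ x δ : ℝ, 0 < x ∧ x < 1 ∧ 0 < δ ∧ 
      (∀ n S : ℕ, (S : ℝ) ≤ c * n → (1 + (l - 1) * x) ^ S ≤ Real.exp (b * n)) ∧ 
      (∀ n k : ℕ, (k : ℝ) ≤ δ * n → 1 ≤ Real.exp (b * n) * x ^ k) := by
  have hl' : (2:ℝ) ≤ l := by exact_mod_cast hl
  set x : ℝ := min (1/2) (b / (c * l)) with hx
  have hx0 : 0 < x := lt_min (by norm_num) (by positivity)
  have hx1 : x ≤ 1/2 := min_le_left _ _
  have hx2 : x ≤ b / (c * l) := min_le_right _ _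
  have hlog : 0 < - Real.log x := by
    have := Real.log_neg hx0 (by linarith)
    linarith
  refine ⟨x, b / (- Real.log x), hx0, by linarith, by positivity, ?_, ?_⟩
  · intro n S hS
    have h1 : 1 + ((l:ℝ) - 1) * x ≤ Real.exp (l * x) := by
      have := Real.add_one_le_exp ((l:ℝ) * x)
      nlinarith
    calc (1 + ((l:ℝ) - 1) * x) ^ S ≤ (Real.exp (l * x)) ^ S := by
          apply pow_le_pow_left₀ _ h1
          nlinarith
      _ = Real.exp (S * (l * x)) := by rw [← Real.exp_nat_mul]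
      _ ≤ Real.exp (b * n) := by
        apply Real.exp_le_exp.2
        have h2 : (l:ℝ) * x ≤ b / c := by
          calc (l:ℝ) * x ≤ l * (b / (c * l)) := by gcongr
            _ = b / c := by field_simp
        calc (S:ℝ) * (l * x) ≤ (c * n) * (b / c) := by
              apply mul_le_mul hS h2 (by positivity) (by positivity)
          _ = b * n := by field_simp
  · intro n k hk
    have h1 : x ^ k = Real.exp (k * Real.log x) := by
      rw [mul_comm, Real.exp_mul, Real.exp_log hx0, Real.rpow_natCast]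
    rw [h1, ← Real.exp_add]
    apply Real.one_le_exp
    have h2 : (k:ℝ) * (- Real.log x) ≤ b * n := by
      calc (k:ℝ) * (- Real.log x) ≤ (b / (- Real.log x) * n) * (- Real.log x) := 
            mul_le_mul_of_nonneg_right hk hlog.le
        _ = b * n := by rw [div_mul_eq_mul_div, div_mul_cancel₀ _ hlog.ne']
    linarith

theorem final (hm : 3 ≤ m) (p : Letter m → ℝ) (hp : ∀ x, 0 < p x) (hs : ∑ x, p x = 1) : 
    ∃ r : ℝ, 0 < r ∧ r < 1 ∧ 
      (∃ C : ℝ, ∀ N : ℕ, 2 ≤ N → ∀ (O : Outer m) (g : ℤ[T;T⁻¹]) (n : ℕ), 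
        Pr p n (fun w => (N : ℤ[T;T⁻¹]) ∣ (diagram O w).fPoly - g) ≤ C * r ^ n) ∧ 
      (∀ N : ℕ, 2 ≤ N → ∀ κ : ℝ, ∃ δ : ℝ, 0 < δ ∧ ∃ C : ℝ, ∀ (O : Outer m) (n : ℕ), 
        (osize O : ℝ) ≤ κ * (n + 1) → 
        Pr p n (fun w => (nonmult N (diagram O w).fPoly : ℝ) ≤ δ * n) ≤ C * r ^ n) := by
  classical
  obtain ⟨C, r, hC, hr0, hr1, h⟩ := main hm p hp hs
  set r0 : ℝ := max r (1/2) with hr0def
  have hr00 : 0 < r0 := lt_max_of_lt_right (by norm_num)
  have hr01 : r0 < 1 := max_lt hr1 (by norm_num)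
  have hrr : r ≤ r0 := le_max_left _ _
  set b : ℝ := - Real.log r0 / 4 with hb
  have hb0 : 0 < b := by
    have := Real.log_neg hr00 hr01
    rw [hb]; linarith
  have hr0e : ∀ n : ℕ, r0 ^ n = Real.exp (-(4 * b) * n) := by
    intro n
    have h1 : -(4 * b) = Real.log r0 := by rw [hb]; ring
    rw [h1, Real.exp_mul, Real.exp_log hr00, Real.rpow_natCast]
  set r' : ℝ := Real.exp (-(2 * b)) with hr'
  have hr'n : ∀ n : ℕ, r' ^ n = Real.exp (-(2 * b) * n) := by
    intro n
    rw [hr', ← Real.exp_nat_mul]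
    congr 1
    ring
  have hle : ∀ n : ℕ, r ^ n ≤ r' ^ n := by
    intro n
    calc r ^ n ≤ r0 ^ n := pow_le_pow_left₀ hr0 hrr n
      _ ≤ r' ^ n := by
        rw [hr0e, hr'n]
        apply Real.exp_le_exp.2
        have : 0 ≤ b * n := by positivity
        nlinarith
  refine ⟨r', Real.exp_pos _, by rw [hr', Real.exp_lt_one_iff]; linarith, ⟨C, ?_⟩, ?_⟩
  · intro N hN O g n
    set l := N.minFac with hl
    have hlp : l.Prime := Nat.minFac_prime (by omega)
    haveI : Fact l.Prime := ⟨hlp⟩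
    have hdvd : l ∣ N := Nat.minFac_dvd N
    have h1 := h l O (phi l g) n
    refine le_trans ?_ (h1.trans (mul_le_mul_of_nonneg_left (hle n) hC))
    unfold Pr probl
    refine Finset.sum_le_sum fun w _ => ?_
    have hpos : 0 ≤ ∏ j, p (w j) := Finset.prod_nonneg fun _ _ => (hp _).le
    by_cases hw : (N : ℤ[T;T⁻¹]) ∣ (diagram O w).fPoly - g
    · have h2 : phi l ((diagram O w).fPoly - g) = 0 := by
        rw [phi_zero_iff]
        exact dvd_trans (by exact_mod_cast (map_dvd (Nat.castRingHom ℤ[T;T⁻¹]) hdvd)) hw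
      rw [map_sub, sub_eq_zero] at h2
      rw [if_pos hw, if_pos (show phi l (draw O (toL w)).close.fPoly = phi l g from h2)]
    · rw [if_neg hw]
      split_ifs
      · exact hpos
      · exact le_rfl
  · intro N hN κ
    set l := N.minFac with hl
    have hlp : l.Prime := Nat.minFac_prime (by omega)
    haveI : Fact l.Prime := ⟨hlp⟩
    have hdvd : l ∣ N := Nat.minFac_dvd N
    set κ' : ℝ := max κ 0 with hκ'
    have hκ0 : 0 ≤ κ' := le_max_right _ _
    have hκκ : κ ≤ κ' := le_max_left _ _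
    set c : ℝ := 16 * κ' + 8 + 4 * m + 1 with hc
    have hc0 : 0 < c := by positivity
    obtain ⟨x, δ, hx0, hx1, hδ, hS, hk⟩ := pick l hlp.two_le c b hc0 hb0
    refine ⟨δ, hδ, C + 1, ?_⟩
    intro O n hO
    have hPr1 : Pr p n (fun w => (nonmult N (diagram O w).fPoly : ℝ) ≤ δ * n) ≤ 
        Pr p n (fun w => nonmult l (draw O (toL w)).close.fPoly ≤ ⌊δ * n⌋₊) := by
      apply Pr_mono p (fun x => (hp x).le)
      intro w hw
      apply Nat.le_floor
      refine le_trans ?_ hw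
      exact_mod_cast nonmult_mono hdvd _
    rcases Nat.eq_zero_or_pos n with hn | hn
    · refine (Pr_le_one p (fun x => (hp x).le) hs _).trans ?_
      rw [hn, pow_zero]; linarith
    · have hn1 : (1:ℝ) ≤ n := by exact_mod_cast hn
      have hwin : ((2 * win O n + 1 : ℕ) : ℝ) ≤ c * n := by
        have e1 : (win O n : ℝ) ≤ 4 * (osize O : ℝ) + (4 + 2 * m) * n := by
          unfold win osize
          push_cast
          have : (0:ℝ) ≤ Nat.card O.P := Nat.cast_nonneg _
          nlinarith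
        have e2 : (osize O : ℝ) ≤ κ' * (2 * n) := by
          refine hO.trans ?_
          have : κ * ((n:ℝ) + 1) ≤ κ' * ((n:ℝ) + 1) := mul_le_mul_of_nonneg_right hκκ (by positivity)
          refine this.trans (mul_le_mul_of_nonneg_left (by linarith) hκ0)
        push_cast
        rw [hc]
        nlinarith
      have hfew := few l p (fun x => (hp x).le) O n (C * r ^ n) (fun z => h l O z n) ⌊δ * n⌋₊ x hx0 hx1.le
      have e3 := hS n (2 * win O n + 1) hwin
      have e4 := hk n ⌊δ * n⌋₊ (Nat.floor_le (by positivity))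
      have hP0 : 0 ≤ Pr p n (fun w => nonmult l (draw O (toL w)).close.fPoly ≤ ⌊δ * n⌋₊) := by
        unfold Pr
        exact Finset.sum_nonneg fun w _ => by
          split_ifs
          · exact Finset.prod_nonneg fun _ _ => (hp _).le
          · exact le_rfl
      have hCr : 0 ≤ C * r ^ n := by positivity
      calc _ ≤ Pr p n (fun w => nonmult l (draw O (toL w)).close.fPoly ≤ ⌊δ * n⌋₊) := hPr1
        _ ≤ Pr p n (fun w => nonmult l (draw O (toL w)).close.fPoly ≤ ⌊δ * n⌋₊) * 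
            (Real.exp (b * n) * x ^ ⌊δ * n⌋₊) := le_mul_of_one_le_right hP0 e4
        _ = (Pr p n (fun w => nonmult l (draw O (toL w)).close.fPoly ≤ ⌊δ * n⌋₊) * x ^ ⌊δ * n⌋₊) * 
            Real.exp (b * n) := by ring
        _ ≤ ((1 + (l - 1) * x) ^ (2 * win O n + 1) * (C * r ^ n)) * Real.exp (b * n) := 
            mul_le_mul_of_nonneg_right hfew (Real.exp_pos _).le
        _ ≤ (Real.exp (b * n) * (C * r0 ^ n)) * Real.exp (b * n) := by
            apply mul_le_mul_of_nonneg_right _ (Real.exp_pos _).le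
            apply mul_le_mul e3 _ hCr (Real.exp_pos _).le
            exact mul_le_mul_of_nonneg_left (pow_le_pow_left₀ hr0 hrr n) hC
        _ = C * r' ^ n := by
            rw [hr0e, hr'n]
            have : Real.exp (-(2 * b) * n) = Real.exp (b * n) * Real.exp (-(4 * b) * n) * Real.exp (b * n) := by
              rw [← Real.exp_add, ← Real.exp_add]
              congr 1
              ring
            rw [this]; ring
        _ ≤ (C + 1) * r' ^ n := by
            have : 0 ≤ r' ^ n := by rw [hr'n]; exact (Real.exp_pos _).le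
            nlinarith

/-- few coefficients of a diagram of small size -/
theorem nonmult_le_dsize {P : Type} [Finite P] (N : ℕ) (D : Diagram P) : 
    nonmult N D.fPoly ≤ 4 * dsize D + 1 := by
  have h1 := Pool.Agent.W705.JR.fPoly_card D
  have h2 : nonmult N D.fPoly ≤ D.fPoly.coeff.support.card := Finset.card_filter_le _ _
  unfold dsize
  omega

theorem nonmult_congr (N : ℕ) (f g : ℤ[T;T⁻¹]) (h : (N : ℤ[T;T⁻¹]) ∣ f - g) : nonmult N f = nonmult N g := by
  have h1 : ∀ j, (N : ℤ) ∣ f.coeff j - g.coeff j := by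
    obtain ⟨q, hq⟩ := h
    intro j
    refine ⟨q.coeff j, ?_⟩
    have h2 : f.coeff j - g.coeff j = (f - g).coeff j := by
      rw [AddMonoidAlgebra.coeff_sub, Finsupp.sub_apply]
    rw [h2, hq, ← nsmul_eq_mul, AddMonoidAlgebra.coeff_smul, Finsupp.smul_apply, nsmul_eq_mul]
  have h2 : ∀ j, (N : ℤ) ∣ f.coeff j ↔ (N : ℤ) ∣ g.coeff j := by
    intro j
    constructor
    · intro h3
      have := dvd_sub h3 (h1 j)
      rwa [sub_sub_cancel] at this
    · intro h3
      have := dvd_add (h1 j) h3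
      rwa [sub_add_cancel] at this
  unfold nonmult
  congr 1
  ext j
  rw [Finset.mem_filter, Finset.mem_filter, Finsupp.mem_support_iff, Finsupp.mem_support_iff]
  constructor
  · rintro ⟨_, h4⟩
    have h5 : ¬ (N : ℤ) ∣ g.coeff j := fun h6 => h4 ((h2 j).2 h6)
    exact ⟨fun h0 => h5 (by rw [h0]; exact dvd_zero _), h5⟩
  · rintro ⟨_, h4⟩
    have h5 : ¬ (N : ℤ) ∣ f.coeff j := fun h6 => h4 ((h2 j).1 h6)
    exact ⟨fun h0 => h5 (by rw [h0]; exact dvd_zero _), h5⟩

/-- the last part -/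
theorem short (p : Letter m → ℝ) (hp : ∀ x, 0 < p x) (hs : ∑ x, p x = 1) (r : ℝ) (hr : 0 < r) (hr1 : r < 1)
    (N : ℕ) (κ δ : ℝ) (hδ : 0 < δ) (C : ℝ) (hC : ∀ (O : Outer m) (n : ℕ), 
        (osize O : ℝ) ≤ κ * (n + 1) → 
        Pr p n (fun w => (nonmult N (diagram O w).fPoly : ℝ) ≤ δ * n) ≤ C * r ^ n) : 
    ∃ ε : ℝ, 0 < ε ∧ ∃ C' : ℝ, ∀ (O : Outer m) (n : ℕ), (osize O : ℝ) ≤ κ * (n + 1) → 
        Pr p n (fun w => ∃ (P : Type) (_ : Finite P) (D : Diagram P), (dsize D : ℝ) ≤ ε * n ∧ 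
          (N : ℤ[T;T⁻¹]) ∣ (diagram O w).fPoly - D.fPoly) ≤ C' * r ^ n := by
  obtain ⟨n₀, hn₀⟩ := exists_nat_gt (2 / δ)
  have hpow : ∀ n : ℕ, 0 < r ^ n := fun n => pow_pos hr n
  refine ⟨δ / 8, by positivity, max C (1 / r ^ n₀), ?_⟩
  intro O n hO
  rcases Nat.lt_or_ge n n₀ with hn | hn
  · refine (Pr_le_one p (fun x => (hp x).le) hs _).trans ?_
    have h1 : (1:ℝ) ≤ 1 / r ^ n₀ * r ^ n := by
      have h2 : r ^ n₀ ≤ r ^ n := pow_le_pow_of_le_one hr.le hr1.le hn.le
      rw [one_div, ← div_eq_inv_mul, one_le_div (hpow _)]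
      exact h2
    exact h1.trans (mul_le_mul_of_nonneg_right (le_max_right _ _) (hpow n).le)
  · refine le_trans ?_ ((hC O n hO).trans (mul_le_mul_of_nonneg_right (le_max_left _ _) (hpow n).le))
    apply Pr_mono p (fun x => (hp x).le)
    rintro w ⟨P, hP, D, hD1, hD2⟩
    have h1 := nonmult_congr N _ _ hD2
    have h2 := nonmult_le_dsize N D
    rw [h1]
    have h3 : (nonmult N D.fPoly : ℝ) ≤ 4 * dsize D + 1 := by exact_mod_cast h2
    have h4 : (n₀ : ℝ) ≤ n := by exact_mod_cast hn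
    have h5 : 2 < δ * n := by
      rw [div_lt_iff₀ hδ] at hn₀
      nlinarith
    linarith

open Classical in
/-- proportions among the words closing to a knot -/
theorem knotsE (hm : 2 ≤ m) (r : ℝ) (hr : 0 < r) : ∃ (l0 : ℕ) (c : ℝ), 0 ≤ c ∧ ∀ (n : ℕ) (C : ℝ)
    (E : (Fin n → Letter m) → Prop), l0 ≤ n → n % 2 = (m - 1) % 2 → 0 ≤ C → 
    Pr (fun _ => 1 / ((2 * (m - 1) : ℕ) : ℝ)) n E ≤ C * r ^ n → 
      ((univ.filter (fun w : Fin n → Letter m => IsKnot w ∧ E w)).card : ℝ) ≤ 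
        c * C * r ^ n * (univ.filter (fun w : Fin n → Letter m => IsKnot w)).card := by
  obtain ⟨l0, hl0⟩ := many_knots (m := m) hm
  set D : ℕ := 2 * (m - 1) with hD
  have hDpos : (0:ℝ) < D := by
    have : 0 < D := by omega
    exact_mod_cast this
  refine ⟨l0, (D:ℝ) ^ l0, by positivity, ?_⟩
  intro n C E hn hpar hC0 hC
  have h1 : ((univ.filter (fun w : Fin n → Letter m => IsKnot w ∧ E w)).card : ℝ) ≤ 
      (univ.filter (fun w : Fin n → Letter m => E w)).card := by
    norm_cast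
    refine Finset.card_le_card fun w hw => ?_
    rw [Finset.mem_filter] at hw ⊢
    exact ⟨hw.1, hw.2.2⟩
  have h2 : ((univ.filter (fun w : Fin n → Letter m => E w)).card : ℝ) * (1 / (D:ℝ)) ^ n = 
      Pr (fun _ => 1 / (D:ℝ)) n E := by
    unfold Pr
    rw [← nsmul_eq_mul, ← Finset.sum_const, Finset.sum_filter]
    refine Finset.sum_congr rfl fun w _ => ?_
    split_ifs
    · rw [Finset.prod_const, Finset.card_univ, Fintype.card_fin]
    · rfl
  have h3 : ((D:ℝ)) ^ n ≤ (D:ℝ) ^ l0 * ((univ.filter (fun w : Fin n → Letter m => IsKnot w)).card : ℝ) := by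
    exact_mod_cast hl0 n hn hpar
  have hDn : (0:ℝ) < (D:ℝ) ^ n := by positivity
  have h4 : ((univ.filter (fun w : Fin n → Letter m => E w)).card : ℝ) ≤ C * r ^ n * (D:ℝ) ^ n := by
    rw [← h2, div_pow, one_pow, mul_one_div, div_le_iff₀ hDn] at hC
    exact hC
  have h5 : 0 ≤ C * r ^ n := by positivity
  calc _ ≤ C * r ^ n * (D:ℝ) ^ n := h1.trans h4
    _ ≤ C * r ^ n * ((D:ℝ) ^ l0 * ((univ.filter (fun w : Fin n → Letter m => IsKnot w)).card : ℝ)) := 
      mul_le_mul_of_nonneg_left h3 h5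
    _ = _ := by ring

end Pool.Agent.Y463.MP
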