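import Mathlib

/-!
# Two by two matrices over an algebraically closed field

This is `Pool.Agent.W705.JR.T4` and a lemma of `Pool.Agent.W705.JR.Fin` (starting library) with `ℂ`
replaced by an algebraically closed field.
-/

set_option autoImplicit false

namespace Pool.Agent.Y463.MP

open Matrix

theorem alg_or_eigen {K : Type} [Field K] [IsAlgClosed K] (S : Submodule K (Matrix (Fin 2) (Fin 2) K))
    (hmul : ∀ X ∈ S, ∀ Y ∈ S, X * Y ∈ S) :
    S = ⊤ ∨ ∃ x : Fin 2 → K, x ≠ 0 ∧ ∀ X ∈ S, ∃ c : K, X *ᵥ x = c • x := by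
  by_cases hno : ∃ x : Fin 2 → K, x ≠ 0 ∧ ∀ X ∈ S, ∃ c : K, X *ᵥ x = c • x
  · exact Or.inr hno
  left
  -- `S v` is everything
  have hSv : ∀ v : Fin 2 → K, v ≠ 0 → ∀ u : Fin 2 → K, ∃ X ∈ S, X *ᵥ v = u := by
    intro v hv
    let ev : Matrix (Fin 2) (Fin 2) K →ₗ[K] (Fin 2 → K) :=
      { toFun := fun X => X *ᵥ v
        map_add' := fun X Y => Matrix.add_mulVec X Y v
        map_smul' := fun c X => Matrix.smul_mulVec c X v }
    set P : Submodule K (Fin 2 → K) := S.map ev with hP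
    have hinv : ∀ X ∈ S, ∀ u ∈ P, X *ᵥ u ∈ P := by
      rintro X hX u ⟨Z, hZ, rfl⟩
      refine ⟨X * Z, hmul X hX Z hZ, ?_⟩
      change (X * Z) *ᵥ v = X *ᵥ (Z *ᵥ v)
      rw [Matrix.mulVec_mulVec]
    have hPtop : P = ⊤ := by
      have hle : Module.finrank K P ≤ 2 := by
        have := Submodule.finrank_le P
        simpa using this
      by_contra hne
      have hlt : Module.finrank K P < 2 := by
        have := Submodule.finrank_lt hne
        simpa using this
      apply hno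
      rcases Nat.lt_succ_iff_lt_or_eq.1 hlt with h0 | h1
      · have h00 : Module.finrank K P = 0 := by omega
        have hbot : P = ⊥ := Submodule.finrank_eq_zero.1 h00
        refine ⟨v, hv, fun X hX => ⟨0, ?_⟩⟩
        have : X *ᵥ v ∈ P := ⟨X, hX, rfl⟩
        rw [hbot, Submodule.mem_bot] at this
        rw [this, zero_smul]
      · obtain ⟨⟨u, hu⟩, hu0, hspan⟩ := finrank_eq_one_iff'.1 h1
        refine ⟨u, fun h => hu0 (Subtype.ext h), fun X hX => ?_⟩
        obtain ⟨c, hc⟩ := hspan ⟨X *ᵥ u, hinv X hX u hu⟩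
        exact ⟨c, (congrArg Subtype.val hc).symm⟩
    intro u
    have : u ∈ P := by rw [hPtop]; exact Submodule.mem_top
    obtain ⟨X, hX, rfl⟩ := this
    exact ⟨X, hX, rfl⟩
  -- a singular matrix in `S` which does not kill the first basis vector
  have he1 : (![1, 0] : Fin 2 → K) ≠ 0 := by
    intro h; have := congrFun h 0; simp at this
  obtain ⟨R, hRS, hRdet, hRe⟩ : ∃ R ∈ S, R.det = 0 ∧ R *ᵥ ![1, 0] ≠ 0 := by
    obtain ⟨X, hX, hXe⟩ := hSv ![1, 0] he1 ![1, 0]
    obtain ⟨Y, hY, hYe⟩ := hSv ![1, 0] he1 ![0, 1]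
    by_cases hdet : Y.det = 0
    · refine ⟨Y, hY, hdet, ?_⟩
      rw [hYe]
      intro h; have := congrFun h 1; simp at this
    · obtain ⟨t, ht0⟩ := IsAlgClosed.exists_root (Polynomial.C Y.det * Polynomial.X ^ 2 + 
        Polynomial.C (X 0 0 * Y 1 1 + X 1 1 * Y 0 0 - X 0 1 * Y 1 0 - X 1 0 * Y 0 1) * Polynomial.X + 
        Polynomial.C X.det) (by rw [Polynomial.degree_quadratic hdet]; norm_num)
      have ht : Y.det * (t * t) + (X 0 0 * Y 1 1 + X 1 1 * Y 0 0 - X 0 1 * Y 1 0 - X 1 0 * Y 0 1) * t + 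
          X.det = 0 := by
        rw [Polynomial.IsRoot.def] at ht0
        simp only [Polynomial.eval_add, Polynomial.eval_mul, Polynomial.eval_C, Polynomial.eval_pow, 
          Polynomial.eval_X] at ht0
        rw [← sq]
        exact ht0
      refine ⟨X + t • Y, S.add_mem hX (S.smul_mem t hY), ?_, ?_⟩
      · rw [Matrix.det_fin_two] at ht ⊢
        rw [Matrix.det_fin_two] at ht
        simp only [Matrix.add_apply, Matrix.smul_apply, smul_eq_mul]
        linear_combination ht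
      · rw [Matrix.add_mulVec, Matrix.smul_mulVec, hXe, hYe]
        intro h; have := congrFun h 0; simp at this
  -- `R = w f`
  obtain ⟨w, f, hw, hf0, hRwf⟩ : ∃ w f : Fin 2 → K, w ≠ 0 ∧ f 0 = 1 ∧ R = vecMulVec w f := by
    have hRe' : R *ᵥ ![1, 0] = ![R 0 0, R 1 0] := by
      ext i; fin_cases i <;> simp [Matrix.mulVec, dotProduct, Fin.sum_univ_two]
    rw [hRe'] at hRe
    rw [Matrix.det_fin_two] at hRdet
    by_cases h00 : R 0 0 = 0
    · have h10 : R 1 0 ≠ 0 := by
        intro h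
        apply hRe
        ext i; fin_cases i <;> simp [h00, h]
      have h01 : R 0 1 = 0 := by
        rw [h00, zero_mul, zero_sub, neg_eq_zero] at hRdet
        exact (mul_eq_zero.1 hRdet).resolve_right h10
      refine ⟨![R 0 0, R 1 0], ![1, R 1 1 / R 1 0], hRe, rfl, ?_⟩
      ext i j
      rw [Matrix.vecMulVec_apply]
      fin_cases i <;> fin_cases j <;> simp [h00, h01]
      field_simp
    · refine ⟨![R 0 0, R 1 0], ![1, R 0 1 / R 0 0], hRe, rfl, ?_⟩
      ext i j
      rw [Matrix.vecMulVec_apply]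
      fin_cases i <;> fin_cases j <;> simp
      · field_simp
      · field_simp
        linear_combination hRdet
  -- `f S` is everything
  have hfS : ∀ g : Fin 2 → K, ∃ Z ∈ S, f ᵥ* Z = g := by
    let ev : Matrix (Fin 2) (Fin 2) K →ₗ[K] (Fin 2 → K) :=
      { toFun := fun X => f ᵥ* X
        map_add' := fun X Y => Matrix.vecMul_add X Y f
        map_smul' := fun c X => Matrix.vecMul_smul f c X }
    set P : Submodule K (Fin 2 → K) := S.map ev with hP
    have hPtop : P = ⊤ := by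
      by_contra hne
      obtain ⟨φ, hφ, hle⟩ := Submodule.exists_le_ker_of_lt_top P (lt_top_iff_ne_top.2 hne)
      set v0 : Fin 2 → K := fun i => φ (Pi.single i 1) with hv0
      have hφv : ∀ g : Fin 2 → K, φ g = g ⬝ᵥ v0 := by
        intro g
        rw [LinearMap.pi_apply_eq_sum_univ φ g, dotProduct]
        refine Finset.sum_congr rfl fun i _ => ?_
        rw [smul_eq_mul, hv0]
        congr 2
        ext j
        rw [Pi.single_apply]
        by_cases h : i = j
        · simp [h]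
        · simp [h, Ne.symm h]
      have hv0ne : v0 ≠ 0 := by
        intro h
        apply hφ
        ext g
        simp [hφv, h]
      obtain ⟨Z, hZ, hZe⟩ := hSv v0 hv0ne (Pi.single 0 1)
      have h1 : φ (f ᵥ* Z) = 0 := hle ⟨Z, hZ, rfl⟩
      rw [hφv, ← Matrix.dotProduct_mulVec, hZe, dotProduct_single_one, hf0] at h1
      exact one_ne_zero h1
    intro g
    have : g ∈ P := by rw [hPtop]; exact Submodule.mem_top
    obtain ⟨X, hX, rfl⟩ := this
    exact ⟨X, hX, rfl⟩
  have hrank : ∀ u g : Fin 2 → K, vecMulVec u g ∈ S := by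
    intro u g
    obtain ⟨Y, hY, rfl⟩ := hSv w hw u
    obtain ⟨Z, hZ, rfl⟩ := hfS g
    have := hmul _ (hmul Y hY R hRS) Z hZ
    rw [hRwf, Matrix.mul_vecMulVec, Matrix.vecMulVec_mul] at this
    exact this
  rw [eq_top_iff]
  intro M _
  rw [Matrix.matrix_eq_sum_single M]
  refine S.sum_mem fun i _ => S.sum_mem fun j _ => ?_
  have : Matrix.single i j (M i j) = M i j • vecMulVec (Pi.single i 1) (Pi.single j 1) := by
    ext a b
    rw [Matrix.smul_apply, Matrix.vecMulVec_apply, Matrix.single_apply, Pi.single_apply,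
      Pi.single_apply]
    by_cases h1 : i = a
    · by_cases h2 : j = b
      · simp [h1, h2]
      · simp [h1, h2, Ne.symm h2]
    · simp [h1, Ne.symm h1]
  rw [this]
  exact S.smul_mem _ (hrank _ _)

/-- equivariant choice of a vector -/
theorem equi {K : Type} [Field K] {X : Type*} (T : GL (Fin 2) K →* Equiv.Perm X) (S : Set X)
    (hS : ∀ g x, x ∈ S → T g x ∈ S)
    (h : ∀ x ∈ S, ∃ q : Fin 2 → K, q ≠ 0 ∧ ∀ g : GL (Fin 2) K, T g x = x → 
      ∃ c : K, (g : Matrix (Fin 2) (Fin 2) K) *ᵥ q = c • q) :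
    ∃ Q : X → (Fin 2 → K), ∀ x ∈ S, Q x ≠ 0 ∧ ∀ g : GL (Fin 2) K, ∃ c : K, c ≠ 0 ∧ 
      Q (T g x) = c • ((g : Matrix (Fin 2) (Fin 2) K) *ᵥ Q x) := by
  classical
  let r : Setoid X := 
    { r := fun x y => ∃ g, T g x = y
      iseqv := ⟨fun x => ⟨1, by simp⟩, fun {x y} ⟨g, hg⟩ => ⟨g⁻¹, by rw [← hg, ← Equiv.Perm.mul_apply, ← map_mul]; simp⟩,
        fun {x y z} ⟨g, hg⟩ ⟨g', hg'⟩ => ⟨g' * g, by rw [map_mul, Equiv.Perm.mul_apply, hg, hg']⟩⟩ }
  let rep : X → X := fun x => (Quotient.mk r x).out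
  have hrep : ∀ x, ∃ g, T g (rep x) = x := fun x => Quotient.mk_out (s := r) x
  choose γ hγ using hrep
  choose! q hq0 hq using h
  have hrepS : ∀ x ∈ S, rep x ∈ S := by
    intro x hx
    have : rep x = T (γ x)⁻¹ x := by
      have e1 : (T (γ x)⁻¹) (T (γ x) (rep x)) = rep x := by
        rw [← Equiv.Perm.mul_apply, ← map_mul]; simp
      rw [hγ x] at e1
      exact e1.symm
    rw [this]; exact hS _ _ hx
  have hne : ∀ (g : GL (Fin 2) K) (v : Fin 2 → K), v ≠ 0 → (g : Matrix (Fin 2) (Fin 2) K) *ᵥ v ≠ 0 := by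
    intro g v hv h0
    apply hv
    have h1 : ((g⁻¹ : GL (Fin 2) K) : Matrix (Fin 2) (Fin 2) K) *ᵥ ((g : Matrix (Fin 2) (Fin 2) K) *ᵥ v) = v := by
      rw [Matrix.mulVec_mulVec]
      have h2 : ((g⁻¹ : GL (Fin 2) K) : Matrix (Fin 2) (Fin 2) K) * (g : Matrix (Fin 2) (Fin 2) K) = 1 := by
        have h3 : ((g⁻¹ * g : GL (Fin 2) K) : Matrix (Fin 2) (Fin 2) K) = 1 := by rw [inv_mul_cancel]; rfl
        exact h3
      rw [h2, Matrix.one_mulVec]
    rw [← h1, h0, Matrix.mulVec_zero]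
  refine ⟨fun x => (γ x : Matrix (Fin 2) (Fin 2) K) *ᵥ q (rep x), fun x hx => 
    ⟨hne _ _ (hq0 _ (hrepS x hx)), fun g => ?_⟩⟩
  have hr : rep (T g x) = rep x := by
    have : (Quotient.mk r (T g x)) = Quotient.mk r x := Quotient.sound ⟨g⁻¹, by
      rw [← Equiv.Perm.mul_apply, ← map_mul]; simp⟩
    show (Quotient.mk r (T g x)).out = (Quotient.mk r x).out
    rw [this]
  set k : GL (Fin 2) K := (g * γ x)⁻¹ * γ (T g x) with hk
  have hfix : T k (rep x) = rep x := by
    rw [hk, map_mul, Equiv.Perm.mul_apply]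
    have e1 : T (γ (T g x)) (rep x) = T g x := by rw [← hr]; exact hγ _
    rw [e1, map_inv, Equiv.Perm.inv_eq_iff_eq, map_mul, Equiv.Perm.mul_apply, hγ]
  obtain ⟨c, hc⟩ := hq _ (hrepS x hx) k hfix
  have hc0 : c ≠ 0 := by
    rintro rfl
    rw [zero_smul] at hc
    exact hne _ _ (hq0 _ (hrepS x hx)) hc
  refine ⟨c, hc0, ?_⟩
  dsimp only
  rw [hr]
  have e2 : (γ (T g x) : Matrix (Fin 2) (Fin 2) K) = 
      (g : Matrix (Fin 2) (Fin 2) K) * (γ x : Matrix (Fin 2) (Fin 2) K) * (k : Matrix (Fin 2) (Fin 2) K) := by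
    have e3 : γ (T g x) = g * γ x * k := by rw [hk]; group
    conv_lhs => rw [e3]
    rfl
  rw [e2, ← Matrix.mulVec_mulVec, ← Matrix.mulVec_mulVec, hc, Matrix.mulVec_smul, Matrix.mulVec_smul]


end Pool.Agent.Y463.MP
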