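import Pool.Agent.W639.RB.Defs

/-!
# Random words, sizes, coefficients which are not divisible by `N`
-/

set_option autoImplicit false

namespace Pool.Agent.Y463.MP

open LaurentPolynomial Pool.Agent.H891R2.Jones Pool.Agent.W639.RB

/-- the number of the coefficients of the Laurent polynomial `f` which are not divisible by `N` -/
noncomputable def nonmult (N : ℕ) (f : ℤ[T;T⁻¹]) : ℕ := 
  (f.coeff.support.filter (fun j => ¬ (N : ℤ) ∣ f.coeff j)).card

open Classical in
/-- the probability that a word of `n` independent random letters with the distribution `p` has the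
property `E` -/
noncomputable def Pr {m : ℕ} (p : Letter m → ℝ) (n : ℕ) (E : (Fin n → Letter m) → Prop) : ℝ := 
  ∑ w : Fin n → Letter m, if E w then ∏ j, p (w j) else 0

/-- the number of crossings and marked points of the outside of a box -/
noncomputable def osize {m : ℕ} (O : Outer m) : ℕ := O.crossings.length + Nat.card O.P

/-- the number of crossings and marked points of a diagram -/
noncomputable def dsize {P : Type} (D : Diagram P) : ℕ := D.crossings.length + Nat.card P

/-- the words obtained from `w` by changing some of the crossings in `S`: the places of all letters and the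
letters outside `S` are kept, the signs in `S` are arbitrary -/
def Flips {m n : ℕ} (w : Fin n → Letter m) (S : Finset (Fin n)) : Finset (Fin n → Letter m) := 
  Finset.univ.filter (fun w' => (∀ j, (w' j).2 = (w j).2) ∧ ∀ j, j ∉ S → w' j = w j)

open Classical in
/-- the number of pairs of consecutive crossings of the word `w` which both belong to `S` and are at
neighbouring places `i`, `i + 1` or `i + 1`, `i` -/
noncomputable def switches {m n : ℕ} (w : Fin n → Letter m) (S : Finset (Fin n)) : ℕ := 
  (Finset.univ.filter (fun j : Fin n => ∃ h : (j : ℕ) + 1 < n, j ∈ S ∧ (⟨j + 1, h⟩ : Fin n) ∈ S ∧ 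
    (((w j).2 : ℕ) + 1 = (w ⟨j + 1, h⟩).2 ∨ ((w ⟨j + 1, h⟩).2 : ℕ) + 1 = (w j).2))).card

end Pool.Agent.Y463.MP
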