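import Pool.Agent.Y463.MP.Link
import Pool.Agent.Y463.MP.Defs
import Pool.Agent.W705.JR.Vas

/-!
# Few coefficients modulo a prime
-/

set_option autoImplicit false

namespace Pool.Agent.Y463.MP

open Finset LaurentPolynomial Pool.Agent.H891R2.Jones Pool.Agent.W639.RB
open Pool.Agent.W705.JR (Within within_bracket Within.mul_T Within.mono draw_size)

variable {m : ℕ}

/-! ### Laurent polynomials modulo `l` -/

theorem eq_sum_of_support (f : ℤ[T;T⁻¹]) (s : Finset ℤ) (hs : f.coeff.support ⊆ s) : 
    f = ∑ j ∈ s, C (f.coeff j) * T j := by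
  ext a
  simp_rw [← single_eq_C_mul_T]
  simp only [AddMonoidAlgebra.coeff_sum, AddMonoidAlgebra.coeff_single]
  rw [Finset.sum_apply', Finset.sum_eq_single a, Finsupp.single_eq_same]
  · intro b _ hb
    rw [Finsupp.single_eq_of_ne' hb]
  · intro ha
    rw [Finsupp.single_eq_same, Finsupp.notMem_support_iff.mp (fun h => ha (hs h))]

section

variable (l : ℕ) [Fact l.Prime]

/-- the value belonging to a vector of residues -/
noncomputable def zval (s : Finset ℤ) (h : s → ZMod l) : LL l := 
  ∑ j : s, jj l (Polynomial.C (h j)) * (jj l Polynomial.X) ^ (j : ℤ)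

theorem phi_eq_zval (f : ℤ[T;T⁻¹]) (s : Finset ℤ) (hs : f.coeff.support ⊆ s) : 
    phi l f = zval l s (fun j => ((f.coeff j : ℤ) : ZMod l)) := by
  conv_lhs => rw [eq_sum_of_support f s hs]
  rw [map_sum, zval, ← Finset.sum_coe_sort s]
  refine Finset.sum_congr rfl fun j _ => ?_
  rw [map_mul, phi_T]
  congr 1
  have h1 : (C (f.coeff (j : ℤ)) : ℤ[T;T⁻¹]) = ((f.coeff (j:ℤ) : ℤ) : ℤ[T;T⁻¹]) := by simp
  rw [h1, map_intCast]
  have h2 : (Polynomial.C ((f.coeff (j:ℤ) : ℤ) : ZMod l)) = (((f.coeff (j:ℤ) : ℤ)) : Polynomial (ZMod l)) := by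
    simp
  rw [h2, map_intCast]

theorem nonmult_eq (f : ℤ[T;T⁻¹]) (s : Finset ℤ) (hs : f.coeff.support ⊆ s) : 
    (univ.filter (fun j : s => ((f.coeff j : ℤ) : ZMod l) ≠ 0)).card = nonmult l f := by
  classical
  unfold nonmult
  refine Finset.card_bij (fun j _ => (j : ℤ)) ?_ ?_ ?_
  · intro j hj
    rw [Finset.mem_filter] at hj ⊢
    have h1 : ¬ (l : ℤ) ∣ f.coeff (j : ℤ) := by
      rw [← ZMod.intCast_zmod_eq_zero_iff_dvd]
      exact hj.2
    refine ⟨?_, h1⟩
    rw [Finsupp.mem_support_iff]
    intro h0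
    rw [h0] at h1
    exact h1 (dvd_zero _)
  · intro a _ b _ h
    exact Subtype.ext h
  · intro j hj
    rw [Finset.mem_filter] at hj
    refine ⟨⟨j, hs hj.1⟩, ?_, rfl⟩
    rw [Finset.mem_filter]
    refine ⟨Finset.mem_univ _, ?_⟩
    rw [Ne, ZMod.intCast_zmod_eq_zero_iff_dvd]
    exact hj.2

/-- the number of the vectors with few nonzero residues -/
theorem card_few (s : Finset ℤ) (k : ℕ) (x : ℝ) (hx0 : 0 < x) (hx1 : x ≤ 1) : 
    ((univ.filter (fun h : s → ZMod l => (univ.filter (fun j => h j ≠ 0)).card ≤ k)).card : ℝ) * x ^ k ≤ 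
      (1 + (l - 1) * x) ^ s.card := by
  classical
  have h1 : ∀ h : s → ZMod l, x ^ (univ.filter (fun j => h j ≠ 0)).card = 
      ∏ j, (if h j ≠ 0 then x else 1) := by
    intro h
    rw [Finset.prod_ite, Finset.prod_const, Finset.prod_const_one, mul_one]
  have h2 : ∑ a : ZMod l, (if a ≠ 0 then x else 1) = 1 + (l - 1) * x := by
    have h3 : ∀ a : ZMod l, (if a ≠ 0 then x else 1) = x + (if a = 0 then 1 - x else 0) := by
      intro a
      by_cases h : a = 0
      · rw [if_neg (not_not.2 h), if_pos h]; ring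
      · rw [if_pos h, if_neg h]; ring
    simp only [h3]
    rw [Finset.sum_add_distrib, Finset.sum_const, Finset.card_univ, ZMod.card, nsmul_eq_mul, 
      Finset.sum_ite_eq' univ (0 : ZMod l) (fun _ => 1 - x), if_pos (Finset.mem_univ _)]
    ring
  have h4 : ∑ h : s → ZMod l, x ^ (univ.filter (fun j => h j ≠ 0)).card = (1 + (l - 1) * x) ^ s.card := by
    simp only [h1]
    have h5 := Finset.prod_univ_sum (fun _ : s => (Finset.univ : Finset (ZMod l))) 
      (fun (_ : s) (a : ZMod l) => (if a ≠ 0 then x else 1))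
    rw [Fintype.piFinset_univ] at h5
    rw [← h5, Finset.prod_congr rfl (fun _ _ => h2), Finset.prod_const, Finset.card_univ, 
      Fintype.card_coe]
  rw [← h4, ← nsmul_eq_mul, ← Finset.sum_const]
  refine (Finset.sum_le_sum fun h hh => ?_).trans (Finset.sum_le_sum_of_subset_of_nonneg 
    (Finset.filter_subset _ _) fun h _ _ => by positivity)
  rw [Finset.mem_filter] at hh
  exact pow_le_pow_of_le_one hx0.le hx1 hh.2

end

/-! ### the size of the diagrams -/

theorem sum_sign_le {P : Type} (L : List (Crossing P)) : |(L.map Crossing.sign).sum| ≤ L.length := by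
  induction L with
  | nil => simp
  | cons x L ih =>
    rw [List.map_cons, List.sum_cons, List.length_cons]
    have h1 : |x.sign| ≤ 1 := by
      unfold Crossing.sign
      split_ifs <;> simp
    refine (abs_add_le _ _).trans ?_
    push_cast
    linarith

theorem writhe_le {P : Type} (D : Diagram P) : |D.writhe| ≤ D.crossings.length := sum_sign_le _

theorem within_fPoly {P : Type} [Finite P] (D : Diagram P) : 
    Within (4 * D.crossings.length + 2 * Nat.card P) D.fPoly := by
  have h1 := within_bracket D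
  have h2 : |(-3 * D.writhe)| ≤ ((3 * D.crossings.length : ℕ) : ℤ) := by
    rw [abs_mul]
    have := writhe_le D
    push_cast
    norm_num
    exact this
  have h3 := (h1.mul_T (-3 * D.writhe) (3 * D.crossings.length) h2).mono 
    (M := 4 * D.crossings.length + 2 * Nat.card P) (by omega)
  unfold Diagram.fPoly
  by_cases he : Even D.writhe
  · rw [if_pos he, one_mul, mul_comm (T (-3 * D.writhe))]
    exact h3
  · have : (-1 * T (-3 * D.writhe) * D.bracket : ℤ[T;T⁻¹]) = -(D.bracket * T (-3 * D.writhe)) := by ring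
    rw [if_neg he, this]
    exact h3.neg

/-- the window of the exponents -/
noncomputable def win (O : Outer m) (n : ℕ) : ℕ := 
  4 * (O.crossings.length + n) + 2 * (Nat.card O.P + m * n)

theorem within_diagram (O : Outer m) {n : ℕ} (w : Fin n → Letter m) : 
    Within (win O n) (draw O (toL w)).close.fPoly := by
  have h1 := within_fPoly (draw O (toL w)).close
  obtain ⟨h2, h3⟩ := draw_size (toL w) O (toL_mem w)
  have h4 : (toL w).length = n := by simp [toL]
  rw [h4] at h2 h3
  have h5 : (draw O (toL w)).close.crossings.length = (draw O (toL w)).crossings.length := rfl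
  rw [h5, h2, h3] at h1
  exact h1

theorem support_subset {M : ℕ} {f : ℤ[T;T⁻¹]} (hf : Within M f) : 
    f.coeff.support ⊆ Finset.Icc (-(M:ℤ)) M := by
  intro j hj
  rw [Finsupp.mem_support_iff] at hj
  have := hf j hj
  rw [abs_le] at this
  exact Finset.mem_Icc.2 this

open Classical in
/-- few coefficients -/
theorem few (l : ℕ) [Fact l.Prime] (p : Letter m → ℝ) (hp : ∀ x, 0 ≤ p x) (O : Outer m) (n : ℕ) (B : ℝ) 
    (hB : ∀ z : LL l, probl l p O n z ≤ B) (k : ℕ) (x : ℝ) (hx0 : 0 < x) (hx1 : x ≤ 1) : 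
    Pr p n (fun w => nonmult l (draw O (toL w)).close.fPoly ≤ k) * x ^ k ≤ 
      (1 + (l - 1) * x) ^ (2 * win O n + 1) * B := by
  set s : Finset ℤ := Finset.Icc (-(win O n : ℤ)) (win O n) with hs
  have hcard : s.card = 2 * win O n + 1 := by
    rw [hs, Int.card_Icc]
    omega
  set H := (univ.filter (fun h : s → ZMod l => (univ.filter (fun j => h j ≠ 0)).card ≤ k)) with hH
  have hB0 : 0 ≤ B := by
    refine le_trans ?_ (hB 0)
    unfold probl
    exact Finset.sum_nonneg fun w _ => by
      split_ifs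
      · exact Finset.prod_nonneg fun _ _ => hp _
      · exact le_rfl
  have h1 : ∀ w : Fin n → Letter m, 
      (@ite ℝ (nonmult l (draw O (toL w)).close.fPoly ≤ k) (propDecidable _) (∏ j, p (w j)) 0) ≤ 
        ∑ h ∈ H, (if phi l (draw O (toL w)).close.fPoly = zval l s h then ∏ j, p (w j) else 0) := by
    intro w
    have hpos : 0 ≤ ∏ j, p (w j) := Finset.prod_nonneg fun _ _ => hp _
    have hnn : ∀ h ∈ H, 0 ≤ (if phi l (draw O (toL w)).close.fPoly = zval l s h then ∏ j, p (w j) else 0) := by
      intro h _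
      split_ifs
      · exact hpos
      · exact le_rfl
    split_ifs with hk
    · have hsub := support_subset (within_diagram O w)
      have h2 := phi_eq_zval l _ s hsub
      have h3 := nonmult_eq l _ s hsub
      refine le_trans ?_ (Finset.single_le_sum hnn (Finset.mem_filter.2 ⟨Finset.mem_univ 
        (fun j : s => (((draw O (toL w)).close.fPoly.coeff j : ℤ) : ZMod l)), by rw [h3]; exact hk⟩))
      rw [if_pos h2]
    · exact Finset.sum_nonneg hnn
  have h2 : Pr p n (fun w => nonmult l (draw O (toL w)).close.fPoly ≤ k) ≤ H.card * B := by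
    unfold Pr
    refine (Finset.sum_le_sum fun w _ => h1 w).trans ?_
    rw [Finset.sum_comm, ← nsmul_eq_mul]
    exact Finset.sum_le_card_nsmul _ _ _ fun h _ => hB (zval l s h)
  have h3 := card_few l s k x hx0 hx1
  rw [hcard] at h3
  calc _ ≤ (H.card * B) * x ^ k := mul_le_mul_of_nonneg_right h2 (by positivity)
    _ = (H.card * x ^ k) * B := by ring
    _ ≤ _ := mul_le_mul_of_nonneg_right h3 hB0

end Pool.Agent.Y463.MP
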