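import Mathlib

/-!
# The field `L`, the algebraic closure of `𝔽_ℓ(X)`, and Laurent polynomials modulo `ℓ`
-/

set_option autoImplicit false

namespace Pool.Agent.Y463.MP

open LaurentPolynomial

variable (l : ℕ) [Fact l.Prime]

/-- the algebraic closure of `𝔽_ℓ(X)` -/
abbrev LL : Type := AlgebraicClosure (RatFunc (ZMod l))

/-- the inclusion of the polynomials -/
noncomputable def jj : Polynomial (ZMod l) →+* LL l := 
  (algebraMap (RatFunc (ZMod l)) (LL l)).comp (algebraMap (Polynomial (ZMod l)) (RatFunc (ZMod l)))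

theorem jj_inj : Function.Injective (jj l) := by
  unfold jj
  rw [RingHom.coe_comp]
  exact (algebraMap (RatFunc (ZMod l)) (LL l)).injective.comp (RatFunc.algebraMap_injective _)

theorem jj_X_ne : jj l Polynomial.X ≠ 0 := by
  rw [map_ne_zero_iff _ (jj_inj l)]
  exact Polynomial.X_ne_zero

/-- reduction modulo `ℓ` -/
noncomputable def phi : ℤ[T;T⁻¹] →+* LL l := 
  LaurentPolynomial.eval₂ (Int.castRingHom (LL l)) (Units.mk0 (jj l Polynomial.X) (jj_X_ne l))

theorem phi_T (k : ℤ) : phi l (T k) = (jj l Polynomial.X) ^ k := by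
  unfold phi
  rw [LaurentPolynomial.eval₂_T]
  simp

theorem phi_toLaurent (P : Polynomial ℤ) : 
    phi l (Polynomial.toLaurent P) = jj l (P.map (Int.castRingHom (ZMod l))) := by
  have h1 : (phi l).comp (Polynomial.toLaurent (R := ℤ)) = 
      (jj l).comp (Polynomial.mapRingHom (Int.castRingHom (ZMod l))) := by
    apply Polynomial.ringHom_ext
    · intro n
      simp
    · rw [RingHom.comp_apply, RingHom.comp_apply, Polynomial.toLaurent_X, phi_T, zpow_one]
      simp
  have h2 := congrArg (fun f : Polynomial ℤ →+* LL l => f P) h1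
  exact h2

theorem phi_zero_iff (f : ℤ[T;T⁻¹]) : phi l f = 0 ↔ (l : ℤ[T;T⁻¹]) ∣ f := by
  constructor
  · intro h
    obtain ⟨n, P, hP⟩ := LaurentPolynomial.exists_T_pow f
    have h1 : phi l (Polynomial.toLaurent P) = 0 := by rw [hP, map_mul, h, zero_mul]
    rw [phi_toLaurent, map_eq_zero_iff _ (jj_inj l)] at h1
    have h2 : ∀ k, (l : ℤ) ∣ P.coeff k := by
      intro k
      have h3 := congrArg (fun Q : Polynomial (ZMod l) => Q.coeff k) h1
      simp only [Polynomial.coeff_map, Polynomial.coeff_zero] at h3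
      exact (ZMod.intCast_zmod_eq_zero_iff_dvd _ _).1 h3
    have h3 : (Polynomial.C (l : ℤ)) ∣ P := Polynomial.C_dvd_iff_dvd_coeff _ _ |>.2 h2
    obtain ⟨Q, hQ⟩ := h3
    refine ⟨Polynomial.toLaurent Q * T (-n), ?_⟩
    have h4 : f = Polynomial.toLaurent P * T (-n) := by
      rw [hP, mul_assoc, ← T_add]
      simp
    rw [h4, hQ, map_mul, ← mul_assoc]
    congr 2
    simp
  · rintro ⟨g, rfl⟩
    rw [map_mul]
    have : phi l (l : ℤ[T;T⁻¹]) = 0 := by
      rw [map_natCast]
      have h5 : ((l : ZMod l)) = 0 := ZMod.natCast_self l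
      have h6 : ((l : Polynomial (ZMod l))) = 0 := by
        rw [← Polynomial.C_eq_natCast, h5, map_zero]
      have h7 := congrArg (jj l) h6
      rwa [map_natCast, map_zero] at h7
    rw [this, zero_mul]

theorem exists_valuation : ∃ V : ValuationSubring (LL l), V.valuation (jj l Polynomial.X) < 1 := by
  set A : Subring (LL l) := (jj l).range
  have hXA : jj l Polynomial.X ∈ A := ⟨_, rfl⟩
  have hI : Ideal.span ({(⟨jj l Polynomial.X, hXA⟩ : A)} : Set A) ≠ ⊤ := by
    intro h
    rw [Ideal.eq_top_iff_one, Ideal.mem_span_singleton'] at h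
    obtain ⟨⟨a, P, rfl⟩, ha⟩ := h
    have h1 : jj l P * jj l Polynomial.X = 1 := congrArg Subtype.val ha
    rw [← map_mul, ← map_one (jj l)] at h1
    have h2 := jj_inj l h1
    have h3 := congrArg (Polynomial.eval 0) h2
    simp at h3
  obtain ⟨B, _, hB⟩ := Ideal.image_subset_nonunits_valuationSubring _ hI
  refine ⟨B, ?_⟩
  have h1 : jj l Polynomial.X ∈ B.nonunits := 
    hB ⟨⟨jj l Polynomial.X, hXA⟩, Ideal.subset_span rfl, rfl⟩
  exact h1

end Pool.Agent.Y463.MP
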