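import Mathlib

/-!
# Ping-pong for two explicit matrices over a field with a valuation
-/

set_option autoImplicit false

namespace Pool.Agent.Y463.MP

open Matrix

section

variable {K : Type} [Field K] {Γ : Type} [LinearOrderedCommGroupWithZero Γ] (v : Valuation K Γ)

/-- the matrix of the first 3-cycle -/
def Mu (t : K) : Matrix (Fin 2) (Fin 2) K := !![-t ^ 2, t; -t, 1 - (t⁻¹) ^ 2]

/-- the matrix of the second 3-cycle -/
def Mv (t : K) : Matrix (Fin 2) (Fin 2) K := !![1 - t ^ 2, -t⁻¹; t⁻¹, -(t⁻¹) ^ 2]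

theorem Mu_det {t : K} (ht : t ≠ 0) : (Mu t).det = 1 := by
  rw [Matrix.det_fin_two]
  unfold Mu
  simp only [Matrix.of_apply, Matrix.cons_val', Matrix.cons_val_zero, Matrix.cons_val_one, 
    Matrix.cons_val_fin_one]
  field_simp
  ring

theorem Mv_det {t : K} (ht : t ≠ 0) : (Mv t).det = 1 := by
  rw [Matrix.det_fin_two]
  unfold Mv
  simp only [Matrix.of_apply, Matrix.cons_val', Matrix.cons_val_zero, Matrix.cons_val_one, 
    Matrix.cons_val_fin_one]
  field_simp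
  ring

theorem Mu_0 (t : K) (x : Fin 2 → K) : (Mu t *ᵥ x) 0 = t * (x 1 - t * x 0) := by
  unfold Mu
  simp only [Matrix.mulVec, dotProduct, Fin.sum_univ_two, Matrix.of_apply, Matrix.cons_val', 
    Matrix.cons_val_zero, Matrix.cons_val_one, Matrix.cons_val_fin_one]
  ring

theorem Mu_1 {t : K} (ht : t ≠ 0) (x : Fin 2 → K) : 
    (Mu t *ᵥ x) 1 = -(t⁻¹) ^ 2 * (x 1 - (t ^ 2 * x 1 - t ^ 3 * x 0)) := by
  unfold Mu
  simp only [Matrix.mulVec, dotProduct, Fin.sum_univ_two, Matrix.of_apply, Matrix.cons_val', 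
    Matrix.cons_val_zero, Matrix.cons_val_one, Matrix.cons_val_fin_one]
  field_simp
  ring

theorem Mv_01 {t : K} (ht : t ≠ 0) (x : Fin 2 → K) : 
    (Mv t *ᵥ x) 0 - t * (Mv t *ᵥ x) 1 = - t ^ 2 * x 0 := by
  unfold Mv
  simp only [Matrix.mulVec, dotProduct, Fin.sum_univ_two, Matrix.of_apply, Matrix.cons_val', 
    Matrix.cons_val_zero, Matrix.cons_val_one, Matrix.cons_val_fin_one]
  field_simp
  ring

theorem Mv_1 {t : K} (ht : t ≠ 0) (x : Fin 2 → K) : 
    (Mv t *ᵥ x) 1 = -(t⁻¹) ^ 2 * (x 1 - t * x 0) := by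
  unfold Mv
  simp only [Matrix.mulVec, dotProduct, Fin.sum_univ_two, Matrix.of_apply, Matrix.cons_val', 
    Matrix.cons_val_zero, Matrix.cons_val_one, Matrix.cons_val_fin_one]
  field_simp
  ring

variable {t : K}

theorem v_sub_lt {x y : K} (h : v y < v x) : v (x - y) = v x := by
  rw [sub_eq_add_neg]
  exact Valuation.map_add_eq_of_lt_left v (by rwa [Valuation.map_neg])

/-- the first orbit -/
theorem iter_u (ht : t ≠ 0) (h1 : v t < 1) {x : Fin 2 → K} (hx : v t * v (x 0) ≤ v (x 1)) :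
    v ((Mu t *ᵥ x) 0) ≤ v t ^ 3 * v ((Mu t *ᵥ x) 1) := by
  have ht0 : v t ≠ 0 := (Valuation.ne_zero_iff v).2 ht
  have htp : 0 < v t := zero_lt_iff.2 ht0
  by_cases h0 : x 1 = 0
  · rw [h0, map_zero] at hx
    have h2 : x 0 = 0 := by
      have h3 := le_antisymm hx zero_le
      rw [mul_eq_zero] at h3
      exact (Valuation.zero_iff v).1 (h3.resolve_left ht0)
    rw [Mu_0, h0, h2]
    simp
  · have hx1 : 0 < v (x 1) := zero_lt_iff.2 ((Valuation.ne_zero_iff v).2 h0)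
    have e1 : v (x 1 - t * x 0) ≤ v (x 1) := by
      refine (Valuation.map_sub v _ _).trans ?_
      rw [map_mul]
      exact max_le le_rfl hx
    have e2 : v (t ^ 2 * x 1 - t ^ 3 * x 0) < v (x 1) := by
      refine (Valuation.map_sub v _ _).trans_lt ?_
      rw [map_mul, map_mul, map_pow, map_pow]
      refine max_lt ?_ ?_
      · calc v t ^ 2 * v (x 1) < 1 * v (x 1) := 
              mul_lt_mul_of_pos_right (pow_lt_one₀ zero_le h1 two_ne_zero) hx1
          _ = v (x 1) := one_mul _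
      · calc v t ^ 3 * v (x 0) = v t ^ 2 * (v t * v (x 0)) := by rw [← mul_assoc, ← pow_succ]
          _ ≤ v t ^ 2 * v (x 1) := mul_le_mul_right hx _
          _ < 1 * v (x 1) := 
              mul_lt_mul_of_pos_right (pow_lt_one₀ zero_le h1 two_ne_zero) hx1
          _ = v (x 1) := one_mul _
    have e3 : v ((Mu t *ᵥ x) 1) = (v t)⁻¹ ^ 2 * v (x 1) := by
      rw [Mu_1 ht, map_mul, Valuation.map_neg, map_pow, map_inv₀, v_sub_lt v e2]
    rw [e3, Mu_0, map_mul]
    have e4 : v t ^ 3 * ((v t)⁻¹ ^ 2 * v (x 1)) = v t * v (x 1) := by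
      rw [← mul_assoc]
      congr 1
      rw [pow_succ, mul_comm (v t ^ 2), mul_assoc, ← mul_pow, mul_inv_cancel₀ ht0, one_pow, mul_one]
    rw [e4]
    exact mul_le_mul_right e1 _

/-- the second orbit -/
theorem iter_v (ht : t ≠ 0) {x : Fin 2 → K} (hx : v t * v (x 0) ≤ v (x 1 - t * x 0)) :
    v ((Mv t *ᵥ x) 0 - t * (Mv t *ᵥ x) 1) ≤ v t ^ 3 * v ((Mv t *ᵥ x) 1) := by
  have ht0 : v t ≠ 0 := (Valuation.ne_zero_iff v).2 ht
  rw [Mv_01 ht, Mv_1 ht, map_mul, map_mul, Valuation.map_neg, Valuation.map_neg, map_pow, map_pow, 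
    map_inv₀]
  have e4 : v t ^ 3 * ((v t)⁻¹ ^ 2 * v (x 1 - t * x 0)) = v t * v (x 1 - t * x 0) := by
    rw [← mul_assoc]
    congr 1
    rw [pow_succ, mul_comm (v t ^ 2), mul_assoc, ← mul_pow, mul_inv_cancel₀ ht0, one_pow, mul_one]
  rw [e4]
  calc v t ^ 2 * v (x 0) = v t * (v t * v (x 0)) := by rw [← mul_assoc, sq]
    _ ≤ _ := mul_le_mul_right hx _

/-- the set `B` -/
def SB (v : Valuation K Γ) (t : K) : Set (Fin 2 → K) := 
  {x | x ≠ 0 ∧ v t * v (x 1) ≤ v (x 0) ∧ v t * v (x 0) ≤ v (x 1)}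

/-- the set `A` -/
def SA (v : Valuation K Γ) (t : K) : Set (Fin 2 → K) := 
  {x | x ≠ 0 ∧ v t * v (x 1) ≤ v (x 0 - t * x 1) ∧ v t * v (x 0) ≤ v (x 1 - t * x 0)}

theorem cover (h1 : v t < 1) (x : Fin 2 → K) (hx : x ≠ 0) : x ∈ SA v t ∨ x ∈ SB v t := by
  by_cases hB : x ∈ SB v t
  · exact Or.inr hB
  left
  have h2 : v (x 0) < v t * v (x 1) ∨ v (x 1) < v t * v (x 0) := by
    by_contra hcon
    push Not at hcon
    exact hB ⟨hx, hcon.1, hcon.2⟩
  rcases h2 with h2 | h2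
  · have h3 : v (x 0) < v (t * x 1) := by rwa [map_mul]
    have h4 : v (x 0 - t * x 1) = v t * v (x 1) := by
      rw [Valuation.map_sub_swap, v_sub_lt v h3, map_mul]
    have h5 : v (x 0) ≤ v (x 1) := h2.le.trans (by
      calc v t * v (x 1) ≤ 1 * v (x 1) := mul_le_mul_left h1.le _
        _ = _ := one_mul _)
    have h7 : 0 < v (x 1) := by
      rw [zero_lt_iff]
      intro h0
      rw [h0, mul_zero] at h2
      exact not_lt_zero h2
    have h6 : v (t * x 0) < v (x 1) := by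
      rw [map_mul]
      calc v t * v (x 0) ≤ v t * v (x 1) := mul_le_mul_right h5 _
        _ < 1 * v (x 1) := mul_lt_mul_of_pos_right h1 h7
        _ = _ := one_mul _
    refine ⟨hx, h4.ge, ?_⟩
    rw [v_sub_lt v h6, ← map_mul]
    exact h6.le
  · have h3 : v (x 1) < v (t * x 0) := by rwa [map_mul]
    have h4 : v (x 1 - t * x 0) = v t * v (x 0) := by
      rw [Valuation.map_sub_swap, v_sub_lt v h3, map_mul]
    have h5 : v (x 1) ≤ v (x 0) := h2.le.trans (by
      calc v t * v (x 0) ≤ 1 * v (x 0) := mul_le_mul_left h1.le _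
        _ = _ := one_mul _)
    have h7 : 0 < v (x 0) := by
      rw [zero_lt_iff]
      intro h0
      rw [h0, mul_zero] at h2
      exact not_lt_zero h2
    have h6 : v (t * x 1) < v (x 0) := by
      rw [map_mul]
      calc v t * v (x 1) ≤ v t * v (x 0) := mul_le_mul_right h5 _
        _ < 1 * v (x 0) := mul_lt_mul_of_pos_right h1 h7
        _ = _ := one_mul _
    refine ⟨hx, ?_, h4.ge⟩
    rw [v_sub_lt v h6, ← map_mul]
    exact h6.le

theorem SB_smul (x : Fin 2 → K) (hx : x ∈ SB v t) (c : K) (hc : c ≠ 0) : c • x ∈ SB v t := by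
  have hc' : v c ≠ 0 := (Valuation.ne_zero_iff v).2 hc
  refine ⟨smul_ne_zero hc hx.1, ?_, ?_⟩
  · simp only [Pi.smul_apply, smul_eq_mul, map_mul]
    rw [mul_left_comm]
    exact mul_le_mul_right hx.2.1 _
  · simp only [Pi.smul_apply, smul_eq_mul, map_mul]
    rw [mul_left_comm]
    exact mul_le_mul_right hx.2.2 _

theorem SA_smul (x : Fin 2 → K) (hx : x ∈ SA v t) (c : K) (hc : c ≠ 0) : c • x ∈ SA v t := by
  have hc' : v c ≠ 0 := (Valuation.ne_zero_iff v).2 hc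
  have e1 : c * x 0 - t * (c * x 1) = c * (x 0 - t * x 1) := by ring
  have e2 : c * x 1 - t * (c * x 0) = c * (x 1 - t * x 0) := by ring
  refine ⟨smul_ne_zero hc hx.1, ?_, ?_⟩
  · simp only [Pi.smul_apply, smul_eq_mul, e1, map_mul]
    rw [mul_left_comm]
    exact mul_le_mul_right hx.2.1 _
  · simp only [Pi.smul_apply, smul_eq_mul, e2, map_mul]
    rw [mul_left_comm]
    exact mul_le_mul_right hx.2.2 _

theorem pow_u (ht : t ≠ 0) (h1 : v t < 1) (x : Fin 2 → K) (hx : x ∈ SB v t) (n : ℕ) : 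
    v ((Mu t ^ (n+1) *ᵥ x) 0) ≤ v t ^ 3 * v ((Mu t ^ (n+1) *ᵥ x) 1) := by
  induction n with
  | zero => rw [zero_add, pow_one]; exact iter_u v ht h1 hx.2.2
  | succ n ih =>
    rw [pow_succ', ← Matrix.mulVec_mulVec]
    apply iter_u v ht h1
    set y := Mu t ^ (n+1) *ᵥ x
    have h2 : v t ≤ 1 := h1.le
    calc v t * v (y 0) ≤ v t * (v t ^ 3 * v (y 1)) := mul_le_mul_right ih _
      _ = v t ^ 4 * v (y 1) := by rw [← mul_assoc, ← pow_succ']
      _ ≤ 1 * v (y 1) := mul_le_mul_left (pow_le_one₀ zero_le h2) _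
      _ = _ := one_mul _

theorem pow_v (ht : t ≠ 0) (h1 : v t < 1) (x : Fin 2 → K) (hx : x ∈ SA v t) (n : ℕ) : 
    v ((Mv t ^ (n+1) *ᵥ x) 0 - t * (Mv t ^ (n+1) *ᵥ x) 1) ≤ v t ^ 3 * v ((Mv t ^ (n+1) *ᵥ x) 1) := by
  induction n with
  | zero => rw [zero_add, pow_one]; exact iter_v v ht hx.2.2
  | succ n ih =>
    rw [pow_succ', ← Matrix.mulVec_mulVec]
    apply iter_v v ht
    set y := Mv t ^ (n+1) *ᵥ x
    have ht0 : v t ≠ 0 := (Valuation.ne_zero_iff v).2 ht
    by_cases h0 : y 1 = 0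
    · rw [h0, map_zero, mul_zero, mul_zero, sub_zero] at ih
      have h3 := le_antisymm ih zero_le
      have h4 := (Valuation.zero_iff v).1 h3
      rw [h4]
      simp
    · have hx1 : 0 < v (y 1) := zero_lt_iff.2 ((Valuation.ne_zero_iff v).2 h0)
      have h2 : v (y 0) ≤ v t * v (y 1) := by
        have e1 : y 0 = (y 0 - t * y 1) + t * y 1 := by ring
        rw [e1]
        refine (Valuation.map_add v _ _).trans (max_le ?_ (by rw [map_mul]))
        refine ih.trans ?_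
        calc v t ^ 3 * v (y 1) = v t * (v t ^ 2 * v (y 1)) := by rw [← mul_assoc, ← pow_succ']
          _ ≤ v t * (1 * v (y 1)) := 
            mul_le_mul_right (mul_le_mul_left (pow_le_one₀ zero_le h1.le) _) _
          _ = _ := by rw [one_mul]
      have h5 : v (t * y 0) < v (y 1) := by
        rw [map_mul]
        calc v t * v (y 0) ≤ v t * (v t * v (y 1)) := mul_le_mul_right h2 _
          _ = v t ^ 2 * v (y 1) := by rw [← mul_assoc, sq]
          _ < 1 * v (y 1) := 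
            mul_lt_mul_of_pos_right (pow_lt_one₀ zero_le h1 two_ne_zero) hx1
          _ = _ := one_mul _
      rw [v_sub_lt v h5, ← map_mul]
      exact h5.le

theorem pow_ne_zero' {M : Matrix (Fin 2) (Fin 2) K} (hM : M.det = 1) (n : ℕ) (x : Fin 2 → K) 
    (hx : x ≠ 0) : M ^ n *ᵥ x ≠ 0 := by
  intro h0
  apply hx
  have h1 : IsUnit (M ^ n).det := by rw [Matrix.det_pow, hM, one_pow]; exact isUnit_one
  have h2 : (M ^ n)⁻¹ *ᵥ (M ^ n *ᵥ x) = x := by
    rw [Matrix.mulVec_mulVec, Matrix.nonsing_inv_mul _ h1, Matrix.one_mulVec]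
  rw [← h2, h0, Matrix.mulVec_zero]

theorem lt_help (ht : t ≠ 0) (h1 : v t < 1) {y : Fin 2 → K} (hy : y 1 ≠ 0) : 
    v t ^ 3 * v (y 1) < v t * v (y 1) := by
  have ht0 : v t ≠ 0 := (Valuation.ne_zero_iff v).2 ht
  have hx1 : 0 < v (y 1) := zero_lt_iff.2 ((Valuation.ne_zero_iff v).2 hy)
  have h2 : 0 < v t * v (y 1) := mul_pos (zero_lt_iff.2 ht0) hx1
  calc v t ^ 3 * v (y 1) = v t ^ 2 * (v t * v (y 1)) := by rw [← mul_assoc, ← pow_succ]
    _ < 1 * (v t * v (y 1)) := mul_lt_mul_of_pos_right (pow_lt_one₀ zero_le h1 two_ne_zero) h2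
    _ = _ := one_mul _

theorem ping_u (ht : t ≠ 0) (h1 : v t < 1) (n : ℕ) (hn : 1 ≤ n) (x : Fin 2 → K) (hx : x ∈ SB v t) :
    Mu t ^ n *ᵥ x ∉ SB v t := by
  obtain ⟨k, rfl⟩ : ∃ k, n = k + 1 := ⟨n - 1, by omega⟩
  intro h
  have h2 := pow_u v ht h1 x hx k
  set y := Mu t ^ (k+1) *ᵥ x with hy
  by_cases h0 : y 1 = 0
  · rw [h0, map_zero, mul_zero] at h2
    have h3 := (Valuation.zero_iff v).1 (le_antisymm h2 zero_le)
    apply h.1
    funext i; fin_cases i
    · exact h3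
    · exact h0
  · exact absurd (h.2.1.trans h2) (not_le.2 (lt_help v ht h1 h0))

theorem ping_v (ht : t ≠ 0) (h1 : v t < 1) (n : ℕ) (hn : 1 ≤ n) (x : Fin 2 → K) (hx : x ∈ SA v t) :
    Mv t ^ n *ᵥ x ∉ SA v t := by
  obtain ⟨k, rfl⟩ : ∃ k, n = k + 1 := ⟨n - 1, by omega⟩
  intro h
  have h2 := pow_v v ht h1 x hx k
  set y := Mv t ^ (k+1) *ᵥ x with hy
  by_cases h0 : y 1 = 0
  · rw [h0, map_zero, mul_zero, mul_zero, sub_zero] at h2
    have h3 := (Valuation.zero_iff v).1 (le_antisymm h2 zero_le)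
    apply h.1
    funext i; fin_cases i
    · exact h3
    · exact h0
  · exact absurd (h.2.1.trans h2) (not_le.2 (lt_help v ht h1 h0))

end

end Pool.Agent.Y463.MP
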