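import Pool.Agent.H891R2.Jones.Final
import Pool.Agent.W639.RB.Defs
import Pool.Agent.W705.JR.Rep
import Pool.Agent.Y463.MP.Ind
import Pool.Agent.Y463.MP.Ping
import Pool.Agent.Y463.MP.Alg2

/-!
# Temperley–Lieb data over any field

This follows `Pool.Agent.W705.JR.Rep` and `Pool.Agent.W705.JR.Iota` (starting library), with `ℂ` replaced by
a field `K` and the space of colourings by an algebra `R` with a Temperley–Lieb family.
-/

set_option autoImplicit false

namespace Pool.Agent.Y463.MP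

open Finset Matrix Pool.Agent.H891R2.Jones Pool.Agent.W639.RB 
open Pool.Agent.W705.JR (inv' sgn sgn_not sw cst2 cst2_sw sw_sw idx_lt conj_id L2)

/-- a Temperley–Lieb family in a `K`-algebra `R` with the parameter `a` -/
structure TLD (m : ℕ) (K R : Type) [Field K] [Ring R] [Algebra K R] where
  a : K
  e : ℕ → R
  a_ne : a ≠ 0
  rel : IsTL m (-a ^ 2 - a⁻¹ ^ 2) e

abbrev V2 (m : ℕ) (K : Type) := (Fin m → Bool) → K

variable {m : ℕ} {K R : Type} [Field K] [Ring R] [Algebra K R]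

namespace TLD

variable (D : TLD m K R)

/-- `A` or `A⁻¹` -/
noncomputable def Bb (b : Bool) : K := if b then D.a else D.a⁻¹

theorem Bb_ne (b : Bool) : D.Bb b ≠ 0 := by
  unfold Bb; split_ifs
  · exact D.a_ne
  · exact inv_ne_zero D.a_ne

theorem Bb_not (b : Bool) : D.Bb (!b) = (D.Bb b)⁻¹ := by
  cases b <;> simp [Bb]

theorem Bb_d (b : Bool) : -D.a ^ 2 - D.a⁻¹ ^ 2 = -(D.Bb b) ^ 2 - (D.Bb b)⁻¹ ^ 2 := by
  cases b
  · simp only [Bb, Bool.false_eq_true, if_false, inv_inv]; ring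
  · simp only [Bb, if_true]

/-- the letters on `R` -/
noncomputable def s1 (x : Letter m) : R ≃ₗ[K] R :=
  LinearEquiv.ofLinearMap (LinearMap.mulLeft K (sg (D.Bb x.1) D.e x.2)) 
    (LinearMap.mulLeft K (sg (D.Bb x.1)⁻¹ D.e x.2))
    (by
      rw [← LinearMap.mulLeft_mul, sg_inv (D.Bb_ne x.1) (D.Bb_d x.1) D.rel x.2 (idx_lt x)]
      exact LinearMap.mulLeft_one K R)
    (by
      rw [← LinearMap.mulLeft_mul, sg_inv' (D.Bb_ne x.1) (D.Bb_d x.1) D.rel x.2 (idx_lt x)]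
      exact LinearMap.mulLeft_one K R)

theorem s1_apply (x : Letter m) (v : R) : D.s1 x v = sg (D.Bb x.1) D.e x.2 * v := rfl

/-- the constant `-A^3` -/
noncomputable def qq : K := -(D.a ^ 3)

theorem qq_ne : D.qq ≠ 0 := neg_ne_zero.2 (pow_ne_zero 3 D.a_ne)

/-- the letters on `V2`, as a function -/
noncomputable def m2f (x : Letter m) (z : ℤ) (h : V2 m K) : V2 m K := 
  fun U => D.qq ^ (z * cst2 x U) * h (U ∘ sw x)

theorem m2f_inv (x : Letter m) (z : ℤ) (h : V2 m K) : D.m2f x z (D.m2f x (-z) h) = h := by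
  funext U
  unfold m2f
  rw [cst2_sw, sw_sw, ← mul_assoc, ← zpow_add₀ D.qq_ne]
  simp

/-- the letters on `V2` -/
noncomputable def m2 (x : Letter m) : V2 m K ≃ₗ[K] V2 m K where
  toFun := D.m2f x (sgn x.1)
  invFun := D.m2f x (- sgn x.1)
  map_add' h h' := by funext U; simp only [m2f, Pi.add_apply]; ring
  map_smul' c h := by funext U; simp only [m2f, Pi.smul_apply, smul_eq_mul, RingHom.id_apply]; ring
  left_inv h := by
    have := D.m2f_inv x (- sgn x.1) h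
    rwa [neg_neg] at this
  right_inv h := D.m2f_inv x (sgn x.1) h

theorem m2_apply (x : Letter m) (h : V2 m K) (U : Fin m → Bool) : 
    D.m2 x h U = D.qq ^ (sgn x.1 * cst2 x U) * h (U ∘ sw x) := rfl

/-- the letters on `R × V2` -/
noncomputable def gg (x : Letter m) : (R × V2 m K) ≃ₗ[K] (R × V2 m K) := 
  LinearEquiv.prodCongr (D.s1 x) (D.m2 x)

theorem gg_apply (x : Letter m) (v : R × V2 m K) : D.gg x v = (D.s1 x v.1, D.m2 x v.2) := rfl

theorem gg_inv' (x : Letter m) : D.gg (inv' x) = (D.gg x).symm := by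
  apply LinearEquiv.ext
  intro v
  apply (D.gg x).injective
  rw [LinearEquiv.apply_symm_apply, gg_apply, gg_apply]
  refine Prod.ext ?_ ?_
  · show sg (D.Bb x.1) D.e x.2 * (sg (D.Bb (!x.1)) D.e x.2 * v.1) = v.1
    rw [Bb_not, ← mul_assoc, sg_inv (D.Bb_ne x.1) (D.Bb_d x.1) D.rel x.2 (idx_lt x), one_mul]
  · show D.m2f x (sgn x.1) (D.m2f x (sgn (!x.1)) v.2) = v.2
    rw [sgn_not]; exact D.m2f_inv x _ _

/-- `E_i = (e_i, 0)` -/
noncomputable def EE2 (i : ℕ) (v : R × V2 m K) : R × V2 m K := (D.e i * v.1, 0)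

/-- stability under the `E_i`, `i ∈ J` -/
def Stab (J : Set ℕ) (W : Submodule K (R × V2 m K)) : Prop := 
  ∀ j ∈ J, j + 1 < m → ∀ v ∈ W, D.EE2 j v ∈ W

theorem gg_EE2 (x : Letter m) (j : ℕ) (v : R × V2 m K) : 
    D.gg x (D.EE2 j v) = D.EE2 j (D.gg x v) + (D.Bb x.1) ^ 2 • D.EE2 j (D.EE2 x.2 (D.gg x v)) + 
      ((D.Bb x.1)⁻¹) ^ 2 • D.EE2 x.2 (D.EE2 j (D.gg x v)) + 
      D.EE2 x.2 (D.EE2 j (D.EE2 x.2 (D.gg x v))) := by
  have h := conj_id (D.Bb_ne x.1) (D.Bb_d x.1) D.rel x.2 j (idx_lt x)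
  have h2 : sg (D.Bb x.1) D.e x.2 * D.e j * v.1 = (D.e j + D.Bb x.1 ^ 2 • (D.e j * D.e x.2) + 
      (D.Bb x.1)⁻¹ ^ 2 • (D.e x.2 * D.e j) + D.e x.2 * D.e j * D.e x.2) * sg (D.Bb x.1) D.e x.2 * v.1 := by
    rw [h]
  refine Prod.ext ?_ ?_
  · show sg (D.Bb x.1) D.e x.2 * (D.e j * v.1) = D.e j * (sg (D.Bb x.1) D.e x.2 * v.1) + 
      (D.Bb x.1) ^ 2 • (D.e j * (D.e x.2 * (sg (D.Bb x.1) D.e x.2 * v.1))) + 
      ((D.Bb x.1)⁻¹) ^ 2 • (D.e x.2 * (D.e j * (sg (D.Bb x.1) D.e x.2 * v.1))) + 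
      D.e x.2 * (D.e j * (D.e x.2 * (sg (D.Bb x.1) D.e x.2 * v.1)))
    rw [mul_assoc] at h2
    rw [h2]
    simp only [add_mul, smul_mul_assoc, mul_assoc]
  · show D.m2 x 0 = 0 + (D.Bb x.1) ^ 2 • (0 : V2 m K) + ((D.Bb x.1)⁻¹) ^ 2 • (0 : V2 m K) + 0
    simp

theorem Stab_act (J : Set ℕ) (x : Letter m) (hx : (x.2 : ℕ) ∈ J) (W : Submodule K (R × V2 m K)) 
    (h : D.Stab J W) : D.Stab J ((act (D.gg x))⁻¹ W) := by
  intro j hj hjm v hv
  rw [mem_act_inv] at hv ⊢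
  rw [gg_EE2]
  have hx' := idx_lt x
  have h1 := h j hj hjm _ hv
  have h2 := h _ hx hx' _ hv
  exact W.add_mem (W.add_mem (W.add_mem h1 (W.smul_mem _ (h j hj hjm _ h2))) 
    (W.smul_mem _ (h _ hx hx' _ h1))) (h _ hx hx' _ (h j hj hjm _ h2))

end TLD

theorem act_symm {V : Type} [AddCommGroup V] [Module K V] (g : V ≃ₗ[K] V) : 
    act g.symm = (act g)⁻¹ := by
  apply Equiv.ext
  intro W
  apply Submodule.ext
  intro v
  show v ∈ W.map (g.symm : V →ₗ[K] V) ↔ v ∈ W.comap (g : V →ₗ[K] V)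
  rw [Submodule.mem_map, Submodule.mem_comap]
  constructor
  · rintro ⟨w, hw, rfl⟩; simpa using hw
  · intro h; exact ⟨g v, h, by simp⟩

/-- the action on subspaces as a homomorphism -/
noncomputable def actH (K V : Type) [Field K] [AddCommGroup V] [Module K V] : 
    (V ≃ₗ[K] V) →* Equiv.Perm (Submodule K V) where
  toFun := act
  map_one' := by
    apply Equiv.ext; intro W
    exact Submodule.map_id W
  map_mul' g h := by
    apply Equiv.ext; intro W
    exact Submodule.map_comp (h : V →ₗ[K] V) (g : V →ₗ[K] V) W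

theorem actH_apply {V : Type} [AddCommGroup V] [Module K V] (g : V ≃ₗ[K] V) : actH K V g = act g := rfl

namespace TLD

variable (D : TLD m K R)

theorem Stab_act_iff (J : Set ℕ) (x : Letter m) (hx : (x.2 : ℕ) ∈ J) (W : Submodule K (R × V2 m K)) :
    D.Stab J ((act (D.gg x))⁻¹ W) ↔ D.Stab J W := by
  refine ⟨fun h => ?_, D.Stab_act J x hx W⟩
  have h1 := D.Stab_act J (inv' x) hx _ h
  have h2 : (act (D.gg (inv' x)))⁻¹ ((act (D.gg x))⁻¹ W) = W := by
    rw [gg_inv', act_symm, inv_inv]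
    exact Equiv.apply_symm_apply _ _
  rwa [h2] at h1

end TLD

/-! ### the homomorphism from `2 × 2` matrices -/

section iota

variable {d : K}

/-- relations of two neighbouring Temperley-Lieb generators, loop value `d` -/
structure TL2 (d : K) (a b : R) : Prop where
  aa : a * a = d • a
  bb : b * b = d • b
  aba : a * b * a = a
  bab : b * a * b = b

/-- the (non unital) homomorphism of the `2 × 2` matrices -/
noncomputable def io (d : K) (a b : R) : Matrix (Fin 2) (Fin 2) K →ₗ[K] R where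
  toFun Y := (d ^ 2 - 1)⁻¹ • ((d * Y 0 0 - Y 0 1) • a + (d * Y 0 1 - Y 0 0) • (a * b) + 
    (d * Y 1 1 - Y 1 0) • b + (d * Y 1 0 - Y 1 1) • (b * a))
  map_add' Y Z := by
    simp only [Matrix.add_apply]
    match_scalars <;> ring
  map_smul' c Y := by
    simp only [Matrix.smul_apply, smul_eq_mul, RingHom.id_apply]
    match_scalars <;> ring

theorem io_apply (a b : R) (Y : Matrix (Fin 2) (Fin 2) K) : 
    io d a b Y = (d ^ 2 - 1)⁻¹ • ((d * Y 0 0 - Y 0 1) • a + (d * Y 0 1 - Y 0 0) • (a * b) + 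
    (d * Y 1 1 - Y 1 0) • b + (d * Y 1 0 - Y 1 1) • (b * a)) := rfl

theorem io_mul (hd : d ^ 2 - 1 ≠ 0) {a b : R} (h : TL2 d a b) (Y Z : Matrix (Fin 2) (Fin 2) K) : 
    io d a b (Y * Z) = io d a b Y * io d a b Z := by
  have h1 : a * (a * b) = d • (a * b) := by rw [← mul_assoc, h.aa, smul_mul_assoc]
  have h2 : a * (b * a) = a := by rw [← mul_assoc, h.aba]
  have h3 : a * b * (a * b) = a * b := by rw [← mul_assoc, h.aba]
  have h4 : a * b * b = d • (a * b) := by rw [mul_assoc, h.bb, mul_smul_comm]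
  have h5 : a * b * (b * a) = d • a := by
    rw [← mul_assoc, mul_assoc a b b, h.bb, mul_smul_comm, smul_mul_assoc, h.aba]
  have h6 : b * (a * b) = b := by rw [← mul_assoc, h.bab]
  have h7 : b * (b * a) = d • (b * a) := by rw [← mul_assoc, h.bb, smul_mul_assoc]
  have h8 : b * a * a = d • (b * a) := by rw [mul_assoc, h.aa, mul_smul_comm]
  have h9 : b * a * (a * b) = d • b := by
    rw [← mul_assoc, mul_assoc b a a, h.aa, mul_smul_comm, smul_mul_assoc, h.bab]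
  have h10 : b * a * (b * a) = b * a := by rw [← mul_assoc, h.bab]
  simp only [io_apply, Matrix.mul_apply, Fin.sum_univ_two, mul_add, add_mul, smul_mul_assoc, 
    mul_smul_comm, h.aa, h.bb, h.aba, h.bab, h1, h2, h3, h4, h5, h6, h7, h8, h9, h10]
  match_scalars <;> field_simp <;> ring

/-- the unital version -/
noncomputable def th (d : K) (a b : R) (Y : Matrix (Fin 2) (Fin 2) K) : R := 1 + io d a b (Y - 1)

theorem th_one (a b : R) : th d a b 1 = 1 := by
  unfold th; rw [sub_self, map_zero, add_zero]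

theorem th_mul (hd : d ^ 2 - 1 ≠ 0) {a b : R} (h : TL2 d a b) (Y Z : Matrix (Fin 2) (Fin 2) K) : 
    th d a b (Y * Z) = th d a b Y * th d a b Z := by
  unfold th
  have e : Y * Z - 1 = (Y - 1) * (Z - 1) + (Y - 1) + (Z - 1) := by noncomm_ring
  rw [e, map_add, map_add, io_mul hd h]
  noncomm_ring

theorem th_pow (hd : d ^ 2 - 1 ≠ 0) {a b : R} (h : TL2 d a b) 
    (Y : Matrix (Fin 2) (Fin 2) K) (n : ℕ) : th d a b (Y ^ n) = th d a b Y ^ n := by
  induction n with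
  | zero => rw [pow_zero, pow_zero, th_one]
  | succ n ih => rw [pow_succ, th_mul hd h, ih, pow_succ]

theorem io_eq (hd : d ^ 2 - 1 ≠ 0) {a b : R} {Y : Matrix (Fin 2) (Fin 2) K} (c1 c2 c3 c4 : K)
    (h1 : d * Y 0 0 - Y 0 1 = (d ^ 2 - 1) * c1) (h2 : d * Y 0 1 - Y 0 0 = (d ^ 2 - 1) * c2)
    (h3 : d * Y 1 1 - Y 1 0 = (d ^ 2 - 1) * c3) (h4 : d * Y 1 0 - Y 1 1 = (d ^ 2 - 1) * c4) : 
    io d a b Y = c1 • a + c2 • (a * b) + c3 • b + c4 • (b * a) := by
  rw [io_apply, h1, h2, h3, h4]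
  simp only [smul_add, smul_smul, ← mul_assoc, inv_mul_cancel₀ hd, one_mul]

theorem th_Mu {t : K} (ht : t ≠ 0) (hd : (-t - t⁻¹) ^ 2 - 1 ≠ 0) (a b : R) : 
    th (-t - t⁻¹) a b (Mu t) = 1 + t • a + t⁻¹ • b + b * a := by
  unfold th
  rw [io_eq hd t 0 t⁻¹ 1]
  · simp only [zero_smul, one_smul]
    abel
  all_goals
    unfold Mu
    simp only [Matrix.sub_apply, Matrix.of_apply, Matrix.cons_val', Matrix.cons_val_zero, 
      Matrix.cons_val_one, Matrix.cons_val_fin_one, Matrix.one_apply_eq, 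
      Matrix.one_apply_ne (zero_ne_one), Matrix.one_apply_ne (one_ne_zero)]
    field_simp
    ring

theorem th_Mv {t : K} (ht : t ≠ 0) (hd : (-t - t⁻¹) ^ 2 - 1 ≠ 0) (a b : R) : 
    th (-t - t⁻¹) a b (Mv t) = 1 + t • a + t⁻¹ • b + a * b := by
  unfold th
  rw [io_eq hd t 1 t⁻¹ 0]
  · simp only [zero_smul, one_smul]
    abel
  all_goals
    unfold Mv
    simp only [Matrix.sub_apply, Matrix.of_apply, Matrix.cons_val', Matrix.cons_val_zero, 
      Matrix.cons_val_one, Matrix.cons_val_fin_one, Matrix.one_apply_eq, 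
      Matrix.one_apply_ne (zero_ne_one), Matrix.one_apply_ne (one_ne_zero)]
    field_simp
    ring

end iota

end Pool.Agent.Y463.MP
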