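import Pool.Agent.Y463.RW.Fun
import Pool.Agent.Y463.MP.Rep

/-!
# The functionals of the outsides on the Temperley–Lieb algebra over `ℤ[A, A⁻¹]` and over a field
-/

set_option autoImplicit false

namespace Pool.Agent.Y463.MP

open Finset LaurentPolynomial TensorProduct Pool.Agent.H891R2.Jones Pool.Agent.W639.RB Pool.Agent.Y463.SK 
  Pool.Agent.Y463.RW
open Pool.Agent.W705.JR (idx_lt)

variable {m : ℕ}

/-- the Temperley–Lieb algebra over `ℤ[A, A⁻¹]`, as an algebra of operators -/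
noncomputable abbrev TLZ (m : ℕ) : Subalgebra ℤ[T;T⁻¹] (BB m) := 
  Algebra.adjoin ℤ[T;T⁻¹] (Set.range (EB m))

/-- the generators -/
noncomputable def EZ (m : ℕ) (i : ℕ) : TLZ m := ⟨EB m i, Algebra.subset_adjoin ⟨i, rfl⟩⟩

/-- the letters -/
noncomputable def sZ (m : ℕ) (x : Bool × ℕ) : TLZ m := ltr (T 1 : ℤ[T;T⁻¹]) (T (-1)) (EZ m) x

theorem sZ_val (x : Bool × ℕ) : (sZ m x : BB m) = ltr (T 1 : ℤ[T;T⁻¹]) (T (-1)) (EB m) x := by
  unfold sZ ltr
  split_ifs <;> rfl

theorem rho_nil (A : ℂ) (m N : ℕ) : rho A m N [] = 1 := rfl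

/-- uniqueness -/
theorem ev_unique {c c' : ℤ[T;T⁻¹]} 
    (h : ∀ N : {N : ℕ // 3 ≤ N}, (N.1 : ℂ) * ev N.1 N.2 c = (N.1 : ℂ) * ev N.1 N.2 c') : c = c' := by
  rw [← sub_eq_zero]
  apply eq_zero_of_ev
  intro N hN
  have hNC : (N : ℂ) ≠ 0 := by
    rw [Nat.cast_ne_zero]; omega
  have h1 := h ⟨N, hN⟩
  simp only at h1
  rw [map_sub, sub_eq_zero]
  exact mul_left_cancel₀ hNC h1

/-- the functional of an outside -/
noncomputable def PhiS (hm : 0 < m) (O : Outer m) : TLZ m →ₗ[ℤ[T;T⁻¹]] ℤ[T;T⁻¹] where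
  toFun b := Classical.choose (coeff_adjoin hm O [] (by simp) b.1 b.2)
  map_add' b b' := by
    apply ev_unique
    intro N
    rw [Classical.choose_spec (coeff_adjoin hm O [] (by simp) (b + b').1 (b + b').2) N, map_add, mul_add,
      Classical.choose_spec (coeff_adjoin hm O [] (by simp) b.1 b.2) N,
      Classical.choose_spec (coeff_adjoin hm O [] (by simp) b'.1 b'.2) N]
    exact Fn_add O N [] b.1 b'.1
  map_smul' r b := by
    apply ev_unique
    intro N
    rw [Classical.choose_spec (coeff_adjoin hm O [] (by simp) (r • b).1 (r • b).2) N, RingHom.id_apply, 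
      smul_eq_mul, map_mul, mul_left_comm,
      Classical.choose_spec (coeff_adjoin hm O [] (by simp) b.1 b.2) N]
    exact Fn_smul O N [] r b.1

theorem PhiS_spec (hm : 0 < m) (O : Outer m) (b : TLZ m) (N : {N : ℕ // 3 ≤ N}) : 
    (N.1 : ℂ) * ev N.1 N.2 (PhiS hm O b) = Zg (Ar N.1) N.1 O ((b.1 N) (fun x y => ind (x = y))) := 
  Classical.choose_spec (coeff_adjoin hm O [] (by simp) b.1 b.2) N

theorem PhiS_one (hm : 0 < m) (O : Outer m) : PhiS hm O 1 = O.close.bracket := by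
  apply ev_unique
  intro N
  have : Nonempty O.P := ⟨O.lower ⟨0, hm⟩⟩
  rw [PhiS_spec, ev_bracket N.1 N.2 O.close, Z_close]
  rfl

theorem PhiS_push (hm : 0 < m) (O : Outer m) (x : Letter m) (b : TLZ m) : 
    PhiS hm (O.push x.1 x.2) b = PhiS hm O (sZ m (x.1, (x.2 : ℕ)) * b) := by
  apply ev_unique
  intro N
  rw [PhiS_spec, PhiS_spec]
  have h1 : ((sZ m (x.1, (x.2 : ℕ)) * b : TLZ m) : BB m) N = 
      Pool.Agent.W639.RB.lt (Ar N.1) m N.1 (x.1, (x.2 : ℕ)) * (b.1 N) := by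
    rw [Subalgebra.coe_mul, BB_mul, sZ_val, ltr_apply]
  rw [h1]
  unfold Pool.Agent.W639.RB.lt
  rcases x with ⟨p, i⟩
  cases p
  · exact Zg_push_false (A := Ar N.1) O i (idx_lt (false, i)) _
  · exact Zg_push_true (A := Ar N.1) O i (idx_lt (true, i)) _

/-! ### base change -/

variable (L : Type) [Field L] [Algebra ℤ[T;T⁻¹] L]

/-- the Temperley–Lieb algebra over `L` -/
abbrev TLL (m : ℕ) : Type := L ⊗[ℤ[T;T⁻¹]] (TLZ m)

theorem algT_ne : algebraMap ℤ[T;T⁻¹] L (T 1) ≠ 0 := by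
  intro h
  have h1 := congrArg (algebraMap ℤ[T;T⁻¹] L) T_mul_inv
  rw [map_mul, h, zero_mul, map_one] at h1
  exact zero_ne_one h1

theorem algT_inv : (algebraMap ℤ[T;T⁻¹] L (T 1))⁻¹ = algebraMap ℤ[T;T⁻¹] L (T (-1)) := by
  rw [inv_eq_iff_eq_inv, eq_comm, inv_eq_iff_eq_inv]
  apply eq_inv_of_mul_eq_one_left
  rw [← map_mul, mul_comm, T_mul_inv, map_one]

/-- the inclusion -/
noncomputable def inc (m : ℕ) : TLZ m →ₐ[ℤ[T;T⁻¹]] TLL L m := Algebra.TensorProduct.includeRight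

theorem inc_smul (r : ℤ[T;T⁻¹]) (b : TLZ m) : 
    inc L m (r • b) = (algebraMap ℤ[T;T⁻¹] L r) • inc L m b := by
  rw [map_smul, algebraMap_smul]

theorem inc_tmul (c : L) (b : TLZ m) : (c ⊗ₜ[ℤ[T;T⁻¹]] b : TLL L m) = c • inc L m b := by
  show _ = c • ((1 : L) ⊗ₜ[ℤ[T;T⁻¹]] b)
  rw [TensorProduct.smul_tmul', smul_eq_mul, mul_one]

theorem isTL_EZ (m : ℕ) : IsTLr m (-(T 1)^2 - (T (-1))^2 : ℤ[T;T⁻¹]) (EZ m) where
  sq i hi := Subtype.ext ((isTLr_EB m).sq i hi)
  up i hi := Subtype.ext ((isTLr_EB m).up i hi)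
  down i hi := Subtype.ext ((isTLr_EB m).down i hi)
  far i j hj hij := Subtype.ext ((isTLr_EB m).far i j hj hij)

/-- the data -/
noncomputable def DL (m : ℕ) : TLD m L (TLL L m) where
  a := algebraMap ℤ[T;T⁻¹] L (T 1)
  e i := inc L m (EZ m i)
  a_ne := algT_ne L
  rel := by
    constructor
    · intro i hi
      rw [← map_mul, (isTL_EZ m).sq i hi, inc_smul, algT_inv]
      congr 1
      rw [map_sub, map_neg, map_pow, map_pow]
    · intro i hi
      rw [← map_mul, ← map_mul, (isTL_EZ m).up i hi]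
    · intro i hi
      rw [← map_mul, ← map_mul, (isTL_EZ m).down i hi]
    · intro i j hj hij
      rw [← map_mul, ← map_mul, (isTL_EZ m).far i j hj hij]

theorem sg_eq (x : Letter m) : sg ((DL L m).Bb x.1) (DL L m).e x.2 = inc L m (sZ m (x.1, (x.2 : ℕ))) := by
  have ha : (DL L m).a = algebraMap ℤ[T;T⁻¹] L (T 1) := rfl
  unfold sZ ltr TLD.Bb sg
  rcases x with ⟨p, i⟩
  cases p
  · simp only [Bool.false_eq_true, if_false, inv_inv]
    rw [map_add, inc_smul, inc_smul, map_one, ha, algT_inv]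
    rfl
  · simp only [if_true]
    rw [map_add, inc_smul, inc_smul, map_one, ha, algT_inv]
    rfl

/-- the functional over `L` -/
noncomputable def phiL (hm : 0 < m) (O : Outer m) : TLL L m →ₗ[L] L := 
  (TensorProduct.AlgebraTensorModule.rid ℤ[T;T⁻¹] L L).toLinearMap ∘ₗ (PhiS hm O).baseChange L

theorem phiL_inc (hm : 0 < m) (O : Outer m) (b : TLZ m) : 
    phiL L hm O (inc L m b) = algebraMap ℤ[T;T⁻¹] L (PhiS hm O b) := by
  unfold phiL inc
  rw [LinearMap.comp_apply]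
  show (TensorProduct.AlgebraTensorModule.rid ℤ[T;T⁻¹] L L) ((PhiS hm O).baseChange L 
    ((1 : L) ⊗ₜ[ℤ[T;T⁻¹]] b)) = _
  rw [LinearMap.baseChange_tmul, TensorProduct.AlgebraTensorModule.rid_tmul, Algebra.smul_def, mul_one]

theorem phiL_push (hm : 0 < m) (O : Outer m) (x : Letter m) (v : TLL L m) : 
    phiL L hm (O.push x.1 x.2) v = phiL L hm O ((DL L m).s1 x v) := by
  induction v using TensorProduct.induction_on with
  | zero => rw [map_zero, map_zero, map_zero]
  | add v w hv hw => rw [map_add, map_add, map_add, hv, hw]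
  | tmul c b =>
    rw [inc_tmul, map_smul, map_smul, map_smul, phiL_inc, PhiS_push, TLD.s1_apply, sg_eq, ← map_mul, 
      phiL_inc]

/-! ### the dimension -/

theorem finrank_TLL (hm : 0 < m) : Module.Finite L (TLL L m) ∧ 
    Module.finrank L (TLL L m) ≤ m.factorial := by
  have hwj : ∀ j : Fin (m.factorial), wj hm j ∈ TLZ m := fun j => wl_mem_adjoin (m - 1) _ (wj_mem hm j)
  have hspan : (⊤ : Submodule L (TLL L m)) ≤ 
      Submodule.span L (Set.range (fun j => inc L m ⟨wj hm j, hwj j⟩)) := by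
    intro v _
    induction v using TensorProduct.induction_on with
    | zero => exact Submodule.zero_mem _
    | add v w hv hw => exact Submodule.add_mem _ (hv trivial) (hw trivial)
    | tmul c b =>
      rw [inc_tmul]
      apply Submodule.smul_mem
      obtain ⟨r, hr⟩ := mem_adjoin_repr b.1 hm b.2
      have h1 : b = ∑ j, r j • (⟨wj hm j, hwj j⟩ : TLZ m) := by
        apply Subtype.ext
        rw [hr]
        simp
      rw [h1, map_sum]
      refine Submodule.sum_mem _ fun j _ => ?_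
      rw [inc_smul]
      exact Submodule.smul_mem _ _ (Submodule.subset_span ⟨j, rfl⟩)
  have htop := top_le_iff.1 hspan
  refine ⟨⟨?_⟩, ?_⟩
  · rw [← htop]
    exact Submodule.fg_span (Set.finite_range _)
  · have h1 := finrank_range_le_card (R := L) (fun j : Fin (m.factorial) => inc L m ⟨wj hm j, hwj j⟩)
    rw [Set.finrank, htop, finrank_top, Fintype.card_fin] at h1
    exact h1

end Pool.Agent.Y463.MP
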