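import Pool.Agent.Y463.MP.Rep
import Pool.Agent.W705.JR.Gap

/-!
# The spectral gap at one place, over any algebraically closed field with a valuation

This follows `Pool.Agent.W705.JR.Gap` and `Pool.Agent.W705.JR.Fin` (starting library).
-/

set_option autoImplicit false

namespace Pool.Agent.Y463.MP

open Finset Matrix Pool.Agent.H891R2.Jones Pool.Agent.W639.RB 
open Pool.Agent.W705.JR (inv' sgn sgn_not sw cst2 cst2_sw sw_sw idx_lt conj_id L2 sh sh_pow_sub pingpong 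
  swap_cube sw_cube sw_cube' pat_sw pat_mul)

variable {m : ℕ} {K R : Type} [Field K] [Ring R] [Algebra K R]

/-- the letter `σ_i^{±1}` -/
abbrev lt (i : ℕ) (h : i + 1 < m) (b : Bool) : Letter m := Pool.Agent.W705.JR.lt i h b

namespace TLD

variable (D : TLD m K R)

/-- `u = σ_{i+1} σ_i⁻¹` -/
noncomputable def uu (i : ℕ) (h : i + 2 < m) : (R × V2 m K) ≃ₗ[K] (R × V2 m K) := 
  D.gg (lt (i+1) h true) * D.gg (lt i (by omega) false)

/-- `v = σ_i⁻¹ σ_{i+1}` -/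
noncomputable def vv (i : ℕ) (h : i + 2 < m) : (R × V2 m K) ≃ₗ[K] (R × V2 m K) := 
  D.gg (lt i (by omega) false) * D.gg (lt (i+1) h true)

/-- the first 3-cycle on `V2` -/
theorem m2_u (i : ℕ) (h : i + 2 < m) (f : V2 m K) (U : Fin m → Bool) : 
    (D.m2 (lt (i+1) h true) (D.m2 (lt i (by omega) false) f)) U = 
      D.qq ^ (pat U (i+1) * pat U (i+2) - pat U i * pat U (i+2)) * 
        f (U ∘ (sw (lt (m := m) (i+1) h true) * sw (lt i (by omega) false) : Equiv.Perm (Fin m))) := by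
  rw [m2_apply, m2_apply, ← mul_assoc, ← zpow_add₀ D.qq_ne]
  congr 2
  unfold cst2
  rw [pat_sw]
  simp only [Pool.Agent.W705.JR.lt, sgn, Function.comp_apply, Equiv.swap_apply_left, if_true]
  rw [Equiv.swap_apply_of_ne_of_ne (by omega) (by omega)]
  simp
  ring

theorem m2_v (i : ℕ) (h : i + 2 < m) (f : V2 m K) (U : Fin m → Bool) : 
    (D.m2 (lt i (by omega) false) (D.m2 (lt (i+1) h true) f)) U = 
      D.qq ^ (- (pat U i * pat U (i+1)) + pat U i * pat U (i+2)) * 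
        f (U ∘ (sw (lt (m := m) i (by omega) false) * sw (lt (i+1) h true) : Equiv.Perm (Fin m))) := by
  rw [m2_apply, m2_apply, ← mul_assoc, ← zpow_add₀ D.qq_ne]
  congr 2
  unfold cst2
  rw [pat_sw]
  simp only [Pool.Agent.W705.JR.lt, sgn, Function.comp_apply, Equiv.swap_apply_right, if_true]
  rw [Equiv.swap_apply_of_ne_of_ne (by omega) (by omega)]
  simp

theorem m2_u3 (i : ℕ) (h : i + 2 < m) (f : V2 m K) : 
    (fun f => D.m2 (lt (m := m) (i+1) h true) (D.m2 (lt i (by omega) false) f))^[3] f = f := by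
  funext U
  simp only [Function.iterate_succ, Function.iterate_zero, Function.comp_apply, id_eq]
  rw [m2_u, m2_u, m2_u, ← mul_assoc, ← mul_assoc, ← zpow_add₀ D.qq_ne, ← zpow_add₀ D.qq_ne]
  simp only [pat_mul]
  have h1 : ((U ∘ (sw (lt (m := m) (i+1) h true) * sw (lt i (by omega) false) : Equiv.Perm (Fin m))) ∘ 
      (sw (lt (m := m) (i+1) h true) * sw (lt i (by omega) false) : Equiv.Perm (Fin m))) ∘ 
      (sw (lt (m := m) (i+1) h true) * sw (lt i (by omega) false) : Equiv.Perm (Fin m)) = U := by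
    have h2 := sw_cube (m := m) i h
    funext j
    have h3 := congrArg (fun σ : Equiv.Perm (Fin m) => σ j) h2
    simp only [pow_succ, pow_zero, one_mul, Equiv.Perm.one_apply] at h3
    show U _ = U j
    congr 1
  rw [h1]
  have h4 : ∀ z : ℤ, z = 0 → D.qq ^ z * f U = f U := by rintro z rfl; simp
  apply h4
  simp only [Pool.Agent.W705.JR.lt, Function.comp_apply]
  have a1 : (Equiv.swap i (i+1)) i = i + 1 := Equiv.swap_apply_left _ _
  have a2 : (Equiv.swap i (i+1)) (i+1) = i := Equiv.swap_apply_right _ _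
  have a3 : (Equiv.swap i (i+1)) (i+2) = i+2 := Equiv.swap_apply_of_ne_of_ne (by omega) (by omega)
  have a4 : (Equiv.swap (i+1) (i+1+1)) i = i := Equiv.swap_apply_of_ne_of_ne (by omega) (by omega)
  have a5 : (Equiv.swap (i+1) (i+1+1)) (i+1) = i+2 := Equiv.swap_apply_left _ _
  have a6 : (Equiv.swap (i+1) (i+1+1)) (i+2) = i+1 := Equiv.swap_apply_right _ _
  simp only [a1, a2, a3, a4, a5, a6]
  ring

theorem m2_v3 (i : ℕ) (h : i + 2 < m) (f : V2 m K) : 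
    (fun f => D.m2 (lt (m := m) i (by omega) false) (D.m2 (lt (i+1) h true) f))^[3] f = f := by
  funext U
  simp only [Function.iterate_succ, Function.iterate_zero, Function.comp_apply, id_eq]
  rw [m2_v, m2_v, m2_v, ← mul_assoc, ← mul_assoc, ← zpow_add₀ D.qq_ne, ← zpow_add₀ D.qq_ne]
  simp only [pat_mul]
  have h1 : ((U ∘ (sw (lt (m := m) i (by omega) false) * sw (lt (i+1) h true) : Equiv.Perm (Fin m))) ∘ 
      (sw (lt (m := m) i (by omega) false) * sw (lt (i+1) h true) : Equiv.Perm (Fin m))) ∘ 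
      (sw (lt (m := m) i (by omega) false) * sw (lt (i+1) h true) : Equiv.Perm (Fin m)) = U := by
    have h2 := sw_cube' (m := m) i h
    funext j
    have h3 := congrArg (fun σ : Equiv.Perm (Fin m) => σ j) h2
    simp only [pow_succ, pow_zero, one_mul, Equiv.Perm.one_apply] at h3
    show U _ = U j
    congr 1
  rw [h1]
  have h4 : ∀ z : ℤ, z = 0 → D.qq ^ z * f U = f U := by rintro z rfl; simp
  apply h4
  simp only [Pool.Agent.W705.JR.lt, Function.comp_apply]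
  have a1 : (Equiv.swap i (i+1)) i = i + 1 := Equiv.swap_apply_left _ _
  have a2 : (Equiv.swap i (i+1)) (i+1) = i := Equiv.swap_apply_right _ _
  have a3 : (Equiv.swap i (i+1)) (i+2) = i+2 := Equiv.swap_apply_of_ne_of_ne (by omega) (by omega)
  have a4 : (Equiv.swap (i+1) (i+1+1)) i = i := Equiv.swap_apply_of_ne_of_ne (by omega) (by omega)
  have a5 : (Equiv.swap (i+1) (i+1+1)) (i+1) = i+2 := Equiv.swap_apply_left _ _
  have a6 : (Equiv.swap (i+1) (i+1+1)) (i+2) = i+1 := Equiv.swap_apply_right _ _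
  simp only [a1, a2, a3, a4, a5, a6]
  ring

/-! ### the action of `GL_2` -/

/-- the parameter `t = A^2` -/
noncomputable def t : K := D.a ^ 2

theorem t_ne : D.t ≠ 0 := pow_ne_zero 2 D.a_ne

/-- the loop value -/
noncomputable def d : K := -D.t - D.t⁻¹

theorem d_eq : D.d = -D.a ^ 2 - D.a⁻¹ ^ 2 := by
  unfold d t
  rw [inv_pow]

theorem e_TL2 (i : ℕ) (hi : i + 2 < m) : TL2 D.d (D.e i) (D.e (i+1)) where
  aa := by rw [d_eq]; exact D.rel.sq i (by omega)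
  bb := by rw [d_eq]; exact D.rel.sq (i+1) (by omega)
  aba := D.rel.up i hi
  bab := D.rel.down i hi

theorem u_fst (hd : D.d ^ 2 - 1 ≠ 0) (i : ℕ) (h : i + 2 < m) (v : R × V2 m K) : 
    (D.uu i h v).1 = th D.d (D.e i) (D.e (i+1)) (Mu D.t) * v.1 := by
  have e1 : (D.uu i h v).1 = sg D.a D.e (i+1) * (sg D.a⁻¹ D.e i * v.1) := rfl
  have e2 : th D.d (D.e i) (D.e (i+1)) (Mu D.t) = 1 + D.t • D.e i + D.t⁻¹ • D.e (i+1) + 
      D.e (i+1) * D.e i := th_Mu D.t_ne hd _ _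
  rw [e1, e2, ← mul_assoc]
  congr 1
  have hA := D.a_ne
  unfold t
  simp only [sg, add_mul, mul_add, smul_mul_assoc, mul_smul_comm, one_mul, mul_one, smul_smul, 
    smul_add, inv_inv]
  match_scalars <;> field_simp

theorem v_fst (hd : D.d ^ 2 - 1 ≠ 0) (i : ℕ) (h : i + 2 < m) (v : R × V2 m K) : 
    (D.vv i h v).1 = th D.d (D.e i) (D.e (i+1)) (Mv D.t) * v.1 := by
  have e1 : (D.vv i h v).1 = sg D.a⁻¹ D.e i * (sg D.a D.e (i+1) * v.1) := rfl
  have e2 : th D.d (D.e i) (D.e (i+1)) (Mv D.t) = 1 + D.t • D.e i + D.t⁻¹ • D.e (i+1) + 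
      D.e i * D.e (i+1) := th_Mv D.t_ne hd _ _
  rw [e1, e2, ← mul_assoc]
  congr 1
  have hA := D.a_ne
  unfold t
  simp only [sg, add_mul, mul_add, smul_mul_assoc, mul_smul_comm, one_mul, mul_one, smul_smul, 
    smul_add, inv_inv]
  match_scalars <;> field_simp

noncomputable def gMu : GL (Fin 2) K := 
  Matrix.GeneralLinearGroup.mkOfDetNeZero (Mu D.t) (by rw [Mu_det D.t_ne]; exact one_ne_zero)

noncomputable def gMv : GL (Fin 2) K := 
  Matrix.GeneralLinearGroup.mkOfDetNeZero (Mv D.t) (by rw [Mv_det D.t_ne]; exact one_ne_zero)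

/-- the homomorphism to the endomorphisms of `R × V2` -/
noncomputable def IO (i : ℕ) (Y : Matrix (Fin 2) (Fin 2) K) : Module.End K (R × V2 m K) :=
  LinearMap.prodMap (LinearMap.mulLeft K (io D.d (D.e i) (D.e (i+1)) Y)) 0

noncomputable def TH (i : ℕ) (Y : Matrix (Fin 2) (Fin 2) K) : Module.End K (R × V2 m K) :=
  LinearMap.prodMap (LinearMap.mulLeft K (th D.d (D.e i) (D.e (i+1)) Y)) 1

theorem TH_eq (i : ℕ) (Y : Matrix (Fin 2) (Fin 2) K) (v : R × V2 m K) : 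
    D.TH i Y v = v + D.IO i (Y - 1) v := by
  refine Prod.ext ?_ ?_
  · show th D.d (D.e i) (D.e (i+1)) Y * v.1 = v.1 + io D.d (D.e i) (D.e (i+1)) (Y - 1) * v.1
    unfold th
    rw [add_mul, one_mul]
  · show v.2 = v.2 + 0
    rw [add_zero]

theorem TH_one (i : ℕ) : D.TH i 1 = 1 := by
  unfold TH
  rw [th_one, LinearMap.mulLeft_one]
  rfl

theorem TH_mul (hd : D.d ^ 2 - 1 ≠ 0) (i : ℕ) (hi : i + 2 < m) (Y Z : Matrix (Fin 2) (Fin 2) K) : 
    D.TH i (Y * Z) = D.TH i Y * D.TH i Z := by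
  unfold TH
  rw [th_mul hd (D.e_TL2 i hi), LinearMap.mulLeft_mul]
  rfl

theorem IO_mul (hd : D.d ^ 2 - 1 ≠ 0) (i : ℕ) (hi : i + 2 < m) (Y Z : Matrix (Fin 2) (Fin 2) K) 
    (v : R × V2 m K) : D.IO i (Y * Z) v = D.IO i Y (D.IO i Z v) := by
  unfold IO
  rw [io_mul hd (D.e_TL2 i hi), LinearMap.mulLeft_mul]
  rfl

theorem IO_add (i : ℕ) (Y Z : Matrix (Fin 2) (Fin 2) K) (v : R × V2 m K) : 
    D.IO i (Y + Z) v = D.IO i Y v + D.IO i Z v := by
  refine Prod.ext ?_ ?_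
  · show io D.d (D.e i) (D.e (i+1)) (Y + Z) * v.1 = io D.d (D.e i) (D.e (i+1)) Y * v.1 + 
      io D.d (D.e i) (D.e (i+1)) Z * v.1
    rw [map_add, add_mul]
  · show (0 : V2 m K) = 0 + 0
    rw [add_zero]

theorem IO_smul (i : ℕ) (c : K) (Y : Matrix (Fin 2) (Fin 2) K) (v : R × V2 m K) : 
    D.IO i (c • Y) v = c • D.IO i Y v := by
  refine Prod.ext ?_ ?_
  · show io D.d (D.e i) (D.e (i+1)) (c • Y) * v.1 = c • (io D.d (D.e i) (D.e (i+1)) Y * v.1)
    rw [map_smul, smul_mul_assoc]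
  · show (0 : V2 m K) = c • 0
    rw [smul_zero]

theorem IO_formula (i : ℕ) (Y : Matrix (Fin 2) (Fin 2) K) (v : R × V2 m K) : 
    D.IO i Y v = (D.d ^ 2 - 1)⁻¹ • ((D.d * Y 0 0 - Y 0 1) • D.EE2 i v + 
      (D.d * Y 0 1 - Y 0 0) • (D.EE2 i (D.EE2 (i+1) v)) + 
    (D.d * Y 1 1 - Y 1 0) • D.EE2 (i+1) v + (D.d * Y 1 0 - Y 1 1) • (D.EE2 (i+1) (D.EE2 i v))) := by
  refine Prod.ext ?_ ?_
  · show io D.d (D.e i) (D.e (i+1)) Y * v.1 = (D.d ^ 2 - 1)⁻¹ • ((D.d * Y 0 0 - Y 0 1) • (D.e i * v.1) + 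
      (D.d * Y 0 1 - Y 0 0) • (D.e i * (D.e (i+1) * v.1)) + 
    (D.d * Y 1 1 - Y 1 0) • (D.e (i+1) * v.1) + (D.d * Y 1 0 - Y 1 1) • (D.e (i+1) * (D.e i * v.1)))
    rw [io_apply]
    simp only [smul_mul_assoc, add_mul, mul_assoc]
  · show (0 : V2 m K) = (D.d ^ 2 - 1)⁻¹ • ((D.d * Y 0 0 - Y 0 1) • (0 : V2 m K) + 
      (D.d * Y 0 1 - Y 0 0) • (0 : V2 m K) + 
      (D.d * Y 1 1 - Y 1 0) • (0 : V2 m K) + (D.d * Y 1 0 - Y 1 1) • (0 : V2 m K))
    simp

/-- the group `GL_2` acts -/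
noncomputable def Tg (hd : D.d ^ 2 - 1 ≠ 0) (i : ℕ) (hi : i + 2 < m) : 
    GL (Fin 2) K →* ((R × V2 m K) ≃ₗ[K] (R × V2 m K)) :=
  (LinearMap.GeneralLinearGroup.generalLinearEquiv K (R × V2 m K)).toMonoidHom.comp 
    (Units.map { toFun := D.TH i, map_one' := D.TH_one i, map_mul' := D.TH_mul hd i hi })

theorem Tg_apply (hd : D.d ^ 2 - 1 ≠ 0) (i : ℕ) (hi : i + 2 < m) (Y : GL (Fin 2) K) (v : R × V2 m K) : 
    D.Tg hd i hi Y v = D.TH i (Y : Matrix (Fin 2) (Fin 2) K) v := rfl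

theorem u_cube (hd : D.d ^ 2 - 1 ≠ 0) (i : ℕ) (h : i + 2 < m) : 
    (D.uu i h) ^ 3 = D.Tg hd i h (D.gMu ^ 3) := by
  apply LinearEquiv.ext
  intro v
  rw [Tg_apply]
  have e1 : ((D.uu i h) ^ 3) v = D.uu i h (D.uu i h (D.uu i h v)) := rfl
  rw [e1]
  refine Prod.ext ?_ ?_
  · rw [u_fst D hd, u_fst D hd, u_fst D hd]
    show _ = (th D.d (D.e i) (D.e (i+1)) ((D.gMu ^ 3 : GL (Fin 2) K) : Matrix (Fin 2) (Fin 2) K)) * v.1
    have e2 : ((D.gMu ^ 3 : GL (Fin 2) K) : Matrix (Fin 2) (Fin 2) K) = Mu D.t ^ 3 := rfl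
    rw [e2, th_pow hd (D.e_TL2 i h)]
    simp only [pow_succ, pow_zero, one_mul, mul_assoc]
  · exact D.m2_u3 i h v.2

theorem v_cube (hd : D.d ^ 2 - 1 ≠ 0) (i : ℕ) (h : i + 2 < m) : 
    (D.vv i h) ^ 3 = D.Tg hd i h (D.gMv ^ 3) := by
  apply LinearEquiv.ext
  intro v
  rw [Tg_apply]
  have e1 : ((D.vv i h) ^ 3) v = D.vv i h (D.vv i h (D.vv i h v)) := rfl
  rw [e1]
  refine Prod.ext ?_ ?_
  · rw [v_fst D hd, v_fst D hd, v_fst D hd]
    show _ = (th D.d (D.e i) (D.e (i+1)) ((D.gMv ^ 3 : GL (Fin 2) K) : Matrix (Fin 2) (Fin 2) K)) * v.1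
    have e2 : ((D.gMv ^ 3 : GL (Fin 2) K) : Matrix (Fin 2) (Fin 2) K) = Mv D.t ^ 3 := rfl
    rw [e2, th_pow hd (D.e_TL2 i h)]
    simp only [pow_succ, pow_zero, one_mul, mul_assoc]
  · exact D.m2_v3 i h v.2

/-! ### invariant subspaces -/

theorem Stab_IO (i : ℕ) (h : i + 2 < m) (W : Submodule K (R × V2 m K)) (hW : D.Stab {i, i+1} W) 
    (Y : Matrix (Fin 2) (Fin 2) K) (v : R × V2 m K) (hv : v ∈ W) : D.IO i Y v ∈ W := by
  rw [IO_formula]
  have h1 : ∀ w ∈ W, D.EE2 i w ∈ W := hW i (by simp) (by omega)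
  have h2 : ∀ w ∈ W, D.EE2 (i+1) w ∈ W := hW (i+1) (by simp) (by omega)
  refine W.smul_mem _ (W.add_mem (W.add_mem (W.add_mem ?_ ?_) ?_) ?_)
  · exact W.smul_mem _ (h1 _ hv)
  · exact W.smul_mem _ (h1 _ (h2 _ hv))
  · exact W.smul_mem _ (h2 _ hv)
  · exact W.smul_mem _ (h2 _ (h1 _ hv))

theorem Tg_fix (hd : D.d ^ 2 - 1 ≠ 0) (i : ℕ) (h : i + 2 < m) (W : Submodule K (R × V2 m K)) 
    (hW : D.Stab {i, i+1} W) (g : GL (Fin 2) K) : act (D.Tg hd i h g) W = W := by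
  have h1 : ∀ g : GL (Fin 2) K, ∀ v ∈ W, D.Tg hd i h g v ∈ W := by
    intro g v hv
    rw [Tg_apply, TH_eq]
    exact W.add_mem hv (D.Stab_IO i h W hW _ v hv)
  apply Submodule.ext
  intro v
  show v ∈ W.map (D.Tg hd i h g : (R × V2 m K) →ₗ[K] (R × V2 m K)) ↔ v ∈ W
  rw [Submodule.mem_map]
  constructor
  · rintro ⟨w, hw, rfl⟩; exact h1 g w hw
  · intro hv
    refine ⟨D.Tg hd i h g⁻¹ v, h1 _ v hv, ?_⟩
    show D.Tg hd i h g (D.Tg hd i h g⁻¹ v) = v
    have : D.Tg hd i h g (D.Tg hd i h g⁻¹ v) = (D.Tg hd i h g * D.Tg hd i h g⁻¹) v := rfl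
    rw [this, ← map_mul, mul_inv_cancel, map_one]; rfl

/-- the algebra of the matrices preserving `W` -/
def alg (i : ℕ) (W : Submodule K (R × V2 m K)) : Submodule K (Matrix (Fin 2) (Fin 2) K) where
  carrier := {Y | ∀ v ∈ W, D.IO i Y v ∈ W}
  add_mem' hY hZ v hv := by
    rw [IO_add]; exact W.add_mem (hY v hv) (hZ v hv)
  zero_mem' v hv := by
    have : D.IO i 0 v = 0 := by
      have := D.IO_smul i (0:K) 0 v
      rwa [zero_smul, zero_smul] at this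
    rw [this]; exact W.zero_mem
  smul_mem' c Y hY v hv := by
    rw [IO_smul]; exact W.smul_mem _ (hY v hv)

theorem exists_q [IsAlgClosed K] (hd : D.d ^ 2 - 1 ≠ 0) (i : ℕ) (h : i + 2 < m) 
    (W : Submodule K (R × V2 m K)) (hW : ¬ D.Stab {i, i+1} W) : 
    ∃ q : Fin 2 → K, q ≠ 0 ∧ ∀ g : GL (Fin 2) K, act (D.Tg hd i h g) W = W → 
      ∃ c : K, (g : Matrix (Fin 2) (Fin 2) K) *ᵥ q = c • q := by
  rcases alg_or_eigen (D.alg i W) (fun X hX Y hY v hv => by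
    rw [D.IO_mul hd i h]; exact hX _ (hY v hv)) with h1 | ⟨q, hq0, hq⟩
  · exfalso
    apply hW
    have h2 : ∀ (Y : Matrix (Fin 2) (Fin 2) K), ∀ v ∈ W, D.IO i Y v ∈ W := by
      intro Y
      have : Y ∈ D.alg i W := by rw [h1]; trivial
      exact this
    intro j hj hjm v hv
    rcases hj with hj | hj
    · subst hj
      have := h2 !![D.d, 1; 0, 0] v hv
      rw [IO_formula] at this
      simp only [Matrix.of_apply, Matrix.cons_val', Matrix.cons_val_zero, Matrix.cons_val_one, 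
        Matrix.cons_val_fin_one] at this
      have e1 : (D.d ^ 2 - 1)⁻¹ • ((D.d * D.d - 1) • D.EE2 j v + (D.d * 1 - D.d) • (D.EE2 j (D.EE2 (j+1) v)) + 
        (D.d * 0 - 0) • D.EE2 (j+1) v + (D.d * 0 - 0) • (D.EE2 (j+1) (D.EE2 j v))) = D.EE2 j v := by
        have z1 : D.d * D.d - 1 = D.d ^ 2 - 1 := by ring
        have z2 : D.d * 1 - D.d = 0 := by ring
        have z3 : D.d * 0 - 0 = (0:K) := by ring
        rw [z1, z2, z3, zero_smul, zero_smul, zero_smul, add_zero, add_zero, add_zero, smul_smul, 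
          inv_mul_cancel₀ hd, one_smul]
      rwa [e1] at this
    · have hj' : j = i + 1 := hj
      subst hj'
      have := h2 !![0, 0; 1, D.d] v hv
      rw [IO_formula] at this
      simp only [Matrix.of_apply, Matrix.cons_val', Matrix.cons_val_zero, Matrix.cons_val_one, 
        Matrix.cons_val_fin_one] at this
      have e1 : (D.d ^ 2 - 1)⁻¹ • ((D.d * 0 - 0) • D.EE2 i v + (D.d * 0 - 0) • (D.EE2 i (D.EE2 (i+1) v)) + 
        (D.d * D.d - 1) • D.EE2 (i+1) v + (D.d * 1 - D.d) • (D.EE2 (i+1) (D.EE2 i v))) = D.EE2 (i+1) v := by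
        have z1 : D.d * D.d - 1 = D.d ^ 2 - 1 := by ring
        have z2 : D.d * 1 - D.d = 0 := by ring
        have z3 : D.d * 0 - 0 = (0:K) := by ring
        rw [z1, z2, z3, zero_smul, zero_smul, zero_smul, zero_add, add_zero, zero_add, smul_smul, 
          inv_mul_cancel₀ hd, one_smul]
      rwa [e1] at this
  · refine ⟨q, hq0, fun g hg => ?_⟩
    have h1 : (g : Matrix (Fin 2) (Fin 2) K) - 1 ∈ D.alg i W := by
      intro v hv
      have h2 : D.Tg hd i h g v ∈ W := by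
        have h3 : D.Tg hd i h g v ∈ act (D.Tg hd i h g) W := Submodule.mem_map_of_mem hv
        rwa [hg] at h3
      rw [Tg_apply, TH_eq] at h2
      have := W.sub_mem h2 hv
      rwa [add_sub_cancel_left] at this
    obtain ⟨c, hc⟩ := hq _ h1
    refine ⟨c + 1, ?_⟩
    rw [Matrix.sub_mulVec, Matrix.one_mulVec] at hc
    rw [add_smul, one_smul, ← hc]; abel

/-- the good subspaces for the place `i` -/
def good (i : ℕ) : Set (Submodule K (R × V2 m K)) := {W | ¬ D.Stab {i, i+1} W}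

theorem gap_pp [IsAlgClosed K] {Γ : Type} [LinearOrderedCommGroupWithZero Γ] (v : Valuation K Γ) 
    (hv : v D.t < 1) (hd : D.d ^ 2 - 1 ≠ 0) (i : ℕ) (h : i + 2 < m) (f : L2 (Submodule K (R × V2 m K))) 
    (hf : ∀ W, W ∉ D.good i → f W = 0) (ε : ℝ) (hu : ‖f - sh (act (D.uu i h) ^ 3) f‖ ≤ ε) 
    (hv' : ‖f - sh (act (D.vv i h) ^ 3) f‖ ≤ ε) : ‖f‖ ≤ 25 * ε := by
  have ht := D.t_ne
  obtain ⟨Q, hQ⟩ := equi ((actH K (R × V2 m K)).comp (D.Tg hd i h)) (D.good i) (fun g W hW => by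
    intro h1
    apply hW
    have h2 := D.Tg_fix hd i h _ h1 g⁻¹
    have h3 : act (D.Tg hd i h g⁻¹) (act (D.Tg hd i h g) W) = W := by
      have : act (D.Tg hd i h g⁻¹) (act (D.Tg hd i h g) W) = 
        (actH K (R × V2 m K) (D.Tg hd i h g⁻¹) * actH K (R × V2 m K) (D.Tg hd i h g)) W := rfl
      rw [this, ← map_mul, ← map_mul, inv_mul_cancel, map_one, map_one]; rfl
    have h4 : act (D.Tg hd i h g) W = W := by
      rw [← h3]
      conv_lhs => rw [h3]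
      exact h2.symm
    have h5 : D.Stab {i, i+1} (act (D.Tg hd i h g) W) := h1
    rwa [h4] at h5) (fun W hW => D.exists_q hd i h W hW)
  -- powers
  have key : ∀ (u : (R × V2 m K) ≃ₗ[K] (R × V2 m K)) (g : GL (Fin 2) K) (M : Matrix (Fin 2) (Fin 2) K), 
      (g : Matrix (Fin 2) (Fin 2) K) = M → u ^ 3 = D.Tg hd i h (g ^ 3) → 
      ∀ (S : Set (Fin 2 → K)), (∀ x ∈ S, ∀ c : K, c ≠ 0 → c • x ∈ S) → 
      (∀ n ≥ 1, ∀ x ∈ S, (M ^ n) *ᵥ x ∉ S) → 
      ∀ W, W ∈ D.good i → Q W ∈ S → ∀ n ≥ 1, Q (((act u) ^ (3 * n)) W) ∉ S := by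
    intro u g M hgM hu S hS1 hS2 W hW hWS n hn hcon
    have e1 : (act u) ^ (3 * n) = ((actH K (R × V2 m K)).comp (D.Tg hd i h)) (g ^ (3 * n)) := by
      rw [MonoidHom.comp_apply, pow_mul, pow_mul, map_pow (D.Tg hd i h), map_pow (actH K (R × V2 m K)), 
        ← hu, map_pow (actH K (R × V2 m K)), actH_apply]
    obtain ⟨c, hc0, hc⟩ := (hQ W hW).2 (g ^ (3 * n))
    rw [e1, hc] at hcon
    have h1 := hS1 _ hcon c⁻¹ (inv_ne_zero hc0)
    rw [smul_smul, inv_mul_cancel₀ hc0, one_smul] at h1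
    have e2 : ((g ^ (3 * n) : GL (Fin 2) K) : Matrix (Fin 2) (Fin 2) K) = M ^ (3 * n) := by
      rw [← hgM]; rfl
    rw [e2] at h1
    exact hS2 (3 * n) (by omega) _ hWS h1
  have kU := key (D.uu i h) D.gMu (Mu D.t) rfl (D.u_cube hd i h) (SB v D.t) (SB_smul v) 
    (fun n hn => ping_u v ht hv n hn)
  have kV := key (D.vv i h) D.gMv (Mv D.t) rfl (D.v_cube hd i h) (SA v D.t) (SA_smul v) 
    (fun n hn => ping_v v ht hv n hn)
  exact pingpong (act (D.uu i h) ^ 3) (act (D.vv i h) ^ 3) 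
    {W | W ∈ D.good i ∧ Q W ∈ SA v D.t} {W | W ∈ D.good i ∧ Q W ∈ SB v D.t} 
    (by
      rw [Set.disjoint_left]
      rintro W ⟨_, hWB⟩ ⟨W', ⟨hW'g, hW'B⟩, rfl⟩
      exact kU W' hW'g hW'B 1 le_rfl hWB)
    (by
      rw [Set.disjoint_left]
      rintro W ⟨_, hWB⟩ ⟨_, ⟨W', ⟨hW'g, hW'B⟩, rfl⟩, rfl⟩
      refine kU W' hW'g hW'B 2 (by omega) ?_
      have e3 : (act (D.uu i h) ^ (3 * 2)) W' = (act (D.uu i h) ^ 3) ((act (D.uu i h) ^ 3) W') := by
        rw [← Equiv.Perm.mul_apply, ← pow_add]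
      rw [e3]; exact hWB)
    (by
      rw [Set.disjoint_left]
      rintro W ⟨_, hWB⟩ ⟨W', ⟨hW'g, hW'B⟩, rfl⟩
      exact kV W' hW'g hW'B 1 le_rfl hWB)
    (by
      rw [Set.disjoint_left]
      rintro W ⟨_, hWB⟩ ⟨_, ⟨W', ⟨hW'g, hW'B⟩, rfl⟩, rfl⟩
      refine kV W' hW'g hW'B 2 (by omega) ?_
      have e3 : (act (D.vv i h) ^ (3 * 2)) W' = (act (D.vv i h) ^ 3) ((act (D.vv i h) ^ 3) W') := by
        rw [← Equiv.Perm.mul_apply, ← pow_add]
      rw [e3]; exact hWB)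
    f (fun W hW => by
      have hg : W ∈ D.good i := by
        by_contra hg
        exact hW (hf W hg)
      rcases cover v hv (Q W) (hQ W hg).1 with h1 | h1
      · exact Or.inl ⟨hg, h1⟩
      · exact Or.inr ⟨hg, h1⟩) ε hu hv'

theorem gap_i [IsAlgClosed K] {Γ : Type} [LinearOrderedCommGroupWithZero Γ] (v : Valuation K Γ) 
    (hv : v D.t < 1) (hd : D.d ^ 2 - 1 ≠ 0) (i : ℕ) (h : i + 2 < m) (f : L2 (Submodule K (R × V2 m K))) 
    (hf : ∀ W, W ∉ D.good i → f W = 0) : 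
      1 / 100 * ‖f‖ ≤ ‖f - sh (act (D.uu i h)) f‖ ∨ 1 / 100 * ‖f‖ ≤ ‖f - sh (act (D.vv i h)) f‖ := by
  by_contra hcon
  push Not at hcon
  obtain ⟨hu, hv'⟩ := hcon
  have hpp := D.gap_pp v hv hd i h f hf (3 / 100 * ‖f‖)
    (by
      refine le_trans (sh_pow_sub _ f 3) ?_
      push_cast
      linarith)
    (by
      refine le_trans (sh_pow_sub _ f 3) ?_
      push_cast
      linarith)
  have h0 : ‖f‖ = 0 := by
    have := norm_nonneg f
    linarith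
  rw [h0, mul_zero] at hu
  exact absurd hu (not_lt.2 (norm_nonneg _))

end TLD

end Pool.Agent.Y463.MP
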