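import Pool.Agent.Y463.MP.Ind

/-!
# Products of independent random letters with varying distributions

The exponential bound for lists of distributions: it is exponential in the number of disjoint pairs of
consecutive distributions (the sites) for which a spectral gap is known.
-/

set_option autoImplicit false

namespace Pool.Agent.Y463.MP

open Finset Pool.Agent.W705.JR

variable {K : Type} [Field K] {V : Type} [AddCommGroup V] [Module K V] {ι : Type} [Fintype ι]

/-- probability vectors -/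
def IsProb (q : ι → ℝ) : Prop := (∀ l, 0 ≤ q l) ∧ ∑ l, q l = 1

open Classical in
/-- the probability that the product of the random letters of the list maps `ξ` into `W` -/
noncomputable def hitL (g : ι → V ≃ₗ[K] V) (ξ : V) : List (ι → ℝ) → Submodule K V → ℝ
  | [], W => if ξ ∈ W then 1 else 0
  | (q :: L), W => ∑ l, q l * hitL g ξ L ((act (g l))⁻¹ W)

variable {g : ι → V ≃ₗ[K] V} {ξ : V}

theorem hitL_nonneg : ∀ (L : List (ι → ℝ)), (∀ q ∈ L, IsProb q) → ∀ (W : Submodule K V), 0 ≤ hitL g ξ L W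
  | [], _, W => by unfold hitL; split_ifs <;> norm_num
  | (q :: L), hL, W => by
    unfold hitL
    exact Finset.sum_nonneg fun l _ => mul_nonneg ((hL q List.mem_cons_self).1 l) 
      (hitL_nonneg L (fun q hq => hL q (List.mem_cons_of_mem _ hq)) _)

theorem hitL_le_one : ∀ (L : List (ι → ℝ)), (∀ q ∈ L, IsProb q) → ∀ (W : Submodule K V), hitL g ξ L W ≤ 1
  | [], _, W => by unfold hitL; split_ifs <;> norm_num
  | (q :: L), hL, W => by
    unfold hitL
    have hq := hL q List.mem_cons_self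
    calc ∑ l, q l * hitL g ξ L ((act (g l))⁻¹ W) ≤ ∑ l, q l * 1 := 
          Finset.sum_le_sum fun l _ => mul_le_mul_of_nonneg_left 
            (hitL_le_one L (fun q hq => hL q (List.mem_cons_of_mem _ hq)) _) (hq.1 l)
      _ = 1 := by simp [hq.2]

/-- Bonferroni -/
theorem bonferroniL {α : Type*} [DecidableEq α] :
    ∀ (L : List (ι → ℝ)), (∀ q ∈ L, IsProb q) → ∀ (F : Finset α) (s : α → Submodule K V),
      ∑ a ∈ F, hitL g ξ L (s a) ≤ 1 + ∑ a ∈ F, ∑ b ∈ F.erase a, hitL g ξ L (s a ⊓ s b)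
  | [], _, F, s => by
    classical
    unfold hitL
    have h1 : ∑ a ∈ F, (if ξ ∈ s a then (1:ℝ) else 0) = ((F.filter (fun a => ξ ∈ s a)).card : ℝ) := by
      rw [Finset.sum_ite, Finset.sum_const_zero, add_zero, Finset.sum_const, nsmul_eq_mul, mul_one]
    rw [h1]
    set J := F.filter (fun a => ξ ∈ s a) with hJ
    have h2 : ∑ a ∈ J, ∑ b ∈ J.erase a, (1:ℝ) ≤ 
        ∑ a ∈ F, ∑ b ∈ F.erase a, (if ξ ∈ s a ⊓ s b then (1:ℝ) else 0) := by
      have e1 : ∑ a ∈ J, ∑ b ∈ F.erase a, (if ξ ∈ s a ⊓ s b then (1:ℝ) else 0) ≤ 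
          ∑ a ∈ F, ∑ b ∈ F.erase a, (if ξ ∈ s a ⊓ s b then (1:ℝ) else 0) := 
        Finset.sum_le_sum_of_subset_of_nonneg (Finset.filter_subset _ _) 
          (fun a _ _ => Finset.sum_nonneg fun b _ => by split_ifs <;> norm_num)
      refine le_trans ?_ e1
      refine Finset.sum_le_sum fun a ha => ?_
      have e2 : ∑ b ∈ J.erase a, (if ξ ∈ s a ⊓ s b then (1:ℝ) else 0) ≤ 
          ∑ b ∈ F.erase a, (if ξ ∈ s a ⊓ s b then (1:ℝ) else 0) := 
        Finset.sum_le_sum_of_subset_of_nonneg (Finset.erase_subset_erase _ (Finset.filter_subset _ _))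
          (fun b _ _ => by split_ifs <;> norm_num)
      refine le_trans (le_of_eq ?_) e2
      refine Finset.sum_congr rfl fun b hb => ?_
      have hb' := Finset.mem_of_mem_erase hb
      rw [hJ, Finset.mem_filter] at ha hb'
      rw [if_pos ⟨ha.2, hb'.2⟩]
    have h3 : ∑ a ∈ J, ∑ b ∈ J.erase a, (1:ℝ) = (J.card : ℝ) * ((J.card : ℝ) - 1) := by
      have : ∀ a ∈ J, ∑ b ∈ J.erase a, (1:ℝ) = (J.card : ℝ) - 1 := by
        intro a ha
        rw [Finset.sum_const, nsmul_eq_mul, mul_one, Finset.card_erase_of_mem ha, Nat.cast_sub 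
          (Finset.card_pos.2 ⟨a, ha⟩)]
        simp
      rw [Finset.sum_congr rfl this, Finset.sum_const, nsmul_eq_mul]
    rw [h3] at h2
    nlinarith [sq_nonneg ((J.card : ℝ) - 1)]
  | (q :: L), hL, F, s => by
    unfold hitL
    have hq := hL q List.mem_cons_self
    have hL' : ∀ q ∈ L, IsProb q := fun q hq => hL q (List.mem_cons_of_mem _ hq)
    have h1 : ∑ a ∈ F, ∑ l, q l * hitL g ξ L ((act (g l))⁻¹ (s a)) = 
        ∑ l, q l * ∑ a ∈ F, hitL g ξ L ((act (g l))⁻¹ (s a)) := by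
      rw [Finset.sum_comm]
      exact Finset.sum_congr rfl fun l _ => by rw [Finset.mul_sum]
    have h2 : ∑ a ∈ F, ∑ b ∈ F.erase a, ∑ l, q l * hitL g ξ L ((act (g l))⁻¹ (s a ⊓ s b)) = 
        ∑ l, q l * ∑ a ∈ F, ∑ b ∈ F.erase a, hitL g ξ L ((act (g l))⁻¹ (s a) ⊓ (act (g l))⁻¹ (s b)) := by
      have e1 : ∀ a ∈ F, ∑ b ∈ F.erase a, ∑ l, q l * hitL g ξ L ((act (g l))⁻¹ (s a ⊓ s b)) = 
          ∑ l, q l * ∑ b ∈ F.erase a, hitL g ξ L ((act (g l))⁻¹ (s a) ⊓ (act (g l))⁻¹ (s b)) := by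
        intro a _
        rw [Finset.sum_comm]
        exact Finset.sum_congr rfl fun l _ => by rw [Finset.mul_sum]; rfl
      rw [Finset.sum_congr rfl e1, Finset.sum_comm]
      exact Finset.sum_congr rfl fun l _ => by rw [Finset.mul_sum]
    rw [h1, h2]
    have h3 : (1:ℝ) + ∑ l, q l * ∑ a ∈ F, ∑ b ∈ F.erase a, 
        hitL g ξ L ((act (g l))⁻¹ (s a) ⊓ (act (g l))⁻¹ (s b)) = 
        ∑ l, q l * (1 + ∑ a ∈ F, ∑ b ∈ F.erase a, 
          hitL g ξ L ((act (g l))⁻¹ (s a) ⊓ (act (g l))⁻¹ (s b))) := by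
      simp only [mul_add, mul_one, Finset.sum_add_distrib, hq.2]
    rw [h3]
    exact Finset.sum_le_sum fun l _ => mul_le_mul_of_nonneg_left 
      (bonferroniL L hL' F (fun a => (act (g l))⁻¹ (s a))) (hq.1 l)

/-- the list contains `k` disjoint sites -/
inductive Con (Site : (ι → ℝ) → (ι → ℝ) → Prop) : List (ι → ℝ) → ℕ → Prop
  | nil : Con Site [] 0
  | cons {L : List (ι → ℝ)} {k : ℕ} (q : ι → ℝ) : Con Site L k → Con Site (q :: L) k
  | site {L : List (ι → ℝ)} {k : ℕ} (q q' : ι → ℝ) : Site q q' → Con Site L k → 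
      Con Site (q :: q' :: L) (k + 1)

variable {Site : (ι → ℝ) → (ι → ℝ) → Prop}

theorem Con.zero : ∀ L : List (ι → ℝ), Con Site L 0
  | [] => Con.nil
  | (q :: L) => Con.cons q (Con.zero L)

theorem Con.drop {L : List (ι → ℝ)} {k : ℕ} (h : Con Site L k) : ∀ j ≤ k, Con Site L j := by
  induction h with
  | nil => intro j hj; obtain rfl : j = 0 := by omega
           exact Con.nil
  | cons q _ ih => intro j hj; exact Con.cons q (ih j hj)
  | @site L k q q' hs _ ih =>
    intro j hj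
    rcases Nat.lt_or_ge k j with h1 | h1
    · obtain rfl : j = k + 1 := by omega
      exact Con.site q q' hs (ih k le_rfl)
    · exact Con.cons q (Con.cons q' (ih j h1))

theorem Con.split {L : List (ι → ℝ)} {k : ℕ} (h : Con Site L k) : ∀ a b, a + b = k → 
    ∃ L1 L2, L = L1 ++ L2 ∧ Con Site L1 a ∧ Con Site L2 b := by
  induction h with
  | nil => 
    intro a b hab
    obtain rfl : a = 0 := by omega
    obtain rfl : b = 0 := by omega
    exact ⟨[], [], rfl, Con.nil, Con.nil⟩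
  | cons q _ ih =>
    intro a b hab
    obtain ⟨L1, L2, rfl, h1, h2⟩ := ih a b hab
    exact ⟨q :: L1, L2, rfl, Con.cons q h1, h2⟩
  | @site L k q q' hs hL ih =>
    intro a b hab
    rcases Nat.eq_zero_or_pos a with ha | ha
    · subst ha
      obtain rfl : b = k + 1 := by omega
      exact ⟨[], q :: q' :: L, rfl, Con.nil, Con.site q q' hs hL⟩
    · obtain ⟨a', rfl⟩ : ∃ a', a = a' + 1 := ⟨a - 1, by omega⟩
      obtain ⟨L1, L2, rfl, h1, h2⟩ := ih a' b (by omega)
      exact ⟨q :: q' :: L1, L2, rfl, Con.site q q' hs h1, h2⟩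

/-- the product of the averages -/
noncomputable def avgL (σ : ι → Equiv.Perm (Submodule K V)) : List (ι → ℝ) → L2 (Submodule K V) → 
    L2 (Submodule K V)
  | [], f => f
  | (q :: L), f => avg q σ (avgL σ L f)

theorem avg_norm_le {X : Type*} {q : ι → ℝ} (hq : IsProb q) (σ : ι → Equiv.Perm X) (f : L2 X) : 
    ‖avg q σ f‖ ≤ ‖f‖ := by
  unfold avg
  refine (norm_sum_le _ _).trans ?_
  calc ∑ l, ‖q l • sh (σ l) f‖ = ∑ l, q l * ‖f‖ := by
        refine Finset.sum_congr rfl fun l _ => ?_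
        rw [norm_smul, sh_norm, Real.norm_of_nonneg (hq.1 l)]
    _ = ‖f‖ := by rw [← Finset.sum_mul, hq.2, one_mul]
    _ ≤ _ := le_rfl

section main

variable (N : Set (Submodule K V)) (hN : ∀ W, ∀ l, (act (g l))⁻¹ W ∈ N → W ∈ N)
include hN

theorem avg_supp (q : ι → ℝ) (f : L2 (Submodule K V)) (hf : ∀ W, W ∉ N → f W = 0) : 
    ∀ W, W ∉ N → avg q (fun l => act (g l)) f W = 0 := by
  intro W hW
  rw [avg_apply]
  refine Finset.sum_eq_zero fun l _ => ?_
  rw [hf _ (fun h => hW (hN W l h)), mul_zero]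

theorem avgL_supp (f : L2 (Submodule K V)) (hf : ∀ W, W ∉ N → f W = 0) : 
    ∀ (L : List (ι → ℝ)) (W : Submodule K V), W ∉ N → avgL (fun l => act (g l)) L f W = 0
  | [] => hf
  | (q :: L) => avg_supp N hN q _ (avgL_supp f hf L)

variable (ρ : ℝ) (hρ0 : 0 ≤ ρ) (hρ : ∀ q q', Site q q' → ∀ f : L2 (Submodule K V), 
  (∀ W, W ∉ N → f W = 0) → 
    ‖avg q (fun l => act (g l)) (avg q' (fun l => act (g l)) f)‖ ≤ ρ * ‖f‖)
include hρ0 hρ

theorem avgL_norm (f : L2 (Submodule K V)) (hf : ∀ W, W ∉ N → f W = 0) {L : List (ι → ℝ)} {k : ℕ} 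
    (h : Con Site L k) (hL : ∀ q ∈ L, IsProb q) : ‖avgL (fun l => act (g l)) L f‖ ≤ ρ ^ k * ‖f‖ := by
  induction h with
  | nil => rw [pow_zero, one_mul]; exact le_rfl
  | cons q _ ih => 
    exact (avg_norm_le (hL q List.mem_cons_self) _ _).trans 
      (ih (fun q hq => hL q (List.mem_cons_of_mem _ hq)))
  | @site L k q q' hs _ ih =>
    have h1 := ih (fun q hq => hL q (List.mem_cons_of_mem _ (List.mem_cons_of_mem _ hq)))
    refine (hρ q q' hs (avgL (fun l => act (g l)) L f) (avgL_supp N hN f hf L)).trans ?_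
    calc ρ * ‖avgL (fun l => act (g l)) L f‖ ≤ ρ * (ρ ^ k * ‖f‖) := mul_le_mul_of_nonneg_left h1 hρ0
      _ = _ := by rw [pow_succ']; ring

/-- the step of the induction -/
theorem coreL [FiniteDimensional K V] (𝒲 : Set (Submodule K V)) 
    (h𝒲 : ∀ W ∈ 𝒲, ∀ l, (act (g l))⁻¹ W ∈ 𝒲) (h𝒲' : ∀ W ∈ 𝒲, ∀ W' ≤ W, W' ∈ 𝒲)
    (hN' : ∀ W ∈ 𝒲, W ∉ N → ∀ L, hitL g ξ L W = 0) 
    (d k : ℕ) (τ c : ℝ) (hτ : 0 < τ) (hc : 0 ≤ c) (hcτ : 9 * c ≤ τ ^ 2)
    (L1 L2' : List (ι → ℝ)) (hL1 : ∀ q ∈ L1, IsProb q) (hL2 : ∀ q ∈ L2', IsProb q) 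
    (hC1 : Con Site L1 k) 
    (hd : ∀ W ∈ 𝒲, Module.finrank K W ≤ d → hitL g ξ L2' W ≤ c) 
    (W : Submodule K V) (hW : W ∈ 𝒲) (hWd : Module.finrank K W = d + 1) :
    hitL g ξ (L1 ++ L2') W ≤ τ + √2 * ρ ^ k := by
  classical
  -- the set of the subspaces with large probability
  set Fτ : Set (Submodule K V) := {W | W ∈ 𝒲 ∧ Module.finrank K W = d + 1 ∧ τ < hitL g ξ L2' W} with hF
  have h1 : ∀ F : Finset (Submodule K V), (∀ W ∈ F, W ∈ Fτ) → ∑ W ∈ F, hitL g ξ L2' W ≤ 2 := by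
    intro F
    induction F using Finset.induction_on with
    | empty => intro _; simp
    | insert a F ha ih =>
      intro hF2
      have ih' := ih (fun W hW => hF2 W (Finset.mem_insert_of_mem hW))
      have haF := hF2 a (Finset.mem_insert_self a F)
      have hτ1 : τ < 1 := lt_of_lt_of_le haF.2.2 (hitL_le_one L2' hL2 a)
      have hcard : (F.card : ℝ) * τ ≤ 2 := by
        refine le_trans ?_ ih'
        rw [← nsmul_eq_mul]
        exact Finset.card_nsmul_le_sum F _ τ (fun W hW => 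
          (hF2 W (Finset.mem_insert_of_mem hW)).2.2.le)
      have hb := bonferroniL (g := g) (ξ := ξ) L2' hL2 (insert a F) (fun W => W)
      have hpair : ∑ W ∈ insert a F, ∑ W' ∈ (insert a F).erase W, hitL g ξ L2' (W ⊓ W') ≤ 
          ∑ W ∈ insert a F, ∑ W' ∈ insert a F, c := by
        refine Finset.sum_le_sum fun W hW => ?_
        have e1 : ∑ W' ∈ (insert a F).erase W, hitL g ξ L2' (W ⊓ W') ≤ 
            ∑ W' ∈ (insert a F).erase W, c := by
          refine Finset.sum_le_sum fun W' hW' => ?_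
          have hne := Finset.ne_of_mem_erase hW'
          have hW1 := hF2 W hW
          have hW2 := hF2 W' (Finset.mem_of_mem_erase hW')
          apply hd _ (h𝒲' W hW1.1 _ inf_le_left)
          have hlt : W ⊓ W' < W := by
            refine lt_of_le_of_ne inf_le_left fun he => hne ?_
            have hle : W ≤ W' := inf_eq_left.1 he
            exact (Submodule.eq_of_le_of_finrank_eq hle (by rw [hW1.2.1, hW2.2.1])).symm
          have := Submodule.finrank_lt_finrank_of_lt hlt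
          rw [hW1.2.1] at this
          omega
        exact le_trans e1 (Finset.sum_le_sum_of_subset_of_nonneg (Finset.erase_subset _ _) 
          (fun _ _ _ => hc))
      rw [Finset.sum_const, Finset.sum_const, nsmul_eq_mul, nsmul_eq_mul, 
        Finset.card_insert_of_notMem ha] at hpair
      push_cast at hpair
      have hn : ((F.card : ℝ) + 1) * τ ≤ 3 := by nlinarith
      have hn2 : (((F.card : ℝ) + 1) * τ) ^ 2 ≤ 9 := by
        have : 0 ≤ ((F.card : ℝ) + 1) * τ := by positivity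
        nlinarith
      have hn3 : 9 * (((F.card : ℝ) + 1) * (((F.card : ℝ) + 1) * c)) ≤ 9 := by
        have : ((F.card : ℝ) + 1) ^ 2 * (9 * c) ≤ ((F.card : ℝ) + 1) ^ 2 * τ ^ 2 := 
          mul_le_mul_of_nonneg_left hcτ (by positivity)
        nlinarith
      linarith
  have hfin : Fτ.Finite := by
    by_contra hinf
    have hinf : Fτ.Infinite := hinf
    obtain ⟨n, hn⟩ := exists_nat_gt (2 / τ)
    obtain ⟨F, hF1, hF2⟩ := hinf.exists_subset_card_eq n
    have h2 := h1 F (fun W hW => hF1 hW)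
    have h3 : (F.card : ℝ) * τ ≤ 2 := by
      refine le_trans ?_ h2
      rw [← nsmul_eq_mul]
      exact Finset.card_nsmul_le_sum F _ τ (fun W hW => (hF1 hW).2.2.le)
    rw [hF2] at h3
    rw [div_lt_iff₀ hτ] at hn
    linarith
  -- the function φ
  have hsum : Summable fun W => (if W ∈ Fτ then hitL g ξ L2' W else 0) ^ 2 := by
    refine summable_of_ne_finset_zero (s := hfin.toFinset) fun W hW => ?_
    rw [if_neg (fun h => hW (hfin.mem_toFinset.2 h))]
    simp
  let φ : L2 (Submodule K V) := ⟨fun W => if W ∈ Fτ then hitL g ξ L2' W else 0, mem_of_summable hsum⟩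
  have hφ : ∀ W, φ W = if W ∈ Fτ then hitL g ξ L2' W else 0 := fun W => rfl
  have hφn : ‖φ‖ ≤ √2 := by
    have e1 : ‖φ‖ ^ 2 ≤ 2 := by
      rw [norm_sq, tsum_eq_sum (s := hfin.toFinset) (fun W hW => by
        rw [hφ, if_neg (fun h => hW (hfin.mem_toFinset.2 h))]; simp)]
      refine le_trans (Finset.sum_le_sum (g := fun W => hitL g ξ L2' W) fun W hW => ?_) 
        (h1 hfin.toFinset (fun W hW => hfin.mem_toFinset.1 hW))
      rw [hφ, if_pos (hfin.mem_toFinset.1 hW)]
      have e2 := hitL_nonneg (g := g) (ξ := ξ) L2' hL2 W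
      have e3 := hitL_le_one (g := g) (ξ := ξ) L2' hL2 W
      nlinarith
    exact Real.le_sqrt_of_sq_le e1
  have hsupp : ∀ W, W ∉ N → φ W = 0 := by
    intro W hW
    rw [hφ]
    split_ifs with h
    · exact hN' W h.1 hW L2'
    · rfl
  have hnorm := avgL_norm N hN ρ hρ0 hρ φ hsupp hC1 hL1
  have hmain : ∀ (L : List (ι → ℝ)), (∀ q ∈ L, IsProb q) → ∀ W ∈ 𝒲, Module.finrank K W = d + 1 → 
      hitL g ξ (L ++ L2') W ≤ τ + (avgL (fun l => act (g l)) L φ) W := by
    intro L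
    induction L with
    | nil =>
      intro _ W hW hWd
      show hitL g ξ L2' W ≤ τ + φ W
      rw [hφ]
      split_ifs with h
      · linarith
      · rw [add_zero]
        by_contra hcon
        exact h ⟨hW, hWd, not_le.1 hcon⟩
    | cons q L ih =>
      intro hL W hW hWd
      have hq := hL q List.mem_cons_self
      have hL' : ∀ q ∈ L, IsProb q := fun q hq => hL q (List.mem_cons_of_mem _ hq)
      have e0 : avgL (fun l => act (g l)) (q :: L) φ = 
        avg q (fun l => act (g l)) (avgL (fun l => act (g l)) L φ) := rfl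
      have e1 : hitL g ξ ((q :: L) ++ L2') W = ∑ l, q l * hitL g ξ (L ++ L2') ((act (g l))⁻¹ W) := rfl
      have e2 : τ = ∑ l, q l * τ := by rw [← Finset.sum_mul, hq.2, one_mul]
      rw [e0, avg_apply, e1]
      calc ∑ l, q l * hitL g ξ (L ++ L2') ((act (g l))⁻¹ W) 
          ≤ ∑ l, q l * (τ + (avgL (fun l => act (g l)) L φ) ((act (g l))⁻¹ W)) := 
            Finset.sum_le_sum fun l _ => mul_le_mul_of_nonneg_left 
              (ih hL' _ (h𝒲 W hW l) (by rw [act_inv_finrank, hWd])) (hq.1 l)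
        _ = _ := by
            simp only [mul_add, Finset.sum_add_distrib]
            rw [← e2]
  have h5 := hmain L1 hL1 W hW hWd
  have h6 : (avgL (fun l => act (g l)) L1 φ) W ≤ ‖avgL (fun l => act (g l)) L1 φ‖ := by
    have := lp.norm_apply_le_norm (p := 2) (by norm_num) (avgL (fun l => act (g l)) L1 φ) W
    exact le_trans (le_abs_self _) this
  have h7 : ρ ^ k * ‖φ‖ ≤ ρ ^ k * √2 := mul_le_mul_of_nonneg_left hφn (by positivity)
  linarith [mul_comm (√2) (ρ ^ k)]

end main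

/-- exponential decay -/
theorem hitL_decay (ρ : ℝ) (hρ1 : ρ < 1) (d : ℕ) :
    ∃ C r : ℝ, 0 ≤ C ∧ 0 < r ∧ r < 1 ∧ ∀ {ι : Type} [Fintype ι] {K : Type} [Field K] 
      {V : Type} [AddCommGroup V] [Module K V] [FiniteDimensional K V] {g : ι → V ≃ₗ[K] V} {ξ : V}
      {Site : (ι → ℝ) → (ι → ℝ) → Prop} (N : Set (Submodule K V)) 
      (_ : ∀ W, ∀ l, (act (g l))⁻¹ W ∈ N → W ∈ N) (_ : ⊥ ∉ N) (_ : 0 ≤ ρ)
      (_ : ∀ q q', Site q q' → ∀ f : L2 (Submodule K V), (∀ W, W ∉ N → f W = 0) → 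
        ‖avg q (fun l => act (g l)) (avg q' (fun l => act (g l)) f)‖ ≤ ρ * ‖f‖), 
      ∀ 𝒲 : Set (Submodule K V), 
      (∀ W ∈ 𝒲, ∀ l, (act (g l))⁻¹ W ∈ 𝒲) → (∀ W ∈ 𝒲, ∀ W' ≤ W, W' ∈ 𝒲) → 
      (∀ W ∈ 𝒲, W ∉ N → ∀ L, hitL g ξ L W = 0) → 
      ∀ W ∈ 𝒲, Module.finrank K W ≤ d → ∀ (L : List (ι → ℝ)) (k : ℕ), (∀ q ∈ L, IsProb q) → 
        Con Site L k → hitL g ξ L W ≤ C * r ^ k := by
  induction d with
  | zero =>
    refine ⟨1, 1 / 2, by norm_num, by norm_num, by norm_num, ?_⟩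
    intro ι _ K _ V _ _ _ g ξ Site N hN hbot hρ0 hρ 𝒲 _ _ hN' W hW hd L k _ _
    have : W = ⊥ := Submodule.finrank_eq_zero.1 (Nat.le_zero.1 hd)
    subst this
    rw [hN' _ hW hbot L]
    positivity
  | succ d ih =>
    obtain ⟨C, r, hC, hr0, hr1, ih⟩ := ih
    set s : ℝ := max (max (√r) ρ) (1 / 2) with hsdef
    have hs1 : s < 1 := by
      refine max_lt (max_lt ?_ hρ1) (by norm_num)
      rw [Real.sqrt_lt' one_pos]; simpa using hr1
    have hs2 : 1 / 2 ≤ s := le_max_right _ _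
    have hs3 : √r ≤ s := le_trans (le_max_left _ _) (le_max_left _ _)
    have hs4 : ρ ≤ s := le_trans (le_max_right _ _) (le_max_left _ _)
    have hs5 : r ≤ s ^ 2 := by
      calc r = √r ^ 2 := (Real.sq_sqrt hr0.le).symm
        _ ≤ s ^ 2 := by gcongr
    set KK : ℝ := 3 * √(C + 1) + √2 with hK
    have hK0 : 0 ≤ KK := by positivity
    set r' : ℝ := √s with hr'
    have hr'2 : r' ^ 2 = s := Real.sq_sqrt (by linarith)
    have hr'0 : 0 < r' := Real.sqrt_pos.2 (by linarith)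
    have hr'1 : r' < 1 := by
      rw [hr', Real.sqrt_lt' one_pos]; simpa using hs1
    have hr'3 : 1 / 2 ≤ r' := by
      by_contra h
      push Not at h
      nlinarith
    have hr'4 : r ≤ r' := by nlinarith
    refine ⟨C + 2 * KK, r', by positivity, hr'0, hr'1, ?_⟩
    intro ι _ K _ V _ _ _ g ξ Site N hN hbot hρ0 hρ 𝒲 h𝒲 h𝒲' hN' W hW hWd L n hL hCon
    rcases Nat.lt_or_ge (Module.finrank K W) (d + 1) with hlt | hge
    · have h1 := ih (g := g) (ξ := ξ) N hN hbot hρ0 hρ 𝒲 h𝒲 h𝒲' hN' W hW (by omega) L n hL hCon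
      refine le_trans h1 ?_
      have h2 : r ^ n ≤ r' ^ n := by gcongr
      have h3 : 0 ≤ r' ^ n := by positivity
      nlinarith [mul_le_mul_of_nonneg_left h2 hC, mul_nonneg hK0 h3]
    · have hWd' : Module.finrank K W = d + 1 := by omega
      have heven : ∀ k, Con Site L (2 * k) → hitL g ξ L W ≤ KK * s ^ k := by
        intro k hCk
        obtain ⟨L1, L2', rfl, hC1, hC2⟩ := hCk.split k k (by ring)
        have hL1 : ∀ q ∈ L1, IsProb q := fun q hq => hL q (List.mem_append_left _ hq)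
        have hL2 : ∀ q ∈ L2', IsProb q := fun q hq => hL q (List.mem_append_right _ hq)
        have h1 := coreL (g := g) (ξ := ξ) N hN ρ hρ0 hρ 𝒲 h𝒲 h𝒲' hN' d k 
          (3 * √(C + 1) * s ^ k) (C * r ^ k) (by positivity) (by positivity) (by
            have e1 : (3 * √(C + 1) * s ^ k) ^ 2 = 9 * (C + 1) * (s ^ 2) ^ k := by
              rw [mul_pow, mul_pow, Real.sq_sqrt (by linarith)]; ring
            rw [e1]
            have e2 : r ^ k ≤ (s ^ 2) ^ k := by gcongr
            have e3 : 0 ≤ (s ^ 2) ^ k := by positivity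
            nlinarith [mul_le_mul_of_nonneg_left e2 hC]) L1 L2' hL1 hL2 hC1
          (fun W hW hd => ih (g := g) (ξ := ξ) N hN hbot hρ0 hρ 𝒲 h𝒲 h𝒲' hN' W hW hd L2' k hL2 hC2) 
          W hW hWd'
        refine le_trans h1 ?_
        have h2 : ρ ^ k ≤ s ^ k := by gcongr
        have h3 := mul_le_mul_of_nonneg_left h2 (Real.sqrt_nonneg 2)
        rw [hK]
        linarith
      have hr'5 : ∀ k, s ^ k = r' ^ (2 * k) := fun k => by rw [pow_mul, hr'2]
      rcases Nat.even_or_odd' n with ⟨k, rfl | rfl⟩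
      · refine le_trans (heven k hCon) ?_
        rw [hr'5]
        have : 0 ≤ r' ^ (2 * k) := by positivity
        nlinarith [mul_nonneg hK0 this, mul_nonneg hC this]
      · refine le_trans (heven k (hCon.drop (2 * k) (by omega))) ?_
        rw [hr'5, pow_succ]
        have h3 : 0 ≤ r' ^ (2 * k) := by positivity
        have h4 : KK * r' ^ (2 * k) ≤ 2 * KK * (r' ^ (2 * k) * r') := by
          nlinarith [mul_nonneg hK0 h3]
        have h5 : 0 ≤ C * (r' ^ (2 * k) * r') := by positivity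
        nlinarith

end Pool.Agent.Y463.MP
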