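import Pool.Agent.Y463.MP.Gap
import Pool.Agent.W705.JR.Main

/-!
# The uniform exponential bound

This follows `Pool.Agent.W705.JR.Main` (starting library).
-/

set_option autoImplicit false

namespace Pool.Agent.Y463.MP

open Finset Matrix Pool.Agent.H891R2.Jones Pool.Agent.W639.RB 
open Pool.Agent.W705.JR (inv' sw idx_lt L2 sh sh_mul sh_norm sh_sub res res_apply res_inv avg avg_gap 
  norm_le_sum inv_inv')

variable {m : ℕ} {K R : Type} [Field K] [Ring R] [Algebra K R]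

namespace TLD

variable (D : TLD m K R)

theorem d_ne {Γ : Type} [LinearOrderedCommGroupWithZero Γ] (v : Valuation K Γ) 
    (hv : v D.t < 1) : D.d ^ 2 - 1 ≠ 0 := by
  intro h0
  have ht := D.t_ne
  have h1 : (1 : K) = -(D.t ^ 2 * (D.t ^ 2 + 1)) := by
    unfold d at h0
    field_simp at h0
    linear_combination h0
  have h2 : v (D.t ^ 2) < 1 := by
    rw [map_pow]
    exact pow_lt_one₀ zero_le hv two_ne_zero
  have h3 : v (D.t ^ 2 + 1) ≤ 1 := by
    refine (Valuation.map_add v _ _).trans (max_le h2.le ?_)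
    rw [map_one]
  have h4 : v (1 : K) = v (D.t ^ 2) * v (D.t ^ 2 + 1) := by
    conv_lhs => rw [h1]
    rw [Valuation.map_neg, map_mul]
  rw [map_one] at h4
  have h5 : v (D.t ^ 2) * v (D.t ^ 2 + 1) ≤ v (D.t ^ 2) * 1 := mul_le_mul_right h3 _
  rw [← h4, mul_one] at h5
  exact absurd h5 (not_le.2 h2)

theorem good_act (i : ℕ) (x : Letter m) (hx : (x.2 : ℕ) = i ∨ (x.2 : ℕ) = i + 1) 
    (W : Submodule K (R × V2 m K)) : act (D.gg x) W ∈ D.good i ↔ W ∈ D.good i := by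
  have h1 : act (D.gg x) = (act (D.gg (inv' x)))⁻¹ := by
    rw [← act_symm, ← D.gg_inv', inv_inv']
  have h2 : ((inv' x).2 : ℕ) ∈ ({i, i+1} : Set ℕ) := by
    show (x.2 : ℕ) ∈ ({i, i+1} : Set ℕ)
    simpa using hx
  rw [h1]
  unfold good
  rw [Set.mem_ofPred_eq, Set.mem_ofPred_eq, D.Stab_act_iff _ _ h2]

theorem good_u (i : ℕ) (h : i + 2 < m) (W : Submodule K (R × V2 m K)) : 
    act (D.uu i h) W ∈ D.good i ↔ W ∈ D.good i := by
  have h1 : act (D.uu i h) W = act (D.gg (lt (i+1) h true)) (act (D.gg (lt i (by omega) false)) W) := by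
    unfold uu
    rw [← actH_apply, map_mul]; rfl
  rw [h1, D.good_act i _ (Or.inr rfl), D.good_act i _ (Or.inl rfl)]

theorem good_v (i : ℕ) (h : i + 2 < m) (W : Submodule K (R × V2 m K)) : 
    act (D.vv i h) W ∈ D.good i ↔ W ∈ D.good i := by
  have h1 : act (D.vv i h) W = act (D.gg (lt i (by omega) false)) (act (D.gg (lt (i+1) h true)) W) := by
    unfold vv
    rw [← actH_apply, map_mul]; rfl
  rw [h1, D.good_act i _ (Or.inl rfl), D.good_act i _ (Or.inr rfl)]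

theorem sh_u (i : ℕ) (h : i + 2 < m) (f : L2 (Submodule K (R × V2 m K))) : 
    ‖sh (act (D.gg (lt (i+1) h false))) f - sh (act (D.gg (lt i (by omega) false))) f‖ = 
      ‖f - sh (act (D.uu i h)) f‖ := by
  have h1 : act (D.uu i h) = (act (D.gg (lt (i+1) h false)))⁻¹ * act (D.gg (lt i (by omega) false)) := by
    unfold uu
    rw [← actH_apply, map_mul, actH_apply, actH_apply]
    congr 1
    have : lt (m := m) (i+1) h true = inv' (lt (i+1) h false) := rfl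
    rw [this, D.gg_inv', act_symm]
  rw [h1, ← sh_norm (act (D.gg (lt (i+1) h false))) (f - _), sh_sub, ← sh_mul, mul_inv_cancel_left]

theorem sh_v (i : ℕ) (h : i + 2 < m) (f : L2 (Submodule K (R × V2 m K))) : 
    ‖sh (act (D.gg (lt i (by omega) true))) f - sh (act (D.gg (lt (i+1) h true))) f‖ = 
      ‖f - sh (act (D.vv i h)) f‖ := by
  have h1 : act (D.vv i h) = (act (D.gg (lt i (by omega) true)))⁻¹ * act (D.gg (lt (i+1) h true)) := by
    unfold vv
    rw [← actH_apply, map_mul, actH_apply, actH_apply]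
    congr 1
    have : lt (m := m) i (by omega) false = inv' (lt i (by omega) true) := rfl
    rw [this, D.gg_inv', act_symm]
  rw [h1, ← sh_norm (act (D.gg (lt i (by omega) true))) (f - _), sh_sub, ← sh_mul, mul_inv_cancel_left]

end TLD

/-- the constant of the spectral gap -/
noncomputable def rho (m : ℕ) (ε : ℝ) : ℝ := √(max (1 - ε ^ 2 * (1 / 100 / m) ^ 2) 0)

theorem rho_lt {m : ℕ} (hm : 0 < m) {ε : ℝ} (hε : 0 < ε) : rho m ε < 1 := by
  have hm0 : (0:ℝ) < m := by exact_mod_cast hm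
  unfold rho
  rw [Real.sqrt_lt' one_pos, one_pow]
  refine max_lt ?_ one_pos
  have : 0 < ε ^ 2 * (1 / 100 / (m:ℝ)) ^ 2 := by positivity
  linarith

theorem TLD.gap [IsAlgClosed K] {Γ : Type} [LinearOrderedCommGroupWithZero Γ] (D : TLD m K R) 
    (v : Valuation K Γ) (hv : v D.t < 1) (hm : 3 ≤ m) (p : Letter m → ℝ) (ε : ℝ) (hε0 : 0 < ε) 
    (hp : ∀ l, ε ≤ p l) (hs : ∑ l, p l = 1) (f : L2 (Submodule K (R × V2 m K)))
    (hf : ∀ W, W ∉ {W : Submodule K (R × V2 m K) | ¬ D.Stab Set.univ W} → f W = 0) : 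
        ‖avg p (fun l => act (D.gg l)) f‖ ≤ rho m ε * ‖f‖ := by
  classical
  have hd := D.d_ne v hv
  have hp' : ∀ l, 0 < p l := fun l => lt_of_lt_of_le hε0 (hp l)
  have h1 : ∀ i : Fin (m - 2), ∀ f : L2 (Submodule K (R × V2 m K)), 
    (∀ W, W ∉ D.good (i : ℕ) → f W = 0) → 
      1 / 100 * ‖f‖ ≤ ‖f - sh (act (D.uu (i : ℕ) (by omega))) f‖ ∨ 
      1 / 100 * ‖f‖ ≤ ‖f - sh (act (D.vv (i : ℕ) (by omega))) f‖ := 
    fun i f hf => D.gap_i v hv hd i (by omega) f hf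
  have : Nonempty (Fin (m - 2)) := ⟨⟨0, by omega⟩⟩
  have : Nonempty (Letter m) := ⟨(true, ⟨0, by omega⟩)⟩
  have hm0 : (0:ℝ) < m := by
    have : 0 < m := by omega
    exact_mod_cast this
  set c' : ℝ := 1 / 100 / m with hc'
  have hc'0 : 0 < c' := div_pos (by norm_num) hm0
  -- choose a place
  have hcov : ∀ W, f W ≠ 0 → ∃ i : Fin (m - 2), W ∈ D.good (i : ℕ) := by
    intro W hW
    by_contra hcon
    push Not at hcon
    apply hW
    apply hf
    intro hN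
    apply hN
    intro j _ hjm v hv
    by_cases hj : j + 2 < m
    · have h2 := hcon ⟨j, by omega⟩
      unfold TLD.good at h2
      rw [Set.mem_ofPred_eq, not_not] at h2
      exact h2 j (by simp) hjm v hv
    · have h2 := hcon ⟨j - 1, by omega⟩
      unfold TLD.good at h2
      rw [Set.mem_ofPred_eq, not_not] at h2
      exact h2 j (by
        have : j = (j - 1) + 1 := by omega
        right; exact this) hjm v hv
  have h2 := norm_le_sum (fun i : Fin (m - 2) => D.good (i : ℕ)) f hcov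
  obtain ⟨i, hi⟩ : ∃ i : Fin (m - 2), ‖f‖ ^ 2 ≤ m * ‖res (D.good (i : ℕ)) f‖ ^ 2 := by
    by_contra hcon
    push Not at hcon
    have h3 : (m : ℝ) * ∑ i : Fin (m - 2), ‖res (D.good (i : ℕ)) f‖ ^ 2 < 
        ∑ i : Fin (m - 2), ‖f‖ ^ 2 := by
      rw [Finset.mul_sum]
      exact Finset.sum_lt_sum_of_nonempty Finset.univ_nonempty (fun i _ => hcon i)
    rw [Finset.sum_const, Finset.card_univ, Fintype.card_fin, nsmul_eq_mul] at h3
    have h4 : ((m - 2 : ℕ) : ℝ) ≤ m := by exact_mod_cast Nat.sub_le m 2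
    have h5 := sq_nonneg ‖f‖
    have h6 := mul_le_mul_of_nonneg_left h2 hm0.le
    nlinarith
  set f1 := res (D.good (i : ℕ)) f with hf1
  have h3 : ‖f‖ ≤ m * ‖f1‖ := by
    have h4 : (1:ℝ) ≤ m := by
      have : 1 ≤ m := by omega
      exact_mod_cast this
    refine abs_le_of_sq_le_sq' ?_ (by positivity) |>.2
    rw [mul_pow]
    have := sq_nonneg ‖f1‖
    nlinarith [mul_le_mul_of_nonneg_right h4 this, mul_nonneg hm0.le this]
  have hf1s : ∀ W, W ∉ D.good (i : ℕ) → f1 W = 0 := by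
    intro W hW
    rw [hf1, res_apply, if_neg hW]
  have h4 : ∃ l l' : Letter m, l ≠ l' ∧ c' * ‖f‖ ≤ ‖sh (act (D.gg l)) f - sh (act (D.gg l')) f‖ := by
    have h5 : c' * ‖f‖ ≤ 1 / 100 * ‖f1‖ := by
      rw [hc']
      have e1 : 1 / 100 / m * ‖f‖ ≤ 1 / 100 / m * (m * ‖f1‖) := 
        mul_le_mul_of_nonneg_left h3 hc'0.le
      have e2 : 1 / 100 / m * (m * ‖f1‖) = 1 / 100 * ‖f1‖ := by field_simp
      linarith
    rcases h1 i f1 hf1s with h6 | h6
    · refine ⟨lt ((i : ℕ)+1) (by omega) false, lt (i : ℕ) (by omega) false, ?_, ?_⟩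
      · intro h
        have := congrArg (fun x : Letter m => (x.2 : ℕ)) h
        simp [lt, Pool.Agent.W705.JR.lt] at this
      · rw [D.sh_u]
        exact h5.trans (h6.trans (res_inv _ _ (D.good_u (i : ℕ) (by omega)) f))
    · refine ⟨lt (i : ℕ) (by omega) true, lt ((i : ℕ)+1) (by omega) true, ?_, ?_⟩
      · intro h
        have := congrArg (fun x : Letter m => (x.2 : ℕ)) h
        simp [lt, Pool.Agent.W705.JR.lt] at this
      · rw [D.sh_v]
        exact h5.trans (h6.trans (res_inv _ _ (D.good_v (i : ℕ) (by omega)) f))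
  obtain ⟨l, l', hne, h5⟩ := h4
  have h6 := avg_gap p (fun l => (hp' l).le) hs (fun l => act (D.gg l)) f l l' ε c' hε0.le (hp l) 
    (hp l') hc'0.le hne h5
  refine abs_le_of_sq_le_sq' ?_ (mul_nonneg (Real.sqrt_nonneg _) (norm_nonneg _)) |>.2
  rw [mul_pow, Real.sq_sqrt (le_max_right _ _)]
  exact h6.trans (mul_le_mul_of_nonneg_right (le_max_left _ _) (sq_nonneg _))

theorem TLD.hit_stab (D : TLD m K R) (p : Letter m → ℝ) (ξ : R × V2 m K) 
    (𝒲 : Set (Submodule K (R × V2 m K))) (h1 : ∀ W ∈ 𝒲, ∀ l, (act (D.gg l))⁻¹ W ∈ 𝒲) 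
    (h3 : ∀ W ∈ 𝒲, D.Stab Set.univ W → ξ ∉ W) : ∀ (k : ℕ) (W : Submodule K (R × V2 m K)), W ∈ 𝒲 → 
    D.Stab Set.univ W → hit p D.gg ξ k W = 0
  | 0, W, hW, hS => by
    unfold hit
    rw [if_neg (h3 W hW hS)]
  | (k+1), W, hW, hS => by
    have e1 : hit p D.gg ξ (k+1) W = 
        ∑ x, p x * hit p D.gg ξ k ((act (D.gg x))⁻¹ W) := rfl
    rw [e1]
    refine Finset.sum_eq_zero fun x _ => ?_
    rw [TLD.hit_stab D p ξ 𝒲 h1 h3 k _ (h1 W hW x) ((D.Stab_act_iff _ x (Set.mem_univ _) W).2 hS), 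
      mul_zero]

/-- the exponential bound, uniform in the field -/
theorem decay (hm : 3 ≤ m) (p : Letter m → ℝ) (hp : ∀ l, 0 < p l) (hs : ∑ l, p l = 1) (dim : ℕ) : 
    ∃ C r : ℝ, 0 ≤ C ∧ 0 ≤ r ∧ r < 1 ∧ ∀ (K R : Type) [Field K] [IsAlgClosed K] [Ring R] [Algebra K R]
      [FiniteDimensional K R] (Γ : Type) [LinearOrderedCommGroupWithZero Γ] (v : Valuation K Γ) 
      (D : TLD m K R), v D.t < 1 → Module.finrank K (R × V2 m K) ≤ dim → 
      ∀ (ξ : R × V2 m K) (𝒲 : Set (Submodule K (R × V2 m K))), 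
        (∀ W ∈ 𝒲, ∀ l, (act (D.gg l))⁻¹ W ∈ 𝒲) → (∀ W ∈ 𝒲, ∀ W' ≤ W, W' ∈ 𝒲) → 
        (∀ W ∈ 𝒲, D.Stab Set.univ W → ξ ∉ W) → ∀ W ∈ 𝒲, ∀ k, hit p D.gg ξ k W ≤ C * r ^ k := by
  have : Nonempty (Letter m) := ⟨(true, ⟨0, by omega⟩)⟩
  obtain ⟨l₀, hl₀⟩ := Finite.exists_min p
  obtain ⟨C, r, hC, hr0, hr1, h⟩ := hit_decay (rho m (p l₀)) (rho_lt (by omega) (hp l₀)) dim
  refine ⟨C, r, hC, hr0, hr1, ?_⟩
  intro K R _ _ _ _ _ Γ _ v D hv hdim ξ 𝒲 h1 h2 h3 W hW k
  exact h (g := D.gg) (ξ := ξ) (fun l => (hp l).le) hs 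
    {W : Submodule K (R × V2 m K) | ¬ D.Stab Set.univ W} 
    (fun W l hW h1 => hW ((D.Stab_act_iff _ l (Set.mem_univ _) W).2 h1)) 
    (fun h1 => h1 (fun j _ _ v hv => by
      rw [Submodule.mem_bot] at hv
      rw [hv, Submodule.mem_bot]
      exact Prod.ext (mul_zero _) rfl)) (Real.sqrt_nonneg _) 
    (fun f hf => D.gap v hv hm p (p l₀) (hp l₀) hl₀ hs f hf) 𝒲 h1 h2 
    (fun W hW hN k => D.hit_stab p ξ 𝒲 h1 h3 k W hW (by
      by_contra h1
      exact hN h1)) W hW ((Submodule.finrank_le _).trans hdim) k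

end Pool.Agent.Y463.MP
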