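import Pool.Agent.Y463.MP.Func
import Pool.Agent.Y463.MP.Main
import Pool.Agent.Y463.MP.Field
import Pool.Agent.W705.JR.Link

/-!
# Diagrams and hitting probabilities modulo a prime

This follows `Pool.Agent.W705.JR.Link` (starting library).
-/

set_option autoImplicit false

namespace Pool.Agent.Y463.MP

open Finset LaurentPolynomial TensorProduct Pool.Agent.H891R2.Jones Pool.Agent.W639.RB Pool.Agent.Y463.SK 
  Pool.Agent.Y463.RW
open Pool.Agent.W705.JR (idx_lt inv' sgn sw cst2 push_up push_length draw_cons)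

variable {m : ℕ}

/-! ### nonvanishing -/

section nonvanishing

variable {k : Type} [Field k] {A : k}

theorem sum_weight' (hA : A ≠ 0) (n : ℕ) : ∑ s : Fin n → Bool, A ^ (Diagram.weight s) = (A + A⁻¹) ^ n := by
  classical
  have h1 : ∀ s : Fin n → Bool, A ^ (Diagram.weight s) = ∏ i, (if s i then A else A⁻¹) := by
    intro s
    unfold Diagram.weight
    have h0 : ∀ (S : Finset (Fin n)), A ^ (∑ i ∈ S, if s i = true then (1:ℤ) else -1) = 
        ∏ i ∈ S, (if s i then A else A⁻¹) := by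
      intro S
      induction S using Finset.induction_on with
      | empty => simp
      | insert a S ha ih =>
        rw [Finset.sum_insert ha, Finset.prod_insert ha, zpow_add₀ hA, ih]
        congr 1
        split_ifs
        · exact zpow_one _
        · exact zpow_neg_one _
    exact h0 univ
  simp only [h1]
  have h2 := Finset.prod_univ_sum (fun _ : Fin n => (Finset.univ : Finset Bool)) 
    (fun (_ : Fin n) (b : Bool) => (if b then A else A⁻¹))
  rw [Fintype.piFinset_univ] at h2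
  rw [← h2]
  simp

/-- evaluation at a root of `A⁴ + A² + 1` -/
noncomputable def psi (hA : A ≠ 0) : ℤ[T;T⁻¹] →+* k := 
  LaurentPolynomial.eval₂ (Int.castRingHom k) (Units.mk0 A hA)

theorem psi_T (hA : A ≠ 0) (n : ℤ) : psi hA (T n) = A ^ n := by
  unfold psi
  rw [LaurentPolynomial.eval₂_T]
  simp

theorem psi_delta (hA : A ≠ 0) (h : A ^ 4 + A ^ 2 + 1 = 0) : psi hA (-T 2 - T (-2)) = 1 := by
  rw [map_sub, map_neg, psi_T, psi_T]
  have e2 : A ^ (2 : ℤ) = A ^ 2 := by
    have := zpow_natCast A 2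
    simpa using this
  have e1 : A ^ (-2 : ℤ) = (A ^ 2)⁻¹ := by rw [zpow_neg, e2]
  rw [e1, e2]
  field_simp
  linear_combination -h

theorem psi_bracket (hA : A ≠ 0) (h : A ^ 4 + A ^ 2 + 1 = 0) {P : Type} (D : Diagram P) : 
    psi hA D.bracket = (A + A⁻¹) ^ D.crossings.length := by
  unfold Diagram.bracket
  rw [map_sum, ← sum_weight' hA]
  refine Finset.sum_congr rfl fun s _ => ?_
  rw [map_mul, map_pow, psi_delta hA h, one_pow, mul_one, psi_T]

theorem psi_e (hA : A ≠ 0) (h : A ^ 4 + A ^ 2 + 1 = 0) (hm : 1 < m) (O : Outer m) : 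
    psi hA (PhiS (by omega) O (EZ m 0)) = (A + A⁻¹) ^ O.crossings.length := by
  have hm' : 0 < m := by omega
  have h1 := PhiS_push hm' O (true, ⟨0, by omega⟩) 1
  have h2 : (sZ m (true, 0) * 1 : TLZ m) = (T 1 : ℤ[T;T⁻¹]) • (1 : TLZ m) + (T (-1) : ℤ[T;T⁻¹]) • EZ m 0 := by
    rw [mul_one]
    unfold sZ ltr
    simp
  have h3 := psi_bracket hA h (O.push true 0).close
  have h4 : (O.push true 0).close.crossings.length = O.crossings.length + 1 := 
    push_length O true 0 (by omega)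
  simp only at h1
  rw [h4, ← PhiS_one hm', h1, h2, map_add, map_smul, map_smul, PhiS_one, smul_eq_mul, smul_eq_mul, 
    map_add, map_mul, map_mul, psi_bracket hA h, psi_T, psi_T, zpow_one, zpow_neg_one] at h3
  have h5 : O.close.crossings.length = O.crossings.length := rfl
  rw [h5] at h3
  have h6 : A⁻¹ * psi hA (PhiS hm' O (EZ m 0)) = A⁻¹ * (A + A⁻¹) ^ O.crossings.length := by
    linear_combination h3
  exact mul_left_cancel₀ (inv_ne_zero hA) h6

theorem sq_one (hA : A ≠ 0) (h : A ^ 4 + A ^ 2 + 1 = 0) : (A + A⁻¹) ^ 2 = 1 := by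
  field_simp
  linear_combination h

end nonvanishing

theorem not_dvd (l : ℕ) [Fact l.Prime] (hm : 1 < m) (O : Outer m) : 
    ¬ (l : ℤ[T;T⁻¹]) ∣ PhiS (by omega) O (EZ m 0) := by
  rintro ⟨g, hg⟩
  set k := AlgebraicClosure (ZMod l)
  obtain ⟨A, hA⟩ := IsAlgClosed.exists_root (Polynomial.X ^ 4 + Polynomial.X ^ 2 + 1 : Polynomial k) (by
    have : (Polynomial.X ^ 4 + Polynomial.X ^ 2 + 1 : Polynomial k).degree = 4 := by
      compute_degree!
    rw [this]; norm_num)
  have h : A ^ 4 + A ^ 2 + 1 = 0 := by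
    simpa [Polynomial.IsRoot.def] using hA
  have hA0 : A ≠ 0 := by
    rintro rfl
    simp at h
  have h1 := psi_e hA0 h hm O
  rw [hg, map_mul, map_natCast] at h1
  have h2 : ((l : ℕ) : k) = 0 := by
    have h3 : ((l : ℕ) : k) = algebraMap (ZMod l) k (l : ZMod l) := by rw [map_natCast]
    rw [h3, ZMod.natCast_self, map_zero]
  rw [h2, zero_mul] at h1
  have h3 := sq_one hA0 h
  have h4 : A + A⁻¹ ≠ 0 := by
    intro h5
    rw [h5] at h3
    simp at h3
  exact pow_ne_zero _ h4 h1.symm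

/-! ### the functional with the writhe -/

section link

variable (l : ℕ) [Fact l.Prime]

noncomputable instance : Algebra ℤ[T;T⁻¹] (LL l) := (phi l).toAlgebra

theorem algebraMap_LL : algebraMap ℤ[T;T⁻¹] (LL l) = phi l := rfl

/-- the data for the prime `l` -/
noncomputable abbrev Dl (m : ℕ) : TLD m (LL l) (TLL (LL l) m) := DL (LL l) m

/-- the space -/
abbrev VL (m : ℕ) : Type := TLL (LL l) m × V2 m (LL l)

/-- the functional belonging to an outside and a value -/
noncomputable def fnl (hm : 0 < m) (O : Outer m) (z : LL l) : VL l m →ₗ[LL l] LL l where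
  toFun v := phiL (LL l) hm O v.1 - z * (Dl l m).qq ^ (owr O) * v.2 O.up
  map_add' v w := by
    rw [Prod.fst_add, Prod.snd_add, map_add, Pi.add_apply]; ring
  map_smul' c v := by
    rw [Prod.smul_fst, Prod.smul_snd, map_smul, Pi.smul_apply, smul_eq_mul, smul_eq_mul, 
      RingHom.id_apply]; ring

theorem fnl_apply (hm : 0 < m) (O : Outer m) (z : LL l) (v : VL l m) : 
    fnl l hm O z v = phiL (LL l) hm O v.1 - z * (Dl l m).qq ^ (owr O) * v.2 O.up := rfl

theorem fnl_push (hm : 0 < m) (O : Outer m) (z : LL l) (x : Letter m) (v : VL l m) : 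
    fnl l hm (O.push x.1 x.2) z v = fnl l hm O z ((Dl l m).gg x v) := by
  rw [fnl_apply, fnl_apply, TLD.gg_apply]
  have h1 := phiL_push (LL l) hm O x v.1
  have h2 := (push_writhe O x.1 x.2 (idx_lt x)).1
  have h3 : (if x.1 = true then (1:ℤ) else -1) = sgn x.1 := rfl
  rw [h1, h2, push_up, h3]
  show _ = phiL (LL l) hm O ((Dl l m).s1 x v.1) - 
    z * (Dl l m).qq ^ (owr O) * ((Dl l m).qq ^ (sgn x.1 * cst2 x O.up) * v.2 (O.up ∘ sw x))
  rw [zpow_add₀ (Dl l m).qq_ne]
  unfold cst2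
  ring

theorem actl_ker (hm : 0 < m) (O : Outer m) (z : LL l) (x : Letter m) : 
    (act ((Dl l m).gg x))⁻¹ (LinearMap.ker (fnl l hm O z)) = 
      LinearMap.ker (fnl l hm (O.push x.1 x.2) z) := by
  apply Submodule.ext
  intro v
  rw [mem_act_inv, LinearMap.mem_ker, LinearMap.mem_ker, fnl_push]

/-- the initial vector -/
noncomputable def xil (m : ℕ) : VL l m := (1, fun _ => 1)

theorem phi_fPoly {P : Type} (D : Diagram P) : 
    phi l D.fPoly = ((Dl l m).qq ^ D.writhe)⁻¹ * phi l D.bracket := by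
  unfold Diagram.fPoly
  rw [map_mul, map_mul, phi_T]
  congr 1
  have h1 : (Dl l m).a = jj l Polynomial.X := by
    show phi l (T 1) = _
    rw [phi_T, zpow_one]
  have h2 : (Dl l m).qq ^ D.writhe = (-1) ^ D.writhe * (jj l Polynomial.X) ^ (3 * D.writhe) := by
    unfold TLD.qq
    rw [h1, neg_eq_neg_one_mul, mul_zpow, zpow_mul]
    norm_cast
  rw [h2, mul_inv, ← zpow_neg (jj l Polynomial.X)]
  have h3 : -3 * D.writhe = -(3 * D.writhe) := by ring
  rw [h3]
  congr 1
  by_cases h : Even D.writhe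
  · rw [if_pos h, Even.neg_one_zpow h]; simp
  · rw [if_neg h, Odd.neg_one_zpow (Int.not_even_iff_odd.1 h)]; simp

theorem xil_mem_iff (hm : 0 < m) (O : Outer m) (z : LL l) : 
    xil l m ∈ LinearMap.ker (fnl l hm O z) ↔ phi l O.close.fPoly = z := by
  have h1 : phiL (LL l) hm O (xil l m).1 = phi l O.close.bracket := by
    have h2 : (xil l m).1 = inc (LL l) m 1 := by rw [map_one]; rfl
    rw [h2, phiL_inc, PhiS_one]
    rfl
  rw [LinearMap.mem_ker, fnl_apply, h1, phi_fPoly (m := m), close_writhe]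
  have h3 : (xil l m).2 O.up = 1 := rfl
  rw [h3, mul_one, sub_eq_zero]
  have h4 : (Dl l m).qq ^ owr O ≠ 0 := zpow_ne_zero _ (Dl l m).qq_ne
  rw [inv_mul_eq_iff_eq_mul₀ h4, mul_comm z]

open Classical in
/-- the probability of the value `z` -/
noncomputable def probl (p : Letter m → ℝ) (O : Outer m) (k : ℕ) (z : LL l) : ℝ :=
  ∑ w : Fin k → Letter m, if phi l (draw O (toL w)).close.fPoly = z then ∏ j, p (w j) else 0

theorem hitl_ker (hm : 0 < m) (p : Letter m → ℝ) (z : LL l) : ∀ (k : ℕ) (O : Outer m), 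
    hit p (Dl l m).gg (xil l m) k (LinearMap.ker (fnl l hm O z)) = probl l p O k z
  | 0, O => by
    classical
    unfold hit probl
    rw [Fintype.sum_unique]
    have h : (draw O (toL (default : Fin 0 → Letter m))) = O := rfl
    rw [h]
    simp only [xil_mem_iff l hm, Finset.univ_eq_empty, Finset.prod_empty]
  | (k+1), O => by
    classical
    have e1 : hit p (Dl l m).gg (xil l m) (k+1) (LinearMap.ker (fnl l hm O z)) = 
        ∑ x, p x * hit p (Dl l m).gg (xil l m) k ((act ((Dl l m).gg x))⁻¹ (LinearMap.ker (fnl l hm O z))) := 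
      rfl
    rw [e1]
    set F : (Fin (k+1) → Letter m) → ℝ := fun w => 
        if phi l (draw O (toL w)).close.fPoly = z then ∏ j, p (w j) else (0:ℝ) with hF
    have e3 := (Fin.consEquiv (fun _ : Fin (k+1) => Letter m)).sum_comp F
    have e4 : probl l p O (k+1) z = ∑ w : Fin (k+1) → Letter m, F w := rfl
    have e5 := Fintype.sum_prod_type (fun i : Letter m × (Fin k → Letter m) => 
      F ((Fin.consEquiv (fun _ : Fin (k+1) => Letter m)) i))
    rw [e4, ← e3]
    refine Eq.trans ?_ e5.symm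
    refine Finset.sum_congr rfl fun x _ => ?_
    rw [actl_ker, hitl_ker hm p z k, probl, Finset.mul_sum]
    refine Finset.sum_congr rfl fun w _ => ?_
    have h2 : (Fin.consEquiv (fun _ : Fin (k+1) => Letter m)) (x, w) = 
      (Fin.cons x w : Fin (k+1) → Letter m) := rfl
    rw [h2, hF]
    dsimp only
    rw [draw_cons, Fin.prod_univ_succ]
    simp only [Fin.cons_zero, Fin.cons_succ]
    split_ifs <;> ring

/-- the subspaces contained in one of the hyperplanes -/
def Wcl (hm : 0 < m) : Set (Submodule (LL l) (VL l m)) := 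
  {W | ∃ (O : Outer m) (z : LL l), W ≤ LinearMap.ker (fnl l hm O z)}

theorem Wcl_act (hm : 0 < m) (W : Submodule (LL l) (VL l m)) (hW : W ∈ Wcl l hm) (x : Letter m) : 
    (act ((Dl l m).gg x))⁻¹ W ∈ Wcl l hm := by
  obtain ⟨O, z, h⟩ := hW
  refine ⟨O.push x.1 x.2, z, ?_⟩
  rw [← actl_ker]
  exact fun v hv => h hv

theorem Wcl_le (hm : 0 < m) (W : Submodule (LL l) (VL l m)) (hW : W ∈ Wcl l hm) 
    (W' : Submodule (LL l) (VL l m)) (h : W' ≤ W) : W' ∈ Wcl l hm := by
  obtain ⟨O, z, h'⟩ := hW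
  exact ⟨O, z, h.trans h'⟩

theorem Wcl_stab (hm : 1 < m) (W : Submodule (LL l) (VL l m)) (hW : W ∈ Wcl l (by omega)) 
    (hS : (Dl l m).Stab Set.univ W) : xil l m ∉ W := by
  intro hxi
  obtain ⟨O, z, h⟩ := hW
  have h1 := h (hS 0 (Set.mem_univ 0) (by omega) _ hxi)
  rw [LinearMap.mem_ker, fnl_apply] at h1
  have h2 : ((Dl l m).EE2 0 (xil l m)).2 O.up = 0 := rfl
  have h3 : ((Dl l m).EE2 0 (xil l m)).1 = inc (LL l) m (EZ m 0) := mul_one _
  rw [h2, mul_zero, sub_zero, h3, phiL_inc, algebraMap_LL, phi_zero_iff] at h1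
  exact not_dvd l hm O h1

end link

/-- **the exponential bound, uniform in the primes** -/
theorem main (hm : 3 ≤ m) (p : Letter m → ℝ) (hp : ∀ x, 0 < p x) (hs : ∑ x, p x = 1) : 
    ∃ C r : ℝ, 0 ≤ C ∧ 0 ≤ r ∧ r < 1 ∧ ∀ (l : ℕ) [Fact l.Prime] (O : Outer m) (z : LL l) (k : ℕ), 
      probl l p O k z ≤ C * r ^ k := by
  obtain ⟨C, r, hC, hr0, hr1, h⟩ := decay hm p hp hs (m.factorial + 2 ^ m)
  refine ⟨C, r, hC, hr0, hr1, ?_⟩
  intro l _ O z k
  have hm0 : 0 < m := by omega
  obtain ⟨V, hV⟩ := exists_valuation l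
  obtain ⟨hfin, hrank⟩ := finrank_TLL (LL l) hm0
  rw [← hitl_ker l hm0 p z k O]
  refine h (LL l) (TLL (LL l) m) V.ValueGroup V.valuation (Dl l m) ?_ ?_ (xil l m) (Wcl l hm0) 
    (fun W hW x => Wcl_act l hm0 W hW x) (fun W hW W' h' => Wcl_le l hm0 W hW W' h') 
    (fun W hW hS => Wcl_stab l (by omega) W hW hS) _ ⟨O, z, le_rfl⟩ k
  · have h1 : (Dl l m).t = (jj l Polynomial.X) ^ 2 := by
      show (phi l (T 1)) ^ 2 = _
      rw [phi_T, zpow_one]
    rw [h1, map_pow]
    exact pow_lt_one₀ zero_le hV two_ne_zero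
  · rw [Module.finrank_prod]
    refine add_le_add hrank (le_of_eq ?_)
    rw [Module.finrank_fintype_fun_eq_card, Fintype.card_fun, Fintype.card_bool, Fintype.card_fin]

end Pool.Agent.Y463.MP
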