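import Pool.Agent.Y463.MP.Site
import Pool.Agent.Y463.MP.Fin

/-!
# Crossing changes in a braid word
-/

set_option autoImplicit false

namespace Pool.Agent.Y463.MP

open Finset LaurentPolynomial TensorProduct Pool.Agent.H891R2.Jones Pool.Agent.W639.RB Pool.Agent.Y463.SK 
  Pool.Agent.Y463.RW
open Pool.Agent.W705.JR (idx_lt inv' sgn sw cst2 push_up push_length draw_cons)

variable {m : ℕ}

/-! ### nonvanishing -/

/-- the element of a word -/
noncomputable def bZ (m : ℕ) (w : List (Letter m)) : TLZ m := 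
  (w.map (fun x => sZ m (x.1, (x.2 : ℕ)))).prod

theorem bZ_cons (x : Letter m) (w : List (Letter m)) : bZ m (x :: w) = sZ m (x.1, (x.2 : ℕ)) * bZ m w := by
  simp [bZ]

section nonvanishing

variable {k : Type} [Field k] {A : k}

theorem psi_bZ (hA : A ≠ 0) (h : A ^ 4 + A ^ 2 + 1 = 0) (hm : 0 < m) (w : List (Letter m)) : 
    ∀ O : Outer m, psi hA (PhiS hm O (bZ m w)) = (A + A⁻¹) ^ (O.crossings.length + w.length) := by
  induction w with
  | nil =>
    intro O
    have h1 : bZ m ([] : List (Letter m)) = 1 := rfl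
    rw [h1, PhiS_one, psi_bracket hA h]
    rfl
  | cons x w ih =>
    intro O
    rw [bZ_cons, ← PhiS_push, ih, push_length O x.1 x.2 (idx_lt x), List.length_cons]
    congr 1
    ring

theorem psi_EbZ (hA : A ≠ 0) (h : A ^ 4 + A ^ 2 + 1 = 0) (hm : 0 < m) (w : List (Letter m)) (O : Outer m) 
    (i : ℕ) (hi : i + 1 < m) : 
    psi hA (PhiS hm O (EZ m i * bZ m w)) = (A + A⁻¹) ^ (O.crossings.length + w.length) := by
  have h1 := psi_bZ hA h hm ((true, ⟨i, by omega⟩) :: w) O
  have h2 : bZ m ((true, ⟨i, by omega⟩) :: w) = 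
      (T 1 : ℤ[T;T⁻¹]) • bZ m w + (T (-1) : ℤ[T;T⁻¹]) • (EZ m i * bZ m w) := by
    rw [bZ_cons]
    have h3 : sZ m (true, i) = (T 1 : ℤ[T;T⁻¹]) • (1 : TLZ m) + (T (-1) : ℤ[T;T⁻¹]) • EZ m i := by
      unfold sZ ltr
      simp
    rw [h3, add_mul, smul_mul_assoc, smul_mul_assoc, one_mul]
  rw [h2, map_add, map_smul, map_smul, smul_eq_mul, smul_eq_mul, map_add, map_mul, map_mul, 
    psi_bZ hA h hm w O, psi_T, psi_T, zpow_one, zpow_neg_one, List.length_cons, ← add_assoc, pow_succ] at h1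
  have h6 : A⁻¹ * psi hA (PhiS hm O (EZ m i * bZ m w)) = 
      A⁻¹ * (A + A⁻¹) ^ (O.crossings.length + w.length) := by
    linear_combination h1
  exact mul_left_cancel₀ (inv_ne_zero hA) h6

end nonvanishing

theorem not_dvd' (l : ℕ) [Fact l.Prime] (hm : 0 < m) (w : List (Letter m)) (O : Outer m) (i : ℕ) 
    (hi : i + 1 < m) : ¬ (l : ℤ[T;T⁻¹]) ∣ PhiS hm O (EZ m i * bZ m w) := by
  rintro ⟨g, hg⟩
  set k := AlgebraicClosure (ZMod l)
  obtain ⟨A, hA⟩ := IsAlgClosed.exists_root (Polynomial.X ^ 4 + Polynomial.X ^ 2 + 1 : Polynomial k) (by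
    have : (Polynomial.X ^ 4 + Polynomial.X ^ 2 + 1 : Polynomial k).degree = 4 := by
      compute_degree!
    rw [this]; norm_num)
  have h : A ^ 4 + A ^ 2 + 1 = 0 := by
    simpa [Polynomial.IsRoot.def] using hA
  have hA0 : A ≠ 0 := by
    rintro rfl
    simp at h
  have h1 := psi_EbZ hA0 h hm w O i hi
  rw [hg, map_mul, map_natCast] at h1
  have h2 : ((l : ℕ) : k) = 0 := by
    have h3 : ((l : ℕ) : k) = algebraMap (ZMod l) k (l : ZMod l) := by rw [map_natCast]
    rw [h3, ZMod.natCast_self, map_zero]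
  rw [h2, zero_mul] at h1
  have h3 := sq_one hA0 h
  have h4 : A + A⁻¹ ≠ 0 := by
    intro h5
    rw [h5] at h3
    simp at h3
  exact pow_ne_zero _ h4 h1.symm

/-! ### the class of subspaces -/

section link

variable (l : ℕ) [Fact l.Prime]

theorem pw_xil (w : List (Letter m)) : ((Dl l m).pw w (xil l m)).1 = inc (LL l) m (bZ m w) := by
  induction w with
  | nil =>
    have h1 : bZ m ([] : List (Letter m)) = 1 := rfl
    rw [h1, map_one]
    rfl
  | cons x w ih =>
    rw [TLD.pw_cons, bZ_cons, map_mul, ← ih, ← sg_eq]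
    rfl

theorem Wcl_act' (hm : 0 < m) (W : Submodule (LL l) (VL l m)) (hW : W ∈ Wcl l hm) (x : Letter m) : 
    act ((Dl l m).gg x) W ∈ Wcl l hm := by
  have h1 := Wcl_act l hm W hW (inv' x)
  have h2 : (act ((Dl l m).gg (inv' x)))⁻¹ = act ((Dl l m).gg x) := by
    rw [(Dl l m).gg_inv', act_symm, inv_inv]
  rwa [h2] at h1

theorem Wcl_pw (hm : 0 < m) (w : List (Letter m)) : ∀ (W : Submodule (LL l) (VL l m)), W ∈ Wcl l hm → 
    act ((Dl l m).pw w) W ∈ Wcl l hm := by
  induction w with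
  | nil =>
    intro W hW
    have h1 : act ((Dl l m).pw []) W = W := by
      show act 1 W = W
      rw [← actH_apply, map_one]; rfl
    rw [h1]
    exact hW
  | cons x w ih =>
    intro W hW
    rw [TLD.pw_cons, TLD.act_mul]
    exact Wcl_act' l hm _ (ih W hW) x

theorem Wcl_xil (hm : 0 < m) (W : Submodule (LL l) (VL l m)) (hW : W ∈ Wcl l hm) 
    (hN : W ∉ (Dl l m).Nset) : xil l m ∉ W := by
  intro hxi
  apply hN
  intro w i hi hS
  obtain ⟨O, z, h⟩ := Wcl_pw l hm w W hW
  have h1 : (Dl l m).pw w (xil l m) ∈ act ((Dl l m).pw w) W := Submodule.mem_map_of_mem hxi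
  have h2 := h (hS i rfl hi _ h1)
  rw [LinearMap.mem_ker, fnl_apply] at h2
  have h3 : ((Dl l m).EE2 i ((Dl l m).pw w (xil l m))).2 O.up = 0 := rfl
  have h4 : ((Dl l m).EE2 i ((Dl l m).pw w (xil l m))).1 = inc (LL l) m (EZ m i * bZ m w) := by
    rw [map_mul, ← pw_xil]
    rfl
  rw [h3, mul_zero, sub_zero, h4, phiL_inc, algebraMap_LL, phi_zero_iff] at h2
  exact not_dvd' l hm w O i hi h2

theorem hitL_zero (hm : 0 < m) : ∀ (L : List (Letter m → ℝ)) (W : Submodule (LL l) (VL l m)), 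
    W ∈ Wcl l hm → W ∉ (Dl l m).Nset → hitL (Dl l m).gg (xil l m) L W = 0
  | [], W, hW, hN => by
    unfold hitL
    rw [if_neg (Wcl_xil l hm W hW hN)]
  | (q :: L), W, hW, hN => by
    unfold hitL
    refine Finset.sum_eq_zero fun x _ => ?_
    rw [hitL_zero hm L _ (Wcl_act l hm W hW x) (fun h => hN ((Dl l m).Nset_inv W x h)), mul_zero]

/-- the probability of the value `z` for independent letters with distributions `q j` -/
noncomputable def probQ {n : ℕ} (q : Fin n → Letter m → ℝ) (O : Outer m) (z : LL l) : ℝ :=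
  ∑ w : Fin n → Letter m, 
    @ite ℝ (phi l (draw O (toL w)).close.fPoly = z) (Classical.propDecidable _) (∏ j, q j (w j)) 0

theorem hitL_ker (hm : 0 < m) (z : LL l) : ∀ (n : ℕ) (q : Fin n → Letter m → ℝ) (O : Outer m), 
    hitL (Dl l m).gg (xil l m) (List.ofFn q) (LinearMap.ker (fnl l hm O z)) = probQ l q O z
  | 0, q, O => by
    classical
    unfold probQ
    rw [List.ofFn_zero, Fintype.sum_unique]
    unfold hitL
    have h : (draw O (toL (default : Fin 0 → Letter m))) = O := rfl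
    rw [h]
    simp only [xil_mem_iff l hm, Finset.univ_eq_empty, Finset.prod_empty]
  | (k+1), q, O => by
    classical
    rw [List.ofFn_succ]
    unfold hitL
    set F : (Fin (k+1) → Letter m) → ℝ := fun w => 
        @ite ℝ (phi l (draw O (toL w)).close.fPoly = z) (Classical.propDecidable _) (∏ j, q j (w j)) 0 with hF
    have e3 := (Fin.consEquiv (fun _ : Fin (k+1) => Letter m)).sum_comp F
    have e4 : probQ l q O z = ∑ w : Fin (k+1) → Letter m, F w := rfl
    have e5 := Fintype.sum_prod_type (fun i : Letter m × (Fin k → Letter m) => 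
      F ((Fin.consEquiv (fun _ : Fin (k+1) => Letter m)) i))
    rw [e4, ← e3]
    refine Eq.trans ?_ e5.symm
    refine Finset.sum_congr rfl fun x _ => ?_
    rw [actl_ker, hitL_ker hm z k, probQ, Finset.mul_sum]
    refine Finset.sum_congr rfl fun w _ => ?_
    have h2 : (Fin.consEquiv (fun _ : Fin (k+1) => Letter m)) (x, w) = 
      (Fin.cons x w : Fin (k+1) → Letter m) := rfl
    rw [h2, hF]
    dsimp only
    rw [draw_cons, Fin.prod_univ_succ]
    simp only [Fin.cons_zero, Fin.cons_succ]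
    split_ifs <;> ring

end link

/-- **the exponential bound for independent letters with varying distributions** -/
theorem mainQ (hm : 3 ≤ m) (α : ℝ) (hα : 0 < α) : 
    ∃ C r : ℝ, 0 ≤ C ∧ 0 < r ∧ r < 1 ∧ ∀ (l : ℕ) [Fact l.Prime] (O : Outer m) (z : LL l) (n : ℕ) 
      (q : Fin n → Letter m → ℝ) (k : ℕ), (∀ j, IsProb (q j)) → Con (SiteA m α) (List.ofFn q) k → 
        probQ l q O z ≤ C * r ^ k := by
  obtain ⟨C, r, hC, hr0, hr1, h⟩ := hitL_decay (rhoA α) (rhoA_lt hα) (m.factorial + 2 ^ m)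
  refine ⟨C, r, hC, hr0, hr1, ?_⟩
  intro l _ O z n q k hq hCon
  have hm0 : 0 < m := by omega
  obtain ⟨V, hV⟩ := exists_valuation l
  obtain ⟨hfin, hrank⟩ := finrank_TLL (LL l) hm0
  have ht : V.valuation (Dl l m).t < 1 := by
    have h1 : (Dl l m).t = (jj l Polynomial.X) ^ 2 := by
      show (phi l (T 1)) ^ 2 = _
      rw [phi_T, zpow_one]
    rw [h1, map_pow]
    exact pow_lt_one₀ zero_le hV two_ne_zero
  have hdim : Module.finrank (LL l) (VL l m) ≤ m.factorial + 2 ^ m := by
    rw [Module.finrank_prod]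
    refine add_le_add hrank (le_of_eq ?_)
    rw [Module.finrank_fintype_fun_eq_card, Fintype.card_fun, Fintype.card_bool, Fintype.card_fin]
  rw [← hitL_ker l hm0 z n q O]
  refine h (Dl l m).Nset (fun W x => (Dl l m).Nset_inv W x) ((Dl l m).bot_notMem_Nset (by omega)) 
    (Real.sqrt_nonneg _) (fun q q' hs f hf => (Dl l m).site_gap V.valuation ht α hα q q' hs f hf) 
    (Wcl l hm0) (fun W hW x => Wcl_act l hm0 W hW x) (fun W hW W' h' => Wcl_le l hm0 W hW W' h') 
    (fun W hW hN L => hitL_zero l hm0 L W hW hN) _ ⟨O, z, le_rfl⟩ 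
    ((Submodule.finrank_le _).trans hdim) (List.ofFn q) k ?_ hCon
  intro q' hq'
  obtain ⟨j, rfl⟩ := (List.mem_ofFn' q q').1 hq'
  exact hq j

/-! ### counting the sites -/

section sites

variable {ι : Type} [Fintype ι] (Site : (ι → ℝ) → (ι → ℝ) → Prop)

open Classical in
/-- the number of consecutive pairs which are sites -/
noncomputable def cnt : List (ι → ℝ) → ℕ
  | [] => 0
  | [_] => 0
  | (q :: q' :: L) => (if Site q q' then 1 else 0) + cnt (q' :: L)

theorem cnt_cons_le (q : ι → ℝ) (L : List (ι → ℝ)) : cnt Site (q :: L) ≤ 1 + cnt Site L := by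
  rcases L with _ | ⟨q', L⟩
  · simp [cnt]
  · rw [cnt]
    split_ifs <;> omega

theorem cnt_nonsite (q q' : ι → ℝ) (L : List (ι → ℝ)) (h : ¬ Site q q') : 
    cnt Site (q :: q' :: L) = cnt Site (q' :: L) := by
  rw [cnt, if_neg h, zero_add]

theorem con_of_cnt : ∀ (L : List (ι → ℝ)) (k : ℕ), 2 * k ≤ cnt Site L + 1 → Con Site L k
  | [], k, h => by
    have : cnt Site [] = 0 := rfl
    obtain rfl : k = 0 := by omega
    exact Con.nil
  | [q], k, h => by
    have : cnt Site [q] = 0 := rfl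
    obtain rfl : k = 0 := by omega
    exact Con.cons q Con.nil
  | (q :: q' :: L), k, h => by
    by_cases hs : Site q q'
    · rcases Nat.eq_zero_or_pos k with hk | hk
      · subst hk; exact Con.zero _
      · obtain ⟨k', rfl⟩ : ∃ k', k = k' + 1 := ⟨k - 1, by omega⟩
        refine Con.site q q' hs (con_of_cnt L k' ?_)
        have h1 := cnt_cons_le Site q (q' :: L)
        have h2 := cnt_cons_le Site q' L
        omega
    · refine Con.cons q (con_of_cnt (q' :: L) k ?_)
      rw [cnt_nonsite Site q q' L hs] at h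
      exact h

open Classical in
theorem cnt_ofFn : ∀ (n : ℕ) (q : Fin n → ι → ℝ), 
    (univ.filter (fun j : Fin n => ∃ h : (j : ℕ) + 1 < n, Site (q j) (q ⟨j + 1, h⟩))).card = 
      cnt Site (List.ofFn q)
  | 0, q => by simp [cnt]
  | 1, q => by
    rw [List.ofFn_succ, List.ofFn_zero]
    show _ = 0
    rw [Finset.card_eq_zero, Finset.filter_eq_empty_iff]
    rintro j _ ⟨h, _⟩
    omega
  | (n+2), q => by
    have ih := cnt_ofFn (n+1) (fun j => q j.succ)
    rw [List.ofFn_succ, List.ofFn_succ, cnt]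
    rw [List.ofFn_succ] at ih
    rw [← ih, Finset.card_filter, Fin.sum_univ_succ, Finset.card_filter]
    congr 1
    · have h1 : (∃ h : ((0 : Fin (n+2)) : ℕ) + 1 < n + 2, Site (q 0) (q ⟨((0 : Fin (n+2)) : ℕ) + 1, h⟩)) ↔ 
          Site (q 0) (q (Fin.succ 0)) := by
        constructor
        · rintro ⟨_, h⟩; exact h
        · intro h
          exact ⟨by simp, h⟩
      simp only [h1]
    · refine Finset.sum_congr rfl fun j _ => ?_
      have h1 : (∃ h : ((Fin.succ j : Fin (n+2)) : ℕ) + 1 < n + 2, 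
          Site (q j.succ) (q ⟨((Fin.succ j : Fin (n+2)) : ℕ) + 1, h⟩)) ↔ 
          ∃ h : (j : ℕ) + 1 < n + 1, Site (q j.succ) (q (Fin.succ ⟨(j : ℕ) + 1, h⟩)) := by
        constructor
        · rintro ⟨h, h'⟩
          rw [Fin.val_succ] at h
          exact ⟨by omega, h'⟩
        · rintro ⟨h, h'⟩
          exact ⟨by rw [Fin.val_succ]; omega, h'⟩
      simp only [h1]

end sites

end Pool.Agent.Y463.MP
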