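import Pool.Agent.Y463.MP.Sgn

/-!
# Crossing changes in a braid word: the final bounds
-/

set_option autoImplicit false

namespace Pool.Agent.Y463.MP

open Finset LaurentPolynomial Pool.Agent.H891R2.Jones Pool.Agent.W639.RB

variable {m : ℕ}

open Classical in
/-- few coefficients, for any weights of the words -/
theorem few' (l : ℕ) [Fact l.Prime] (O : Outer m) (n : ℕ) (wt : (Fin n → Letter m) → ℝ) 
    (hwt : ∀ w, 0 ≤ wt w) (B : ℝ) 
    (hB : ∀ z : LL l, ∑ w : Fin n → Letter m, (if phi l (draw O (toL w)).close.fPoly = z then wt w else 0) 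
      ≤ B) (k : ℕ) (x : ℝ) (hx0 : 0 < x) (hx1 : x ≤ 1) : 
    (∑ w : Fin n → Letter m, @ite ℝ (nonmult l (draw O (toL w)).close.fPoly ≤ k) (propDecidable _) 
      (wt w) 0) * x ^ k ≤ (1 + (l - 1) * x) ^ (2 * win O n + 1) * B := by
  set s : Finset ℤ := Finset.Icc (-(win O n : ℤ)) (win O n) with hs
  have hcard : s.card = 2 * win O n + 1 := by
    rw [hs, Int.card_Icc]
    omega
  set H := (univ.filter (fun h : s → ZMod l => (univ.filter (fun j => h j ≠ 0)).card ≤ k)) with hH
  have hB0 : 0 ≤ B := by
    refine le_trans ?_ (hB 0)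
    exact Finset.sum_nonneg fun w _ => by
      split_ifs
      · exact hwt w
      · exact le_rfl
  have h1 : ∀ w : Fin n → Letter m, 
      (@ite ℝ (nonmult l (draw O (toL w)).close.fPoly ≤ k) (propDecidable _) (wt w) 0) ≤ 
        ∑ h ∈ H, (if phi l (draw O (toL w)).close.fPoly = zval l s h then wt w else 0) := by
    intro w
    have hnn : ∀ h ∈ H, 0 ≤ (if phi l (draw O (toL w)).close.fPoly = zval l s h then wt w else 0) := by
      intro h _
      split_ifs
      · exact hwt w
      · exact le_rfl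
    split_ifs with hk
    · have hsub := support_subset (within_diagram O w)
      have h2 := phi_eq_zval l _ s hsub
      have h3 := nonmult_eq l _ s hsub
      refine le_trans ?_ (Finset.single_le_sum hnn (Finset.mem_filter.2 ⟨Finset.mem_univ 
        (fun j : s => (((draw O (toL w)).close.fPoly.coeff j : ℤ) : ZMod l)), by rw [h3]; exact hk⟩))
      rw [if_pos h2]
    · exact Finset.sum_nonneg hnn
  have h2 : (∑ w : Fin n → Letter m, @ite ℝ (nonmult l (draw O (toL w)).close.fPoly ≤ k) (propDecidable _) 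
      (wt w) 0) ≤ H.card * B := by
    refine (Finset.sum_le_sum fun w _ => h1 w).trans ?_
    rw [Finset.sum_comm, ← nsmul_eq_mul]
    exact Finset.sum_le_card_nsmul _ _ _ fun h _ => hB (zval l s h)
  have h3 := card_few l s k x hx0 hx1
  rw [hcard] at h3
  calc _ ≤ (H.card * B) * x ^ k := mul_le_mul_of_nonneg_right h2 (by positivity)
    _ = (H.card * x ^ k) * B := by ring
    _ ≤ _ := mul_le_mul_of_nonneg_right h3 hB0

/-! ### the distributions -/

open Classical in
/-- the distribution of the letter number `j` -/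
noncomputable def qS {n : ℕ} (w : Fin n → Letter m) (S : Finset (Fin n)) (j : Fin n) : Letter m → ℝ := 
  fun x => if j ∈ S then (if x.2 = (w j).2 then 1/2 else 0) else (if x = w j then 1 else 0)

theorem qS_prob {n : ℕ} (w : Fin n → Letter m) (S : Finset (Fin n)) (j : Fin n) : IsProb (qS w S j) := by
  classical
  constructor
  · intro x
    unfold qS
    split_ifs <;> norm_num
  · unfold qS
    by_cases hj : j ∈ S
    · simp only [if_pos hj]
      rw [Fintype.sum_prod_type]
      simp only [Finset.sum_ite_eq', Finset.mem_univ, if_true]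
      rw [Fintype.sum_bool]
      norm_num
    · simp only [if_neg hj]
      rw [Finset.sum_ite_eq' univ (w j) (fun _ => (1:ℝ)), if_pos (Finset.mem_univ _)]

theorem qS_site {n : ℕ} (w : Fin n → Letter m) (S : Finset (Fin n)) (j j' : Fin n) (hj : j ∈ S) 
    (hj' : j' ∈ S) (h : ((w j).2 : ℕ) + 1 = (w j').2 ∨ ((w j').2 : ℕ) + 1 = (w j).2) : 
    SiteA m (1/2) (qS w S j) (qS w S j') := by
  classical
  refine ⟨qS_prob w S j, qS_prob w S j', (w j).2, (w j').2, h, fun b => ⟨?_, ?_⟩⟩
  · unfold qS
    rw [if_pos hj]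
    simp
  · unfold qS
    rw [if_pos hj']
    simp

theorem prod_qS {n : ℕ} (w : Fin n → Letter m) (S : Finset (Fin n)) (w' : Fin n → Letter m) : 
    ∏ j, qS w S j (w' j) = if w' ∈ Flips w S then (1/2 : ℝ) ^ S.card else 0 := by
  classical
  by_cases h : w' ∈ Flips w S
  · rw [if_pos h]
    unfold Flips at h
    rw [Finset.mem_filter] at h
    have h1 : ∀ j, qS w S j (w' j) = if j ∈ S then 1/2 else 1 := by
      intro j
      unfold qS
      by_cases hj : j ∈ S
      · rw [if_pos hj, if_pos hj, if_pos (h.2.1 j)]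
      · rw [if_neg hj, if_neg hj, if_pos (h.2.2 j hj)]
    simp only [h1]
    rw [Finset.prod_ite, Finset.prod_const, Finset.prod_const_one, mul_one]
    congr 2
    ext j
    simp
  · rw [if_neg h]
    have h1 : ∃ j, qS w S j (w' j) = 0 := by
      by_contra hcon
      push Not at hcon
      apply h
      unfold Flips
      rw [Finset.mem_filter]
      refine ⟨Finset.mem_univ _, fun j => ?_, fun j hj => ?_⟩
      · by_contra h2
        apply hcon j
        unfold qS
        by_cases hj : j ∈ S
        · rw [if_pos hj, if_neg h2]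
        · rw [if_neg hj, if_neg (fun h3 => h2 (by rw [h3]))]
      · by_contra h2
        apply hcon j
        unfold qS
        rw [if_neg hj, if_neg h2]
    obtain ⟨j, hj⟩ := h1
    exact Finset.prod_eq_zero (Finset.mem_univ j) hj

theorem con_qS {n : ℕ} (w : Fin n → Letter m) (S : Finset (Fin n)) : 
    Con (SiteA m (1/2)) (List.ofFn (qS w S)) ((switches w S + 1) / 2) := by
  classical
  apply con_of_cnt
  rw [← cnt_ofFn]
  have h1 : switches w S ≤ (univ.filter (fun j : Fin n => ∃ h : (j : ℕ) + 1 < n, 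
      SiteA m (1/2) (qS w S j) (qS w S ⟨j + 1, h⟩))).card := by
    unfold switches
    apply Finset.card_le_card
    intro j hj
    rw [Finset.mem_filter] at hj ⊢
    obtain ⟨_, h, h2, h3, h4⟩ := hj
    exact ⟨Finset.mem_univ _, h, qS_site w S _ _ h2 h3 h4⟩
  have h2 : (univ.filter (fun j : Fin n => ∃ h : (j : ℕ) + 1 < n, 
      SiteA m (1/2) (qS w S j) (qS w S ⟨j + 1, h⟩))).card = 
      (@Finset.filter (Fin n) (fun j : Fin n => ∃ h : (j : ℕ) + 1 < n, 
      SiteA m (1/2) (qS w S j) (qS w S ⟨j + 1, h⟩)) (fun _ => Classical.propDecidable _) univ).card := by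
    congr
  omega

open Classical in
/-- counting -/
theorem count_flips {n : ℕ} (w : Fin n → Letter m) (S : Finset (Fin n)) (E : (Fin n → Letter m) → Prop) : 
    (((Flips w S).filter E).card : ℝ) = 
      2 ^ S.card * ∑ w' : Fin n → Letter m, (if E w' then ∏ j, qS w S j (w' j) else 0) := by
  have h1 : ∀ w' : Fin n → Letter m, (if E w' then ∏ j, qS w S j (w' j) else 0) = 
      if (w' ∈ Flips w S ∧ E w') then (1/2 : ℝ) ^ S.card else 0 := by
    intro w'
    rw [prod_qS]
    by_cases h2 : E w' <;> by_cases h3 : w' ∈ Flips w S <;> simp [h2, h3]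
  simp only [h1]
  rw [Finset.sum_ite, Finset.sum_const_zero, add_zero, Finset.sum_const, nsmul_eq_mul]
  have h4 : (univ.filter (fun w' : Fin n → Letter m => w' ∈ Flips w S ∧ E w')) = (Flips w S).filter E := by
    ext w'
    simp
  rw [h4, mul_left_comm, ← mul_pow]
  norm_num

theorem pow_half {r : ℝ} (hr : 0 < r) (hr1 : r < 1) (s : ℕ) : r ^ ((s + 1) / 2) ≤ (√r) ^ s := by
  have h1 : r ^ ((s + 1) / 2) = (√r) ^ (2 * ((s + 1) / 2)) := by
    rw [pow_mul, Real.sq_sqrt hr.le]
  rw [h1]
  refine pow_le_pow_of_le_one (Real.sqrt_nonneg _) ?_ (by omega)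
  refine (Real.sqrt_le_sqrt hr1.le).trans ?_
  rw [Real.sqrt_one]

theorem finalS (hm : 3 ≤ m) : ∃ r : ℝ, 0 < r ∧ r < 1 ∧ 
      (∃ C : ℝ, ∀ N : ℕ, 2 ≤ N → ∀ (O : Outer m) (g : ℤ[T;T⁻¹]) (n : ℕ) (w : Fin n → Letter m) 
        (S : Finset (Fin n)), 
        ((@Finset.filter _ (fun w' => (N : ℤ[T;T⁻¹]) ∣ (diagram O w').fPoly - g) 
          (fun _ => Classical.propDecidable _) (Flips w S)).card : ℝ) ≤ 
            C * r ^ switches w S * 2 ^ S.card) ∧ 
      (∀ N : ℕ, 2 ≤ N → ∀ κ : ℝ, ∃ δ : ℝ, 0 < δ ∧ ∃ C : ℝ, ∀ (O : Outer m) (n : ℕ) (w : Fin n → Letter m) 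
        (S : Finset (Fin n)), (osize O + n : ℝ) ≤ κ * (switches w S + 1) → 
        ((@Finset.filter _ (fun w' => (nonmult N (diagram O w').fPoly : ℝ) ≤ δ * switches w S) 
          (fun _ => Classical.propDecidable _) (Flips w S)).card : ℝ) ≤ 
            C * r ^ switches w S * 2 ^ S.card) := by
  classical
  obtain ⟨C, r0, hC, hr0, hr1, h⟩ := mainQ hm (1/2) (by norm_num)
  set b : ℝ := - Real.log r0 / 8 with hb
  have hb0 : 0 < b := by
    have := Real.log_neg hr0 hr1
    rw [hb]; linarith
  have hsq : ∀ s : ℕ, (√r0) ^ s = Real.exp (-(4 * b) * s) := by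
    intro s
    have h1 : -(4 * b) = Real.log (√r0) := by
      rw [Real.log_sqrt hr0.le, hb]; ring
    rw [h1, Real.exp_mul, Real.exp_log (Real.sqrt_pos.2 hr0), Real.rpow_natCast]
  set r' : ℝ := Real.exp (-(2 * b)) with hr'
  have hr'n : ∀ n : ℕ, r' ^ n = Real.exp (-(2 * b) * n) := by
    intro n
    rw [hr', ← Real.exp_nat_mul]
    congr 1
    ring
  have hle : ∀ s : ℕ, r0 ^ ((s + 1) / 2) ≤ r' ^ s := by
    intro s
    refine (pow_half hr0 hr1 s).trans ?_
    rw [hsq, hr'n]
    apply Real.exp_le_exp.2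
    have : 0 ≤ b * s := by positivity
    nlinarith
  have hbound : ∀ (l : ℕ) [Fact l.Prime] (O : Outer m) (z : LL l) (n : ℕ) (w : Fin n → Letter m) 
      (S : Finset (Fin n)), probQ l (qS w S) O z ≤ C * r0 ^ ((switches w S + 1) / 2) := 
    fun l _ O z n w S => h l O z n (qS w S) _ (qS_prob w S) (con_qS w S)
  have hpos : ∀ (n : ℕ) (w : Fin n → Letter m) (S : Finset (Fin n)) (w' : Fin n → Letter m), 
      0 ≤ ∏ j, qS w S j (w' j) := fun n w S w' => Finset.prod_nonneg fun j _ => (qS_prob w S j).1 _
  refine ⟨r', Real.exp_pos _, by rw [hr', Real.exp_lt_one_iff]; linarith, ⟨C, ?_⟩, ?_⟩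
  · intro N hN O g n w S
    set l := N.minFac with hl
    have hlp : l.Prime := Nat.minFac_prime (by omega)
    haveI : Fact l.Prime := ⟨hlp⟩
    have hdvd : l ∣ N := Nat.minFac_dvd N
    rw [count_flips]
    have h1 : ∑ w' : Fin n → Letter m, (if (N : ℤ[T;T⁻¹]) ∣ (diagram O w').fPoly - g then 
        ∏ j, qS w S j (w' j) else 0) ≤ probQ l (qS w S) O (phi l g) := by
      unfold probQ
      refine Finset.sum_le_sum fun w' _ => ?_
      by_cases hw : (N : ℤ[T;T⁻¹]) ∣ (diagram O w').fPoly - g
      · have h2 : phi l ((diagram O w').fPoly - g) = 0 := by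
          rw [phi_zero_iff]
          exact dvd_trans (by exact_mod_cast (map_dvd (Nat.castRingHom ℤ[T;T⁻¹]) hdvd)) hw
        rw [map_sub, sub_eq_zero] at h2
        rw [if_pos hw, if_pos (show phi l (draw O (toL w')).close.fPoly = phi l g from h2)]
      · rw [if_neg hw]
        split_ifs
        · exact hpos n w S w'
        · exact le_rfl
    have h2 := h1.trans (hbound l O (phi l g) n w S)
    have h3 : C * r0 ^ ((switches w S + 1) / 2) ≤ C * r' ^ switches w S := 
      mul_le_mul_of_nonneg_left (hle _) hC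
    calc _ ≤ 2 ^ S.card * (C * r' ^ switches w S) := 
          mul_le_mul_of_nonneg_left (h2.trans h3) (by positivity)
      _ = _ := by ring
  · intro N hN κ
    set l := N.minFac with hl
    have hlp : l.Prime := Nat.minFac_prime (by omega)
    haveI : Fact l.Prime := ⟨hlp⟩
    have hdvd : l ∣ N := Nat.minFac_dvd N
    set κ' : ℝ := max κ 0 with hκ'
    have hκ0 : 0 ≤ κ' := le_max_right _ _
    have hκκ : κ ≤ κ' := le_max_left _ _
    set c : ℝ := (8 + 4 * m) * (2 * κ') + 1 with hc
    have hc0 : 0 < c := by positivity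
    obtain ⟨x, δ, hx0, hx1, hδ, hS, hk⟩ := pick l hlp.two_le c b hc0 hb0
    refine ⟨δ, hδ, C + 1, ?_⟩
    intro O n w S hO
    set s := switches w S with hs
    rw [count_flips]
    have hP1 : ∑ w' : Fin n → Letter m, (if (nonmult N (diagram O w').fPoly : ℝ) ≤ δ * s then 
        ∏ j, qS w S j (w' j) else 0) ≤ 
        ∑ w' : Fin n → Letter m, @ite ℝ (nonmult l (draw O (toL w')).close.fPoly ≤ ⌊δ * s⌋₊) 
          (Classical.propDecidable _) (∏ j, qS w S j (w' j)) 0 := by
      refine Finset.sum_le_sum fun w' _ => ?_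
      by_cases hw : (nonmult N (diagram O w').fPoly : ℝ) ≤ δ * s
      · have h2 : nonmult l (draw O (toL w')).close.fPoly ≤ ⌊δ * s⌋₊ := by
          apply Nat.le_floor
          refine le_trans ?_ hw
          exact_mod_cast nonmult_mono hdvd _
        rw [if_pos hw, if_pos h2]
      · rw [if_neg hw]
        split_ifs
        · exact hpos n w S w'
        · exact le_rfl
    set P := ∑ w' : Fin n → Letter m, @ite ℝ (nonmult l (draw O (toL w')).close.fPoly ≤ ⌊δ * s⌋₊) 
          (Classical.propDecidable _) (∏ j, qS w S j (w' j)) 0 with hPdef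
    have hP0 : 0 ≤ P := Finset.sum_nonneg fun w' _ => by
      split_ifs
      · exact hpos n w S w'
      · exact le_rfl
    have hgoal : P ≤ (C + 1) * r' ^ s := by
      rcases Nat.eq_zero_or_pos s with hs0 | hs0
      · have h1 : P ≤ 1 := by
          have h2 : P ≤ ∑ w' : Fin n → Letter m, ∏ j, qS w S j (w' j) := by
            refine Finset.sum_le_sum fun w' _ => ?_
            split_ifs
            · exact le_rfl
            · exact hpos n w S w'
          refine h2.trans (le_of_eq ?_)
          have h3 := Finset.prod_univ_sum (fun _ : Fin n => (Finset.univ : Finset (Letter m))) 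
            (fun (j : Fin n) (b : Letter m) => qS w S j b)
          rw [Fintype.piFinset_univ] at h3
          rw [← h3]
          exact Finset.prod_eq_one fun j _ => (qS_prob w S j).2
        rw [hs0, pow_zero]
        linarith
      · have hs1 : (1:ℝ) ≤ s := by exact_mod_cast hs0
        have hwin : ((2 * win O n + 1 : ℕ) : ℝ) ≤ c * s := by
          have e1 : (win O n : ℝ) ≤ (4 + 2 * m) * (osize O + n) := by
            unfold win osize
            push_cast
            have h1 : (0:ℝ) ≤ Nat.card O.P := Nat.cast_nonneg _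
            have h2 : (0:ℝ) ≤ O.crossings.length := Nat.cast_nonneg _
            have h3 : (0:ℝ) ≤ m := Nat.cast_nonneg _
            nlinarith [mul_nonneg h3 h1, mul_nonneg h3 h2]
          have e2 : (osize O + n : ℝ) ≤ κ' * (2 * s) := by
            refine hO.trans ?_
            have : κ * ((s:ℝ) + 1) ≤ κ' * ((s:ℝ) + 1) := mul_le_mul_of_nonneg_right hκκ (by positivity)
            refine this.trans (mul_le_mul_of_nonneg_left (by linarith) hκ0)
          have e3 : ((4:ℝ) + 2 * m) * (osize O + n) ≤ (4 + 2 * m) * (κ' * (2 * s)) := 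
            mul_le_mul_of_nonneg_left e2 (by positivity)
          push_cast
          rw [hc]
          nlinarith
        have hfew := few' l O n (fun w' => ∏ j, qS w S j (w' j)) (hpos n w S) 
          (C * r0 ^ ((s + 1) / 2)) (fun z => by
            have := hbound l O z n w S
            unfold probQ at this
            exact this) ⌊δ * s⌋₊ x hx0 hx1.le
        rw [← hPdef] at hfew
        have e3 := hS s (2 * win O n + 1) hwin
        have e4 := hk s ⌊δ * s⌋₊ (Nat.floor_le (by positivity))
        have hCr : 0 ≤ C * r0 ^ ((s + 1) / 2) := by positivity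
        calc P ≤ P * (Real.exp (b * s) * x ^ ⌊δ * s⌋₊) := le_mul_of_one_le_right hP0 e4
          _ = (P * x ^ ⌊δ * s⌋₊) * Real.exp (b * s) := by ring
          _ ≤ ((1 + (l - 1) * x) ^ (2 * win O n + 1) * (C * r0 ^ ((s + 1) / 2))) * Real.exp (b * s) := 
              mul_le_mul_of_nonneg_right hfew (Real.exp_pos _).le
          _ ≤ (Real.exp (b * s) * (C * (√r0) ^ s)) * Real.exp (b * s) := by
              apply mul_le_mul_of_nonneg_right _ (Real.exp_pos _).le
              apply mul_le_mul e3 _ hCr (Real.exp_pos _).le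
              exact mul_le_mul_of_nonneg_left (pow_half hr0 hr1 s) hC
          _ = C * r' ^ s := by
              rw [hsq, hr'n]
              have : Real.exp (-(2 * b) * s) = 
                  Real.exp (b * s) * Real.exp (-(4 * b) * s) * Real.exp (b * s) := by
                rw [← Real.exp_add, ← Real.exp_add]
                congr 1
                ring
              rw [this]; ring
          _ ≤ (C + 1) * r' ^ s := by
              have : 0 ≤ r' ^ s := by rw [hr'n]; exact (Real.exp_pos _).le
              nlinarith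
    calc _ ≤ 2 ^ S.card * ((C + 1) * r' ^ s) := 
          mul_le_mul_of_nonneg_left (hP1.trans hgoal) (by positivity)
      _ = _ := by ring

/-- the number of the words obtained by crossing changes in `S` -/
theorem card_Flips {n : ℕ} (w : Fin n → Letter m) (S : Finset (Fin n)) : 
    ((Flips w S).card : ℝ) = 2 ^ S.card := by
  classical
  have h1 := count_flips w S (fun _ => True)
  have h0 : @Finset.filter _ (fun _ : Fin n → Letter m => True) (fun _ => Classical.propDecidable _) 
      (Flips w S) = Flips w S := by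
    ext x
    simp
  rw [h0] at h1
  rw [h1]
  have h3 := Finset.prod_univ_sum (fun _ : Fin n => (Finset.univ : Finset (Letter m))) 
    (fun (j : Fin n) (b : Letter m) => qS w S j b)
  rw [Fintype.piFinset_univ] at h3
  simp only [if_true]
  rw [← h3, Finset.prod_eq_one fun j _ => (qS_prob w S j).2, mul_one]

theorem card_Flips_le {n : ℕ} (w : Fin n → Letter m) (S : Finset (Fin n)) : 
    ((Flips w S).card : ℝ) ≤ 2 ^ S.card := (card_Flips w S).le

/-- the last part -/
theorem shortS (r : ℝ) (hr : 0 < r) (hr1 : r < 1)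
    (N : ℕ) (κ δ : ℝ) (hδ : 0 < δ) (C : ℝ) (hC : ∀ (O : Outer m) (n : ℕ) (w : Fin n → Letter m) 
        (S : Finset (Fin n)), (osize O + n : ℝ) ≤ κ * (switches w S + 1) → 
        ((@Finset.filter _ (fun w' => (nonmult N (diagram O w').fPoly : ℝ) ≤ δ * switches w S) 
          (fun _ => Classical.propDecidable _) (Flips w S)).card : ℝ) ≤ 
            C * r ^ switches w S * 2 ^ S.card) : 
    ∃ ε : ℝ, 0 < ε ∧ ∃ C' : ℝ, ∀ (O : Outer m) (n : ℕ) (w : Fin n → Letter m) 
        (S : Finset (Fin n)), (osize O + n : ℝ) ≤ κ * (switches w S + 1) → 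
        ((@Finset.filter _ (fun w' => ∃ (P : Type) (_ : Finite P) (D : Diagram P), 
          (dsize D : ℝ) ≤ ε * switches w S ∧ (N : ℤ[T;T⁻¹]) ∣ (diagram O w').fPoly - D.fPoly) 
          (fun _ => Classical.propDecidable _) (Flips w S)).card : ℝ) ≤ 
            C' * r ^ switches w S * 2 ^ S.card := by
  classical
  obtain ⟨n₀, hn₀⟩ := exists_nat_gt (2 / δ)
  have hpow : ∀ n : ℕ, 0 < r ^ n := fun n => pow_pos hr n
  refine ⟨δ / 8, by positivity, max C (1 / r ^ n₀), ?_⟩
  intro O n w S hO
  set s := switches w S with hs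
  rcases Nat.lt_or_ge s n₀ with hn | hn
  · have h0 : ((@Finset.filter _ (fun w' => ∃ (P : Type) (_ : Finite P) (D : Diagram P), 
          (dsize D : ℝ) ≤ (δ / 8) * s ∧ (N : ℤ[T;T⁻¹]) ∣ (diagram O w').fPoly - D.fPoly) 
          (fun _ => Classical.propDecidable _) (Flips w S)).card : ℝ) ≤ 2 ^ S.card := by
      refine le_trans ?_ (card_Flips_le w S)
      exact_mod_cast Finset.card_filter_le _ _
    refine h0.trans ?_
    have h1 : (1:ℝ) ≤ 1 / r ^ n₀ * r ^ s := by
      have h2 : r ^ n₀ ≤ r ^ s := pow_le_pow_of_le_one hr.le hr1.le hn.le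
      rw [one_div, ← div_eq_inv_mul, one_le_div (hpow _)]
      exact h2
    have h2 : (1:ℝ) ≤ max C (1 / r ^ n₀) * r ^ s := 
      h1.trans (mul_le_mul_of_nonneg_right (le_max_right _ _) (hpow s).le)
    exact le_mul_of_one_le_left (by positivity) h2
  · refine le_trans ?_ ((hC O n w S hO).trans (mul_le_mul_of_nonneg_right 
      (mul_le_mul_of_nonneg_right (le_max_left _ _) (hpow s).le) (by positivity)))
    norm_cast
    apply Finset.card_le_card
    intro w' hw'
    rw [Finset.mem_filter] at hw' ⊢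
    obtain ⟨hw1, P, hP, D, hD1, hD2⟩ := hw'
    refine ⟨hw1, ?_⟩
    have h1 := nonmult_congr N _ _ hD2
    have h2 := nonmult_le_dsize N D
    rw [h1]
    have h3 : (nonmult N D.fPoly : ℝ) ≤ 4 * dsize D + 1 := by exact_mod_cast h2
    have h4 : (n₀ : ℝ) ≤ s := by exact_mod_cast hn
    have h5 : 2 < δ * s := by
      rw [div_lt_iff₀ hδ] at hn₀
      nlinarith
    linarith

end Pool.Agent.Y463.MP
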