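import Pool.Agent.Y463.MP.Main
import Pool.Agent.Y463.MP.Inh

/-!
# The spectral gap of two neighbouring crossings with random signs

For `x = σ_i` and `y = σ_{i+1}` one has `(y x⁻¹)³ = y² x² y⁻² x⁻²` and `(x⁻¹ y)³ = x⁻² y⁻² x² y²` in the
braid group, so that functions which are nearly invariant under `x²` and `y²` are nearly invariant under the
ping-pong pair of `Pool.Agent.Y463.MP.Gap`.
-/

set_option autoImplicit false

namespace Pool.Agent.Y463.MP

open Finset Matrix Pool.Agent.H891R2.Jones Pool.Agent.W639.RB 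
open Pool.Agent.W705.JR (inv' sgn sw cst2 idx_lt L2 sh sh_mul sh_norm sh_sub sh_one avg avg_apply avg_gap 
  pat_sw)

/-! ### groups -/

section grp

variable {G : Type*} [Group G] {x y : G}

theorem cube_comm (h : x * y * x = y * x * y) : 
    (y * x⁻¹) ^ 3 = y ^ 2 * x ^ 2 * (y ^ 2)⁻¹ * (x ^ 2)⁻¹ := by
  have h1 : x⁻¹ * y * x = y * x * y⁻¹ := by
    rw [eq_mul_inv_iff_mul_eq, mul_assoc, mul_assoc, inv_mul_eq_iff_eq_mul, ← mul_assoc, ← mul_assoc]
    exact h.symm
  have h2 : y⁻¹ * x * y = x * y * x⁻¹ := by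
    rw [eq_mul_inv_iff_mul_eq, mul_assoc, mul_assoc, inv_mul_eq_iff_eq_mul, ← mul_assoc, ← mul_assoc]
    exact h
  have h3 : (y⁻¹ * x * y)⁻¹ * (y⁻¹ * x * y)⁻¹ = (x * y * x⁻¹)⁻¹ * (x * y * x⁻¹)⁻¹ := by rw [h2]
  have h0 : (y * x⁻¹) ^ 3 = (y * x⁻¹) * (y * x⁻¹) * (y * x⁻¹) := by rw [pow_succ, pow_two]
  rw [h0, pow_two, pow_two]
  calc (y * x⁻¹) * (y * x⁻¹) * (y * x⁻¹) = y * (x⁻¹ * y * x) * (x⁻¹ * x⁻¹ * y * x⁻¹) := by group
    _ = y * (y * x * y⁻¹) * (x⁻¹ * x⁻¹ * y * x⁻¹) := by rw [h1]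
    _ = y * y * x * ((y⁻¹ * x * y)⁻¹ * (y⁻¹ * x * y)⁻¹) * x⁻¹ := by group
    _ = y * y * x * ((x * y * x⁻¹)⁻¹ * (x * y * x⁻¹)⁻¹) * x⁻¹ := by rw [h3]
    _ = _ := by group

theorem cube_comm' (h : x * y * x = y * x * y) : 
    (x⁻¹ * y) ^ 3 = (x ^ 2)⁻¹ * (y ^ 2)⁻¹ * x ^ 2 * y ^ 2 := by
  have h1 : y⁻¹ * x⁻¹ * y⁻¹ = x⁻¹ * y⁻¹ * x⁻¹ := by
    have := congrArg (fun z => z⁻¹) h
    simp only [_root_.mul_inv_rev] at this
    rw [← mul_assoc, ← mul_assoc] at this
    exact this.symm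
  have h2 := cube_comm (x := y⁻¹) (y := x⁻¹) h1
  rw [inv_inv] at h2
  rw [h2, inv_pow, inv_pow, inv_inv, inv_inv]

end grp

/-! ### near invariance -/

section near

variable {X : Type*}

theorem near_mul (σ τ : Equiv.Perm X) (f : L2 X) : 
    ‖f - sh (σ * τ) f‖ ≤ ‖f - sh σ f‖ + ‖f - sh τ f‖ := by
  have e : f - sh (σ * τ) f = (f - sh σ f) + sh σ (f - sh τ f) := by
    rw [sh_mul, sh_sub]; abel
  rw [e]
  refine (norm_add_le _ _).trans ?_
  rw [sh_norm]

theorem near_inv (σ : Equiv.Perm X) (f : L2 X) : ‖f - sh σ⁻¹ f‖ = ‖f - sh σ f‖ := by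
  have e : sh σ (f - sh σ⁻¹ f) = -(f - sh σ f) := by
    rw [sh_sub, ← sh_mul, mul_inv_cancel, sh_one]; abel
  rw [← sh_norm σ (f - sh σ⁻¹ f), e, norm_neg]

theorem near_comm (σ τ : Equiv.Perm X) (f : L2 X) (ε : ℝ) (h1 : ‖f - sh σ f‖ ≤ ε) 
    (h2 : ‖f - sh τ f‖ ≤ ε) : ‖f - sh (σ * τ * σ⁻¹ * τ⁻¹) f‖ ≤ 4 * ε := by
  have e1 := near_mul (σ * τ * σ⁻¹) τ⁻¹ f
  have e2 := near_mul (σ * τ) σ⁻¹ f
  have e3 := near_mul σ τ f
  rw [near_inv] at e1 e2
  linarith

end near

variable {m : ℕ} {K R : Type} [Field K] [Ring R] [Algebra K R]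

namespace TLD

variable (D : TLD m K R)

theorem inv_eq (x : Letter m) : D.gg (inv' x) = (D.gg x)⁻¹ := D.gg_inv' x

theorem m2_braid (i : ℕ) (h : i + 2 < m) (f : V2 m K) : 
    D.m2 (lt i (by omega) true) (D.m2 (lt (i+1) h true) (D.m2 (lt i (by omega) true) f)) = 
      D.m2 (lt (i+1) h true) (D.m2 (lt i (by omega) true) (D.m2 (lt (i+1) h true) f)) := by
  funext U
  rw [m2_apply, m2_apply, m2_apply, m2_apply, m2_apply, m2_apply, ← mul_assoc, ← mul_assoc, ← mul_assoc, 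
    ← mul_assoc, ← zpow_add₀ D.qq_ne, ← zpow_add₀ D.qq_ne, ← zpow_add₀ D.qq_ne, ← zpow_add₀ D.qq_ne]
  have hsw : ((U ∘ sw (lt (m := m) i (by omega) true)) ∘ sw (lt (i+1) h true)) ∘ 
      sw (lt i (by omega) true) = 
      ((U ∘ sw (lt (m := m) (i+1) h true)) ∘ sw (lt i (by omega) true)) ∘ sw (lt (i+1) h true) := by
    have h1 : sw (lt (m := m) i (by omega) true) * sw (lt (i+1) h true) * sw (lt i (by omega) true) = 
        sw (lt (m := m) (i+1) h true) * sw (lt i (by omega) true) * sw (lt (i+1) h true) := by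
      unfold sw
      simp only [lt, Pool.Agent.W705.JR.lt]
      set a : Fin m := ⟨i, by omega⟩
      set b : Fin m := ⟨i + 1, by omega⟩
      set c : Fin m := ⟨i + 1 + 1, by omega⟩
      have hab : a ≠ b := by intro h; simp [a, b] at h
      have hac : a ≠ c := by intro h; simp [a, c] at h; omega
      have hbc : b ≠ c := by intro h; simp [b, c] at h
      have e1 := Equiv.swap_mul_swap_mul_swap (x := a) (y := b) (z := c) hab hac
      have e2 := Equiv.swap_mul_swap_mul_swap (x := c) (y := b) (z := a) hbc.symm hac.symm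
      rw [Equiv.swap_comm b a, Equiv.swap_comm c b] at e2
      rw [e1, e2, Equiv.swap_comm]
    funext j
    have h2 := congrArg (fun σ : Equiv.Perm (Fin m) => σ j) h1
    simp only [Equiv.Perm.mul_apply] at h2
    show U _ = U _
    congr 1
  rw [hsw]
  congr 2
  unfold cst2
  simp only [pat_sw]
  simp only [lt, Pool.Agent.W705.JR.lt, sgn, Function.comp_apply, if_true, one_mul]
  have a1 : (Equiv.swap i (i+1)) i = i + 1 := Equiv.swap_apply_left _ _
  have a2 : (Equiv.swap i (i+1)) (i+1) = i := Equiv.swap_apply_right _ _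
  have a3 : (Equiv.swap i (i+1)) (i+2) = i+2 := Equiv.swap_apply_of_ne_of_ne (by omega) (by omega)
  have a3' : (Equiv.swap i (i+1)) (i+1+1) = i+2 := Equiv.swap_apply_of_ne_of_ne (by omega) (by omega)
  have a4 : (Equiv.swap (i+1) (i+1+1)) i = i := Equiv.swap_apply_of_ne_of_ne (by omega) (by omega)
  have a5 : (Equiv.swap (i+1) (i+1+1)) (i+1) = i+2 := Equiv.swap_apply_left _ _
  have a6 : (Equiv.swap (i+1) (i+1+1)) (i+2) = i+1 := Equiv.swap_apply_right _ _
  have a6' : (Equiv.swap (i+1) (i+1+1)) (i+1+1) = i+1 := Equiv.swap_apply_right _ _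
  simp only [a1, a2, a3, a3', a4, a5, a6, a6']
  ring

theorem gg_braid (i : ℕ) (h : i + 2 < m) : 
    D.gg (lt i (by omega) true) * D.gg (lt (i+1) h true) * D.gg (lt i (by omega) true) = 
      D.gg (lt (i+1) h true) * D.gg (lt i (by omega) true) * D.gg (lt (i+1) h true) := by
  apply LinearEquiv.ext
  intro v
  have hb := braid (A := D.a) D.a_ne rfl D.rel i h
  refine Prod.ext ?_ ?_
  · show sg D.a D.e i * (sg D.a D.e (i+1) * (sg D.a D.e i * v.1)) = 
      sg D.a D.e (i+1) * (sg D.a D.e i * (sg D.a D.e (i+1) * v.1))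
    rw [← mul_assoc, ← mul_assoc, hb, mul_assoc, mul_assoc]
  · exact D.m2_braid i h v.2

/-- functions which are nearly invariant under `σ_i²` and `σ_{i+1}²` -/
theorem near_pure [IsAlgClosed K] {Γ : Type} [LinearOrderedCommGroupWithZero Γ] (v : Valuation K Γ) 
    (hv : v D.t < 1) (i : ℕ) (h : i + 2 < m) (f : L2 (Submodule K (R × V2 m K))) 
    (hf : ∀ W, W ∉ D.good i → f W = 0) (ε : ℝ) 
    (h1 : ‖f - sh (act (D.gg (lt i (by omega) true)) ^ 2) f‖ ≤ ε) 
    (h2 : ‖f - sh (act (D.gg (lt (i+1) h true)) ^ 2) f‖ ≤ ε) : ‖f‖ ≤ 100 * ε := by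
  set x := act (D.gg (lt i (by omega) true)) with hx
  set y := act (D.gg (lt (i+1) h true)) with hy
  have hxy : x * y * x = y * x * y := by
    have := congrArg (actH K (R × V2 m K)) (D.gg_braid i h)
    simp only [map_mul, actH_apply] at this
    exact this
  have hinv : act (D.gg (lt i (by omega) false)) = x⁻¹ := by
    have : lt (m := m) i (by omega) false = inv' (lt i (by omega) true) := rfl
    rw [this, D.gg_inv', act_symm]
  have hu : act (D.uu i h) = y * x⁻¹ := by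
    unfold uu
    rw [← actH_apply, map_mul, actH_apply, actH_apply, hinv]
  have hv' : act (D.vv i h) = x⁻¹ * y := by
    unfold vv
    rw [← actH_apply, map_mul, actH_apply, actH_apply, hinv]
  have e1 : ‖f - sh (act (D.uu i h) ^ 3) f‖ ≤ 4 * ε := by
    rw [hu, cube_comm hxy]
    exact near_comm (y ^ 2) (x ^ 2) f ε h2 h1
  have e2 : ‖f - sh (act (D.vv i h) ^ 3) f‖ ≤ 4 * ε := by
    rw [hv', cube_comm' hxy]
    have := near_comm ((x ^ 2)⁻¹) ((y ^ 2)⁻¹) f ε (by rw [near_inv]; exact h1) (by rw [near_inv]; exact h2)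
    rw [inv_inv, inv_inv] at this
    exact this
  have := D.gap_pp v hv (D.d_ne v hv) i h f hf (4 * ε) e1 e2
  linarith

/-- the product of the letters of a word -/
noncomputable def pw (w : List (Letter m)) : (R × V2 m K) ≃ₗ[K] (R × V2 m K) := (w.map D.gg).prod

/-- the subspaces none of whose translates is stable under one of the generators -/
def Nset : Set (Submodule K (R × V2 m K)) := 
  {W | ∀ (w : List (Letter m)) (i : ℕ), i + 1 < m → ¬ D.Stab {i} (act (D.pw w) W)}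

theorem pw_cons (x : Letter m) (w : List (Letter m)) : D.pw (x :: w) = D.gg x * D.pw w := by
  simp [pw]

theorem pw_append (w w' : List (Letter m)) : D.pw (w ++ w') = D.pw w * D.pw w' := by
  simp [pw]

theorem act_mul {V : Type} [AddCommGroup V] [Module K V] (g h : V ≃ₗ[K] V) (W : Submodule K V) : 
    act (g * h) W = act g (act h W) := by
  rw [← actH_apply, map_mul]; rfl

theorem Nset_inv (W : Submodule K (R × V2 m K)) (x : Letter m) (h : (act (D.gg x))⁻¹ W ∈ D.Nset) : 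
    W ∈ D.Nset := by
  intro w i hi hS
  apply h (w ++ [x]) i hi
  have h1 : act (D.pw (w ++ [x])) ((act (D.gg x))⁻¹ W) = act (D.pw w) W := by
    have h2 : D.pw [x] = D.gg x := by simp [pw]
    rw [pw_append, h2, act_mul]
    congr 1
    exact Equiv.apply_symm_apply _ _
  rw [h1]
  exact hS

theorem Nset_good (W : Submodule K (R × V2 m K)) (h : W ∈ D.Nset) (i : ℕ) (hi : i + 1 < m) : 
    W ∈ D.good i := by
  intro hS
  apply h [] i hi
  have h1 : act (D.pw []) W = W := by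
    show act 1 W = W
    rw [← actH_apply, map_one]; rfl
  rw [h1]
  intro j hj hjm v hv
  exact hS j (Or.inl hj) hjm v hv

theorem bot_notMem_Nset (hm : 1 < m) : (⊥ : Submodule K (R × V2 m K)) ∉ D.Nset := by
  intro h
  have := D.Nset_good ⊥ h 0 (by omega)
  apply this
  intro j _ _ v hv
  rw [Submodule.mem_bot] at hv
  rw [hv, Submodule.mem_bot]
  exact Prod.ext (mul_zero _) rfl

end TLD

/-- two distributions of letters which give weight at least `α` to both crossings at two neighbouring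
places -/
def SiteA (m : ℕ) (α : ℝ) (q q' : Letter m → ℝ) : Prop := 
  IsProb q ∧ IsProb q' ∧ ∃ i i' : Fin (m - 1), ((i : ℕ) + 1 = i' ∨ (i' : ℕ) + 1 = i) ∧ 
    ∀ b, α ≤ q (b, i) ∧ α ≤ q' (b, i')

/-- the constant of the spectral gap -/
noncomputable def rhoA (α : ℝ) : ℝ := √(max (1 - (α ^ 2) ^ 2 * (1 / 100) ^ 2) 0)

theorem rhoA_lt {α : ℝ} (hα : 0 < α) : rhoA α < 1 := by
  unfold rhoA
  rw [Real.sqrt_lt' one_pos, one_pow]
  refine max_lt ?_ one_pos
  have : 0 < (α ^ 2) ^ 2 * (1 / 100 : ℝ) ^ 2 := by positivity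
  linarith

theorem avg_avg {ι X : Type} [Fintype ι] (q q' : ι → ℝ) (σ : ι → Equiv.Perm X) (f : L2 X) : 
    avg q σ (avg q' σ f) = avg (fun z : ι × ι => q z.1 * q' z.2) (fun z => σ z.1 * σ z.2) f := by
  ext x
  rw [avg_apply, avg_apply, Fintype.sum_prod_type]
  refine Finset.sum_congr rfl fun l _ => ?_
  rw [avg_apply, Finset.mul_sum]
  refine Finset.sum_congr rfl fun l' _ => ?_
  rw [_root_.mul_inv_rev, Equiv.Perm.mul_apply, mul_assoc]

theorem TLD.site_gap [IsAlgClosed K] {Γ : Type} [LinearOrderedCommGroupWithZero Γ] (D : TLD m K R) 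
    (v : Valuation K Γ) (hv : v D.t < 1) (α : ℝ) (hα : 0 < α) (q q' : Letter m → ℝ) 
    (hq : SiteA m α q q') (f : L2 (Submodule K (R × V2 m K))) (hf : ∀ W, W ∉ D.Nset → f W = 0) : 
    ‖avg q (fun l => act (D.gg l)) (avg q' (fun l => act (D.gg l)) f)‖ ≤ rhoA α * ‖f‖ := by
  classical
  obtain ⟨hq1, hq2, i, i', hii, hqα⟩ := hq
  rw [avg_avg]
  set x := act (D.gg (true, i)) with hx
  set y := act (D.gg (true, i')) with hy
  have hxi : act (D.gg (false, i)) = x⁻¹ := by
    have : ((false, i) : Letter m) = inv' (true, i) := rfl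
    rw [this, D.gg_inv', act_symm]
  have hyi : act (D.gg (false, i')) = y⁻¹ := by
    have : ((false, i') : Letter m) = inv' (true, i') := rfl
    rw [this, D.gg_inv', act_symm]
  have hsum : ∑ z : Letter m × Letter m, q z.1 * q' z.2 = 1 := by
    rw [Fintype.sum_prod_type]
    simp only [← Finset.mul_sum, hq2.2, mul_one, hq1.2]
  have hpos : ∀ z : Letter m × Letter m, 0 ≤ q z.1 * q' z.2 := fun z => mul_nonneg (hq1.1 _) (hq2.1 _)
  have hge : ∀ b b' : Bool, α ^ 2 ≤ q (b, i) * q' (b', i') := by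
    intro b b'
    rw [sq]
    exact mul_le_mul (hqα b).1 (hqα b').2 hα.le (hq1.1 _)
  -- the differences
  have key : ∃ z z' : Letter m × Letter m, z ≠ z' ∧ α ^ 2 ≤ q z.1 * q' z.2 ∧ α ^ 2 ≤ q z'.1 * q' z'.2 ∧ 
      1 / 100 * ‖f‖ ≤ ‖sh (act (D.gg z.1) * act (D.gg z.2)) f - sh (act (D.gg z'.1) * act (D.gg z'.2)) f‖ := by
    by_contra hcon
    push Not at hcon
    have A1 := hcon ((true, i), (true, i')) ((true, i), (false, i')) (by simp) (hge _ _) (hge _ _)
    have A2 := hcon ((true, i), (true, i')) ((false, i), (true, i')) (by simp) (hge _ _) (hge _ _)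
    simp only [← hx, ← hy, hxi, hyi] at A1 A2
    set ψ := sh y f with hψ
    have hψn : ‖ψ‖ = ‖f‖ := sh_norm _ _
    have hψs : ∀ W, W ∉ D.Nset → ψ W = 0 := by
      intro W hW
      show f (y⁻¹ W) = 0
      exact hf _ (fun h => hW (D.Nset_inv W _ h))
    have B1 : ‖ψ - sh (y ^ 2) ψ‖ < 1 / 100 * ‖ψ‖ := by
      have e1 : sh (y * (x * y⁻¹)⁻¹) (sh (x * y) f - sh (x * y⁻¹) f) = -(ψ - sh (y ^ 2) ψ) := by
        rw [sh_sub, ← sh_mul, ← sh_mul, inv_mul_cancel_right, hψ, ← sh_mul]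
        have : y * (x * y⁻¹)⁻¹ * (x * y) = y ^ 2 * y := by rw [pow_two]; group
        rw [this]; abel
      rw [hψn]
      refine lt_of_le_of_lt (le_of_eq ?_) A1
      rw [← norm_neg, ← e1, sh_norm]
    have B2 : ‖ψ - sh (x ^ 2) ψ‖ < 1 / 100 * ‖ψ‖ := by
      have e1 : sh x (sh (x * y) f - sh (x⁻¹ * y) f) = -(ψ - sh (x ^ 2) ψ) := by
        rw [sh_sub, ← sh_mul, ← sh_mul, mul_inv_cancel_left, hψ, ← sh_mul]
        have : x * (x * y) = x ^ 2 * y := by rw [pow_two]; group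
        rw [this]; abel
      rw [hψn]
      refine lt_of_le_of_lt (le_of_eq ?_) A2
      rw [← norm_neg, ← e1, sh_norm]
    have hgood : ∀ j, j + 1 < m → ∀ W, W ∉ D.good j → ψ W = 0 := fun j hj W hW => 
      hψs W (fun h => hW (D.Nset_good W h j hj))
    have hmax : ‖ψ‖ ≤ 100 * max ‖ψ - sh (x ^ 2) ψ‖ ‖ψ - sh (y ^ 2) ψ‖ := by
      rcases hii with hii | hii
      · have hi2 : (i : ℕ) + 2 < m := by have := i'.2; omega
        have ex : ((true, i) : Letter m) = lt (i : ℕ) (by omega) true := rfl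
        have ey : ((true, i') : Letter m) = lt ((i : ℕ) + 1) hi2 true := by
          refine Prod.ext rfl (Fin.ext ?_)
          exact hii.symm
        rw [ex] at hx
        rw [ey] at hy
        apply D.near_pure v hv (i : ℕ) hi2 ψ (hgood _ (by omega))
        · rw [← hx]; exact le_max_left _ _
        · rw [← hy]; exact le_max_right _ _
      · have hi2 : (i' : ℕ) + 2 < m := by have := i.2; omega
        have ey : ((true, i') : Letter m) = lt (i' : ℕ) (by omega) true := rfl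
        have ex : ((true, i) : Letter m) = lt ((i' : ℕ) + 1) hi2 true := by
          refine Prod.ext rfl (Fin.ext ?_)
          exact hii.symm
        rw [ex] at hx
        rw [ey] at hy
        apply D.near_pure v hv (i' : ℕ) hi2 ψ (hgood _ (by omega))
        · rw [← hy]; exact le_max_right _ _
        · rw [← hx]; exact le_max_left _ _
    have := max_lt B2 B1
    linarith
  obtain ⟨z, z', hne, hz, hz', hdiff⟩ := key
  have h6 := avg_gap (fun z : Letter m × Letter m => q z.1 * q' z.2) hpos hsum 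
    (fun z => act (D.gg z.1) * act (D.gg z.2)) f z z' (α ^ 2) (1 / 100) (by positivity) hz hz' 
    (by norm_num) hne hdiff
  refine abs_le_of_sq_le_sq' ?_ (mul_nonneg (Real.sqrt_nonneg _) (norm_nonneg _)) |>.2
  rw [mul_pow, Real.sq_sqrt (le_max_right _ _)]
  exact h6.trans (mul_le_mul_of_nonneg_right (le_max_left _ _) (sq_nonneg _))

end Pool.Agent.Y463.MP
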